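import Mathlib

/-!
# Project CA, module AdEig

If conjugation with `X` is a unipotent operator on the matrices over an algebraically closed field
then `X` is a scalar times a unipotent matrix.

Proof. `X` has an eigenvalue `lam` with eigenvector `v` (`Matrix` of size `n ≥ 1` over an
algebraically closed field; `lam ≠ 0` as `X` is invertible). Every root `mu` of the characteristic
polynomial of `X` is equal to `lam`: `mu` is an eigenvalue of `Xᵀ` (`Matrix.charpoly_transpose`),
`Xᵀ *ᵥ u = mu • u`, `u ≠ 0`; `M := vecMulVec v u ≠ 0` satisfies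
`X * M * Y = (lam * mu⁻¹) • M`, (`u ᵥ* Y = mu⁻¹ • u`), so `(lam/mu - 1)` is an eigenvalue of the
nilpotent operator `ad - 1`, so `lam = mu`. Hence `X.charpoly = (T - lam)^n`
(it splits) and `(X - lam)^n = 0` by Cayley-Hamilton (`Matrix.aeval_self_charpoly`).
-/

set_option autoImplicit false

open Matrix

namespace Pool.Agent.H62.CA

/-- `M ↦ X * M * Y`. -/
def adXY {n : ℕ} {F : Type*} [Field F] (X Y : Matrix (Fin n) (Fin n) F) :
    Module.End F (Matrix (Fin n) (Fin n) F) :=
  LinearMap.mulLeft F X * LinearMap.mulRight F Y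

theorem AdEig_left {n : ℕ} {F : Type*} [Field F] (X : Matrix (Fin n) (Fin n) F) (mu : F)
    (h : X.charpoly.eval mu = 0) : ∃ u : Fin n → F, u ≠ 0 ∧ u ᵥ* X = mu • u := by
  rw [Matrix.eval_charpoly] at h
  obtain ⟨u, hu, hu0⟩ := Matrix.exists_vecMul_eq_zero_iff.2 h
  refine ⟨u, hu, ?_⟩
  rw [Matrix.vecMul_sub, sub_eq_zero] at hu0
  rw [← hu0]
  ext i
  simp [Matrix.scalar_apply, Matrix.vecMul_diagonal, mul_comm]

theorem AdEig_right {n : ℕ} {F : Type*} [Field F] (X : Matrix (Fin n) (Fin n) F) (lam : F)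
    (h : X.charpoly.eval lam = 0) : ∃ v : Fin n → F, v ≠ 0 ∧ X *ᵥ v = lam • v := by
  rw [Matrix.eval_charpoly] at h
  obtain ⟨u, hu, hu0⟩ := Matrix.exists_mulVec_eq_zero_iff.2 h
  refine ⟨u, hu, ?_⟩
  rw [Matrix.sub_mulVec, sub_eq_zero] at hu0
  rw [← hu0]
  ext i
  simp [Matrix.scalar_apply, Matrix.mulVec_diagonal]

theorem AdEig_pow {n : ℕ} {F : Type*} [Field F] (T : Module.End F (Matrix (Fin n) (Fin n) F))
    (M : Matrix (Fin n) (Fin n) F) (c : F) (h : T M = c • M) (k : ℕ) :
    (T ^ k) M = c ^ k • M := by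
  induction k with
  | zero => simp
  | succ k ih =>
    rw [pow_succ, Module.End.mul_apply, h, map_smul, ih, smul_smul, pow_succ, mul_comm]

theorem exists_scalar_of_ad {n : ℕ} (hn : 0 < n) {F : Type*} [Field F] [IsAlgClosed F]
    {X Y : Matrix (Fin n) (Fin n) F} (hXY : X * Y = 1) (h : IsNilpotent (adXY X Y - 1)) :
    ∃ lam : F, IsNilpotent (X - scalar (Fin n) lam) := by
  have hmon : X.charpoly.Monic := Matrix.charpoly_monic X
  have hdeg : X.charpoly.natDegree = n := by
    rw [Matrix.charpoly_natDegree_eq_dim, Fintype.card_fin]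
  obtain ⟨lam, hlam⟩ := IsAlgClosed.exists_root X.charpoly (by
    intro h0
    rw [Polynomial.degree_eq_natDegree hmon.ne_zero, hdeg] at h0
    have : n = 0 := by exact_mod_cast h0
    omega)
  obtain ⟨v, hv, hvX⟩ := AdEig_right X lam hlam
  obtain ⟨k, hk⟩ := h
  -- every root is equal to `lam`
  have hroot : ∀ mu ∈ X.charpoly.roots, mu = lam := by
    intro mu hmu
    have hmu' : X.charpoly.eval mu = 0 := Polynomial.isRoot_of_mem_roots hmu
    obtain ⟨u, hu, huX⟩ := AdEig_left X mu hmu'
    have hu1 : u = mu • (u ᵥ* Y) := by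
      rw [← Matrix.smul_vecMul, ← huX, Matrix.vecMul_vecMul, hXY, Matrix.vecMul_one]
    have hmu0 : mu ≠ 0 := by
      intro h0
      rw [h0, zero_smul] at hu1
      exact hu hu1
    have huY : u ᵥ* Y = mu⁻¹ • u := by
      conv_rhs => rw [hu1]
      rw [smul_smul, inv_mul_cancel₀ hmu0, one_smul]
    set M : Matrix (Fin n) (Fin n) F := Matrix.vecMulVec v u with hM
    have hM0 : M ≠ 0 := by
      intro h0
      obtain ⟨i, hi⟩ := Function.ne_iff.1 hv
      obtain ⟨j, hj⟩ := Function.ne_iff.1 hu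
      have h1 := congrFun (congrFun h0 i) j
      rw [hM, Matrix.vecMulVec_apply] at h1
      rcases mul_eq_zero.1 h1 with h2 | h2
      · exact hi h2
      · exact hj h2
    have hT : (adXY X Y - 1) M = (lam * mu⁻¹ - 1) • M := by
      have h1 : adXY X Y M = (lam * mu⁻¹) • M := by
        change X * (M * Y) = _
        rw [hM, Matrix.vecMulVec_mul, Matrix.mul_vecMulVec, huY, hvX]
        ext i j
        simp only [Matrix.vecMulVec_apply, Pi.smul_apply, Matrix.smul_apply, smul_eq_mul]
        ring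
      rw [LinearMap.sub_apply, h1, sub_smul, one_smul]
      rfl
    have h2 := AdEig_pow _ M _ hT k
    rw [hk, LinearMap.zero_apply] at h2
    have h3 : (lam * mu⁻¹ - 1) ^ k = 0 := by
      rcases smul_eq_zero.1 h2.symm with h4 | h4
      · exact h4
      · exact absurd h4 hM0
    have h4 : lam * mu⁻¹ - 1 = 0 := eq_zero_of_pow_eq_zero h3
    have h5 : lam * mu⁻¹ = 1 := sub_eq_zero.1 h4
    rw [mul_inv_eq_one₀ hmu0] at h5
    exact h5.symm
  refine ⟨lam, Multiset.card X.charpoly.roots, ?_⟩
  have h1 := (IsAlgClosed.splits X.charpoly).eq_prod_roots_of_monic hmon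
  have h2 : X.charpoly.roots = Multiset.replicate (Multiset.card X.charpoly.roots) lam :=
    Multiset.eq_replicate_card.2 hroot
  rw [h2, Multiset.map_replicate, Multiset.prod_replicate] at h1
  have h3 := Matrix.aeval_self_charpoly X
  rw [h1, map_pow, map_sub, Polynomial.aeval_X, Polynomial.aeval_C] at h3
  exact h3

end Pool.Agent.H62.CA
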