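import Mathlib

/-!
# Project CA, module Basis: matrices which multiply like matrix units (`n ≥ 3`)

`N i j t` (`i ≠ j`, `t ∈ K`), `n × n` matrices over `L` of rank `≤ 1`, additive in `t`, nonzero for
`t ≠ 0`, with `N_ij(s) N_jk(t) = N_ik(st)` for distinct `i, j, k` and `N_ij(s) N_kl(t) = 0` for
`j ≠ k`. Then `N_ij(t) = G (σ(t) E_ij) G⁻¹` for a ring homomorphism `σ : K → L`.

Proof. For `s ≠ 0` write `N_ij(s) = vecMulVec v f`. For fixed `i` the image line of `N_ij(s)` does not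
depend on `j ≠ i` and `s ≠ 0`: `N_ik(st) = N_ij(s) N_jk(t)` gives `im N_ik(u) = im N_ij(s)` for all
`j ≠ k` and all `s, u ≠ 0` (and then also for `j = k`, through a third index, `n ≥ 3`). Choose
`v_i` spanning it. Likewise `N_ik(st) = N_ij(s) N_jk(t)` gives that the row line of `N_jk(t)` depends only on
`k`; choose `f_k` spanning it. So `N_ij(t) = c_ij(t) • vecMulVec v_i f_j`, `c_ij(t) ≠ 0` for `t ≠ 0`.
`N_ij(1) N_kl(1) = 0` for `j ≠ k` gives `f_j·v_k = 0` for `j ≠ k`, and `N_ij N_jk ≠ 0` gives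
`d_j := f_j·v_j ≠ 0`. So with `G₀ := (v_1 … v_n)` (columns), `F₀` (rows `f_j`): `F₀ G₀ = diagonal d`, so
`G₀` is invertible and `vecMulVec v_i f_j = d_j • G₀ E_ij G₀⁻¹`. With `τ_ij(t) := c_ij(t) d_j`:
`N_ij(t) = τ_ij(t) • G₀ E_ij G₀⁻¹`, `τ_ij` additive, `τ_ij(s) τ_jk(t) = τ_ik(st)`, `τ_ij(t) ≠ 0` for
`t ≠ 0`. Put `q_0 := 1`, `q_j := (τ_0j(1))⁻¹` (`j ≠ 0`), `G := G₀ diagonal q`; then
`G E_ij G⁻¹ = q_i q_j⁻¹ G₀ E_ij G₀⁻¹`, so w.r.t. `G` the coefficients are
`σ_ij(t) = τ_ij(t) q_j q_i⁻¹`, with `σ_0j(1) = 1` and again `σ_ij(s) σ_jk(t) = σ_ik(st)`. Hence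
`σ_jk(1) = σ_0j(1)⁻¹ σ_0k(1) = 1` for distinct `0, j, k`, `σ_j0(1) = σ_jk(1)/σ_0k(1) = 1`, so all
`σ_ij(1) = 1`; `σ_ik(t) = σ_ij(1) σ_jk(t) = σ_jk(t)`, `σ_ik(t) = σ_ij(t) σ_jk(1) = σ_ij(t)`: all
`σ_ij` agree (`n ≥ 3`), and `σ` is additive, multiplicative, `σ(1) = 1`.
-/

set_option autoImplicit false

open Matrix

namespace Pool.Agent.H62.CA

theorem Basis_rank {n : ℕ} {L : Type*} [Field L] (M : Matrix (Fin n) (Fin n) L)
    (h : M.rank ≤ 1) : ∃ v g : Fin n → L, M = vecMulVec v g := by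
  rw [Matrix.rank_eq_finrank_span_cols] at h
  obtain ⟨v, hv⟩ := finrank_le_one_iff.1 h
  have h1 : ∀ b, ∃ c : L, c • (v : Fin n → L) = M.col b := by
    intro b
    obtain ⟨c, hc⟩ := hv ⟨M.col b, Submodule.subset_span ⟨b, rfl⟩⟩
    exact ⟨c, congrArg Subtype.val hc⟩
  choose c hc using h1
  refine ⟨v, c, ?_⟩
  ext a b
  rw [vecMulVec_apply]
  have := congrFun (hc b) a
  rw [Pi.smul_apply, smul_eq_mul, mul_comm] at this
  exact this.symm

theorem Basis_comb {n : ℕ} {L : Type*} [Field L] {v g w f : Fin n → L} (hv : v ≠ 0)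
    (h : vecMulVec v g = vecMulVec w f) : ∃ c : L, vecMulVec v g = c • vecMulVec v f := by
  obtain ⟨a, ha⟩ := Function.ne_iff.1 hv
  refine ⟨w a / v a, ?_⟩
  have h1 : g = (w a / v a) • f := by
    funext b
    have h2 := congrFun (congrFun h a) b
    rw [vecMulVec_apply, vecMulVec_apply] at h2
    rw [Pi.smul_apply, smul_eq_mul, div_mul_eq_mul_div, eq_div_iff ha, mul_comm]
    exact h2
  rw [h1, vecMulVec_smul]

theorem Basis_third {n : ℕ} (hn : 3 ≤ n) (i j : Fin n) : ∃ k, i ≠ k ∧ j ≠ k := by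
  by_contra h
  push Not at h
  have h1 : (Finset.univ : Finset (Fin n)) ⊆ {i, j} := by
    intro k _
    rw [Finset.mem_insert, Finset.mem_singleton]
    by_cases hk : i = k
    · exact Or.inl hk.symm
    · exact Or.inr (h k hk).symm
  have h2 := Finset.card_le_card h1
  rw [Finset.card_univ, Fintype.card_fin] at h2
  have h3 := Finset.card_le_two (a := i) (b := j)
  omega

/-- Coefficients: `N i j t = c i j t • vecMulVec (v i) (f j)`. -/
theorem Basis_coeff {n : ℕ} (hn : 3 ≤ n) {K L : Type*} [Field K] [Field L]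
    (N : Fin n → Fin n → K → Matrix (Fin n) (Fin n) L)
    (hrank : ∀ i j t, i ≠ j → (N i j t).rank ≤ 1)
    (hne : ∀ i j t, i ≠ j → t ≠ 0 → N i j t ≠ 0)
    (hmul : ∀ i j k s t, i ≠ j → j ≠ k → i ≠ k → N i j s * N j k t = N i k (s * t)) :
    ∃ (v f : Fin n → Fin n → L) (c : Fin n → Fin n → K → L),
      ∀ i j t, i ≠ j → N i j t = c i j t • vecMulVec (v i) (f j) := by
  -- image lines
  have hA : ∀ i : Fin n, ∃ v : Fin n → L, v ≠ 0 ∧ ∀ j t, i ≠ j → ∃ g, N i j t = vecMulVec v g := by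
    intro i
    obtain ⟨j0, hj0, -⟩ := Basis_third hn i i
    obtain ⟨v, g, hvg⟩ := Basis_rank _ (hrank i j0 1 hj0)
    have hv : v ≠ 0 := by
      rintro rfl
      rw [zero_vecMulVec] at hvg
      exact hne i j0 1 hj0 one_ne_zero hvg
    have h1 : ∀ j t, i ≠ j → j0 ≠ j → ∃ g', N i j t = vecMulVec v g' := by
      intro j t hij hj
      refine ⟨g ᵥ* N j0 j t, ?_⟩
      rw [← vecMulVec_mul, ← hvg, hmul i j0 j 1 t hj0 hj hij, one_mul]
    refine ⟨v, hv, fun j t hij => ?_⟩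
    by_cases hj : j0 = j
    · subst hj
      obtain ⟨l, hl1, hl2⟩ := Basis_third hn i j0
      obtain ⟨g', hg'⟩ := h1 l 1 hl1 hl2
      refine ⟨g' ᵥ* N l j0 t, ?_⟩
      rw [← vecMulVec_mul, ← hg', hmul i l j0 1 t hl1 hl2.symm hij, one_mul]
    · exact h1 j t hij hj
  have hB : ∀ j : Fin n, ∃ f : Fin n → L, ∀ i t, i ≠ j → ∃ w, N i j t = vecMulVec w f := by
    intro j
    obtain ⟨i0, hi0, -⟩ := Basis_third hn j j
    obtain ⟨w, f, hwf⟩ := Basis_rank _ (hrank i0 j 1 hi0.symm)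
    have h1 : ∀ i t, i ≠ j → i0 ≠ i → ∃ w', N i j t = vecMulVec w' f := by
      intro i t hij hi
      refine ⟨N i i0 t *ᵥ w, ?_⟩
      rw [← mul_vecMulVec, ← hwf, hmul i i0 j t 1 hi.symm hi0.symm hij, mul_one]
    refine ⟨f, fun i t hij => ?_⟩
    by_cases hi : i0 = i
    · subst hi
      obtain ⟨l, hl1, hl2⟩ := Basis_third hn i0 j
      obtain ⟨w', hw'⟩ := h1 l 1 hl2.symm hl1
      refine ⟨N i0 l t *ᵥ w', ?_⟩
      rw [← mul_vecMulVec, ← hw', hmul i0 l j t 1 hl1 hl2.symm hij, mul_one]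
    · exact h1 i t hij hi
  choose v hv hA using hA
  choose f hB using hB
  have h2 : ∀ i j t, ∃ c : L, i ≠ j → N i j t = c • vecMulVec (v i) (f j) := by
    intro i j t
    by_cases hij : i = j
    · exact ⟨0, fun h => absurd hij h⟩
    · obtain ⟨g, hg⟩ := hA i j t hij
      obtain ⟨w, hw⟩ := hB j i t hij
      obtain ⟨c, hc⟩ := Basis_comb (hv i) (hg.symm.trans hw)
      exact ⟨c, fun _ => hg.trans hc⟩
  choose c hc using h2
  exact ⟨v, f, c, hc⟩

/-- All `σ i j` agree. -/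
theorem Basis_sigma {n : ℕ} (hn : 3 ≤ n) {K L : Type*} [Field K] [Field L]
    (σ : Fin n → Fin n → K → L) (o : Fin n)
    (hone : ∀ j, o ≠ j → σ o j 1 = 1)
    (hmul : ∀ i j k s t, i ≠ j → j ≠ k → i ≠ k → σ i j s * σ j k t = σ i k (s * t)) :
    (∀ i j, i ≠ j → σ i j 1 = 1) ∧
      ∀ i j k l t, i ≠ j → k ≠ l → σ i j t = σ k l t := by
  have h1 : ∀ i j, i ≠ j → σ i j 1 = 1 := by
    have h2 : ∀ i j, i ≠ j → o ≠ i → o ≠ j → σ i j 1 = 1 := by
      intro i j hij hi hj
      have := hmul o i j 1 1 hi hij hj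
      rwa [hone i hi, one_mul, one_mul, hone j hj] at this
    intro i j hij
    by_cases hi : o = i
    · subst hi
      exact hone j hij
    · by_cases hj : o = j
      · subst hj
        obtain ⟨k, hk1, hk2⟩ := Basis_third hn i o
        have := hmul i o k 1 1 hij hk2 hk1
        rwa [hone k hk2, mul_one, mul_one, h2 i k hk1 hi hk2] at this
      · exact h2 i j hij hi hj
  refine ⟨h1, ?_⟩
  have hR : ∀ i j k t, i ≠ j → i ≠ k → σ i j t = σ i k t := by
    intro i j k t hij hik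
    by_cases hjk : j = k
    · rw [hjk]
    · have := hmul i j k t 1 hij hjk hik
      rwa [h1 j k hjk, mul_one, mul_one] at this
  have hL : ∀ i j k t, i ≠ k → j ≠ k → σ i k t = σ j k t := by
    intro i j k t hik hjk
    by_cases hij : i = j
    · rw [hij]
    · have := hmul i j k 1 t hij hjk hik
      rw [h1 i j hij, one_mul, one_mul] at this
      exact this.symm
  intro i j k l t hij hkl
  by_cases hil : i = l
  · subst hil
    obtain ⟨m, hm1, hm2⟩ := Basis_third hn i k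
    rw [hR i j m t hij hm1, hL i k m t hm1 hm2, hR k m i t hm2 hkl]
  · rw [hR i j l t hij hil, hL i k l t hil hkl]

theorem exists_matrixUnits {n : ℕ} (hn : 3 ≤ n) {K L : Type*} [Field K] [Field L]
    (N : Fin n → Fin n → K → Matrix (Fin n) (Fin n) L)
    (hrank : ∀ i j t, i ≠ j → (N i j t).rank ≤ 1)
    (hadd : ∀ i j s t, i ≠ j → N i j (s + t) = N i j s + N i j t)
    (hne : ∀ i j t, i ≠ j → t ≠ 0 → N i j t ≠ 0)
    (hmul : ∀ i j k s t, i ≠ j → j ≠ k → i ≠ k → N i j s * N j k t = N i k (s * t))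
    (hzero : ∀ i j k l s t, i ≠ j → k ≠ l → j ≠ k → N i j s * N k l t = 0) :
    ∃ (σ : K →+* L) (g : GL (Fin n) L), ∀ i j t, i ≠ j →
      N i j t = (g : Matrix (Fin n) (Fin n) L) * Matrix.single i j (σ t) *
        ((g⁻¹ : GL (Fin n) L) : Matrix (Fin n) (Fin n) L) := by
  obtain ⟨v, f, c, hc⟩ := Basis_coeff hn N hrank hne hmul
  have hprod : ∀ i j k l s t, i ≠ j → k ≠ l → N i j s * N k l t =
      (c i j s * c k l t * (f j ⬝ᵥ v k)) • vecMulVec (v i) (f l) := by
    intro i j k l s t hij hkl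
    rw [hc i j s hij, hc k l t hkl, smul_mul_smul_comm, vecMulVec_mul_vecMulVec, vecMulVec_smul,
      smul_smul]
  have hvf : ∀ i j, i ≠ j → vecMulVec (v i) (f j) ≠ 0 := by
    intro i j hij h
    apply hne i j 1 hij one_ne_zero
    rw [hc i j 1 hij, h, smul_zero]
  have hc0 : ∀ i j t, i ≠ j → t ≠ 0 → c i j t ≠ 0 := by
    intro i j t hij ht h
    apply hne i j t hij ht
    rw [hc i j t hij, h, zero_smul]
  have hinj : ∀ i j (a b : L), i ≠ j → a • vecMulVec (v i) (f j) = b • vecMulVec (v i) (f j) →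
      a = b := fun i j a b hij h => smul_left_injective L (hvf i j hij) h
  have hcadd : ∀ i j s t, i ≠ j → c i j (s + t) = c i j s + c i j t := by
    intro i j s t hij
    apply hinj i j _ _ hij
    rw [← hc i j _ hij, hadd i j s t hij, hc i j s hij, hc i j t hij, add_smul]
  have hcmul : ∀ i j k s t, i ≠ j → j ≠ k → i ≠ k →
      c i j s * c j k t * (f j ⬝ᵥ v j) = c i k (s * t) := by
    intro i j k s t hij hjk hik
    apply hinj i k _ _ hik
    rw [← hprod i j j k s t hij hjk, hmul i j k s t hij hjk hik, hc i k _ hik]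
  have hd : ∀ j, f j ⬝ᵥ v j ≠ 0 := by
    intro j h
    obtain ⟨i, hi, -⟩ := Basis_third hn j j
    obtain ⟨k, hk1, hk2⟩ := Basis_third hn i j
    have := hcmul i j k 1 1 hi.symm hk2 hk1
    rw [h, mul_zero, mul_one] at this
    exact hc0 i k 1 hk1 one_ne_zero this.symm
  have hfv : ∀ j k, j ≠ k → f j ⬝ᵥ v k = 0 := by
    intro j k hjk
    obtain ⟨i, hi, -⟩ := Basis_third hn j k
    obtain ⟨l, hl1, hl2⟩ := Basis_third hn k i
    have h1 := hprod i j k l 1 1 hi.symm hl1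
    rw [hzero i j k l 1 1 hi.symm hl1 hjk] at h1
    have h2 := smul_eq_zero.1 h1.symm
    rcases h2 with h2 | h2
    · rcases mul_eq_zero.1 h2 with h3 | h3
      · rcases mul_eq_zero.1 h3 with h4 | h4
        · exact absurd h4 (hc0 i j 1 hi.symm one_ne_zero)
        · exact absurd h4 (hc0 k l 1 hl1 one_ne_zero)
      · exact h3
    · exact absurd h2 (hvf i l hl2)
  -- normalisation
  set o : Fin n := ⟨0, by omega⟩ with ho
  set d : Fin n → L := fun j => f j ⬝ᵥ v j with hdd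
  set q : Fin n → L := fun j => if o = j then 1 else (c o j 1 * d j)⁻¹ with hq
  have hd' : ∀ j, d j ≠ 0 := hd
  have hqo : q o = 1 := by rw [hq]; exact if_pos rfl
  have hqj : ∀ j, o ≠ j → q j = (c o j 1 * d j)⁻¹ := fun j hj => by rw [hq]; exact if_neg hj
  have hq0 : ∀ j, q j ≠ 0 := by
    intro j
    by_cases hj : o = j
    · rw [← hj, hqo]
      exact one_ne_zero
    · rw [hqj j hj]
      exact inv_ne_zero (mul_ne_zero (hc0 o j 1 hj one_ne_zero) (hd' j))
  set σ : Fin n → Fin n → K → L := fun i j t => c i j t * d j * q j * (q i)⁻¹ with hσ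
  have hσmul : ∀ i j k s t, i ≠ j → j ≠ k → i ≠ k → σ i j s * σ j k t = σ i k (s * t) := by
    intro i j k s t hij hjk hik
    show c i j s * d j * q j * (q i)⁻¹ * (c j k t * d k * q k * (q j)⁻¹) =
      c i k (s * t) * d k * q k * (q i)⁻¹
    rw [← hcmul i j k s t hij hjk hik]
    have := hq0 j
    show _ = c i j s * c j k t * d j * d k * q k * (q i)⁻¹
    field_simp
  have hσone : ∀ j, o ≠ j → σ o j 1 = 1 := by
    intro j hj
    show c o j 1 * d j * q j * (q o)⁻¹ = 1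
    rw [hqo, inv_one, mul_one, hqj j hj]
    exact mul_inv_cancel₀ (mul_ne_zero (hc0 o j 1 hj one_ne_zero) (hd' j))
  obtain ⟨hs1, hs2⟩ := Basis_sigma hn σ o hσone hσmul
  obtain ⟨e, hoe, -⟩ := Basis_third hn o o
  obtain ⟨m, hom, hem⟩ := Basis_third hn o e
  have hσadd : ∀ s t, σ o e (s + t) = σ o e s + σ o e t := by
    intro s t
    show c o e (s + t) * d e * q e * (q o)⁻¹ =
      c o e s * d e * q e * (q o)⁻¹ + c o e t * d e * q e * (q o)⁻¹
    rw [hcadd o e s t hoe]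
    ring
  let τ : K →+* L :=
    { toFun := σ o e
      map_one' := hs1 o e hoe
      map_mul' := fun s t => by
        rw [hs2 o e o m (s * t) hoe hom, ← hσmul o e m s t hoe hem hom,
          hs2 e m o e t hem hoe]
      map_zero' := by
        have := hσadd 0 0
        rw [add_zero] at this
        exact left_eq_add.1 this
      map_add' := hσadd }
  -- the conjugating matrix
  let G : Matrix (Fin n) (Fin n) L := Matrix.of fun a i => v i a * q i
  let G' : Matrix (Fin n) (Fin n) L := Matrix.of fun j b => (q j)⁻¹ * (d j)⁻¹ * f j b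
  have hG : G' * G = 1 := by
    ext j i
    rw [Matrix.mul_apply]
    have h1 : ∑ b, G' j b * G b i = (q j)⁻¹ * (d j)⁻¹ * (f j ⬝ᵥ v i) * q i := by
      rw [dotProduct, Finset.mul_sum, Finset.sum_mul]
      refine Finset.sum_congr rfl fun b _ => ?_
      show (q j)⁻¹ * (d j)⁻¹ * f j b * (v i b * q i) = _
      ring
    rw [h1, Matrix.one_apply]
    by_cases hji : j = i
    · subst hji
      rw [if_pos rfl]
      show (q j)⁻¹ * (d j)⁻¹ * d j * q j = 1
      have := hq0 j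
      have := hd' j
      field_simp
    · rw [if_neg hji, hfv j i hji, mul_zero, zero_mul]
  let g : GL (Fin n) L := ⟨G, G', mul_eq_one_comm.1 hG, hG⟩
  refine ⟨τ, g, fun i j t hij => ?_⟩
  show N i j t = G * Matrix.single i j (σ o e t) * G'
  rw [hs2 o e i j t hoe hij, hc i j t hij]
  ext a b
  rw [Matrix.mul_apply, Finset.sum_eq_single j]
  · rw [Matrix.mul_single_apply_same, Matrix.smul_apply, vecMulVec_apply, smul_eq_mul]
    show c i j t * (v i a * f j b) =
      v i a * q i * (c i j t * d j * q j * (q i)⁻¹) * ((q j)⁻¹ * (d j)⁻¹ * f j b)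
    have h1 := hq0 i
    have h2 := hq0 j
    have h3 := hd' j
    field_simp
  · intro k _ hk
    rw [Matrix.mul_single_apply_of_ne _ _ _ _ _ hk, zero_mul]
  · intro h
    exact absurd (Finset.mem_univ j) h

end Pool.Agent.H62.CA
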