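import Pool.Agent.H62.CA.Embed

/-!
# Project CA, module Chain: compatible coordinates along an ascending chain

`exists_next`: given an injective `ι : A → B`, an isomorphism `a : A ≃* SL n K ⧸ Z` and an isomorphism
`b : B ≃* SL n L ⧸ Z'`, apply `exists_standard` to `ψ := b ∘ ι ∘ a⁻¹ ∘ mk` (its kernel is `Z`, which
is central). Put `b' := ᾱ⁻¹ ∘ b`, where `ᾱ` is the automorphism of `SL n L ⧸ Z'` induced by `α`
(`QuotientGroup.congr`, using `α z ∈ Z' ↔ z ∈ Z'`).
`exists_chain`: recursion on `i` with `exists_next` (choose for every `i` and every isomorphism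
`a : H i ≃* Q i` some `σ` and `b'`, then `Nat.rec`).
-/

set_option autoImplicit false

open Matrix

universe u

namespace Pool.Agent.H62.CA

theorem exists_next {n : ℕ} {K L : Type u} [Field K] [Field L] [Infinite K] (hn : 2 ≤ n)
    {Z : Subgroup (SL n K)} [Z.Normal] (hZ : Z ≤ Subgroup.center (SL n K))
    {Z' : Subgroup (SL n L)} [Z'.Normal] (hZ' : Z' ≤ Subgroup.center (SL n L))
    {A B : Type u} [Group A] [Group B] (ι : A →* B) (hι : Function.Injective ι)
    (a : A ≃* SL n K ⧸ Z) (b : B ≃* SL n L ⧸ Z') :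
    ∃ (σ : K →+* L) (b' : B ≃* SL n L ⧸ Z'), ∀ (x : A) (M : SL n K),
      a x = QuotientGroup.mk M → b' (ι x) = QuotientGroup.mk (SpecialLinearGroup.map σ M) := by
  let ψ : SL n K →* SL n L ⧸ Z' :=
    b.toMonoidHom.comp (ι.comp (a.symm.toMonoidHom.comp (QuotientGroup.mk' Z)))
  have hψ : ∀ M : SL n K, ψ M = b (ι (a.symm (QuotientGroup.mk M))) := fun M => rfl
  have hker : ψ.ker ≤ Subgroup.center (SL n K) := by
    intro M hM
    rw [MonoidHom.mem_ker, hψ] at hM
    have h1 : ι (a.symm (QuotientGroup.mk M)) = 1 := b.injective (by rw [hM, map_one])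
    have h2 : a.symm (QuotientGroup.mk M) = 1 := hι (by rw [h1, map_one])
    have h3 : (QuotientGroup.mk M : SL n K ⧸ Z) = 1 := a.symm.injective (by rw [h2, map_one])
    exact hZ ((QuotientGroup.eq_one_iff M).1 h3)
  obtain ⟨σ, α, hα, hstd⟩ := exists_standard hn hZ' ψ hker
  have hmap : Z'.map (α : SL n L →* SL n L) = Z' := by
    ext z
    constructor
    · rintro ⟨y, hy, rfl⟩
      exact (hα y).2 hy
    · intro hz
      refine ⟨α.symm z, ?_, ?_⟩
      · have := (hα (α.symm z)).1 (by rw [MulEquiv.apply_symm_apply]; exact hz)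
        exact this
      · exact α.apply_symm_apply z
  let αb : SL n L ⧸ Z' ≃* SL n L ⧸ Z' := QuotientGroup.congr Z' Z' α hmap
  have hαb : ∀ M : SL n L, αb (QuotientGroup.mk M) = QuotientGroup.mk (α M) := fun M => rfl
  refine ⟨σ, b.trans αb.symm, ?_⟩
  intro x M hx
  rw [MulEquiv.trans_apply, MulEquiv.symm_apply_eq, hαb, ← hstd, hψ, ← hx,
    MulEquiv.symm_apply_apply]

theorem exists_chain {n : ℕ} (hn : 2 ≤ n) {G : Type u} [Group G] (H : ℕ → Subgroup G)
    (hH : ∀ i, H i ≤ H (i + 1)) (K : ℕ → Type u) [∀ i, Field (K i)] [∀ i, Infinite (K i)]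
    (Z : ∀ i, Subgroup (SL n (K i))) [∀ i, (Z i).Normal]
    (hZ : ∀ i, Z i ≤ Subgroup.center (SL n (K i))) (β : ∀ i, H i ≃* SL n (K i) ⧸ Z i) :
    ∃ (σ : ∀ i, K i →+* K (i + 1)) (α : ∀ i, H i ≃* SL n (K i) ⧸ Z i),
      ∀ (i : ℕ) (x : H i) (M : SL n (K i)), α i x = QuotientGroup.mk M →
        α (i + 1) (Subgroup.inclusion (hH i) x) =
          QuotientGroup.mk (SpecialLinearGroup.map (σ i) M) := by
  have hstep : ∀ (i : ℕ) (a : H i ≃* SL n (K i) ⧸ Z i),
      ∃ (σ : K i →+* K (i + 1)) (b' : H (i + 1) ≃* SL n (K (i + 1)) ⧸ Z (i + 1)),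
        ∀ (x : H i) (M : SL n (K i)), a x = QuotientGroup.mk M →
          b' (Subgroup.inclusion (hH i) x) = QuotientGroup.mk (SpecialLinearGroup.map σ M) :=
    fun i a => exists_next hn (hZ i) (hZ (i + 1)) (Subgroup.inclusion (hH i))
      (Subgroup.inclusion_injective (hH i)) a (β (i + 1))
  choose σ' b' h' using hstep
  let α : ∀ i, H i ≃* SL n (K i) ⧸ Z i := fun i =>
    Nat.rec (motive := fun i => H i ≃* SL n (K i) ⧸ Z i) (β 0) (fun i a => b' i a) i
  exact ⟨fun i => σ' i (α i), α, fun i x M hx => h' i (α i) x M hx⟩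

end Pool.Agent.H62.CA
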