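import Mathlib

/-!
# Project CA: ascending unions of groups of type `A_r` — definitions
-/

set_option autoImplicit false

open Matrix

namespace Pool.Agent.H62.CA

variable {n : ℕ} {K L : Type*} [Field K] [Field L]

/-- `SL n K` -/
abbrev SL (n : ℕ) (K : Type*) [Field K] : Type _ := SpecialLinearGroup (Fin n) K

/-- The root element `1 + t E_ij` of `SL n K`. -/
abbrev xr {i j : Fin n} (hij : i ≠ j) (t : K) : SL n K := SpecialLinearGroup.transvection hij t

/-- Unipotent elements. -/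
def Unip (e : SL n L) : Prop := IsNilpotent ((e : Matrix (Fin n) (Fin n) L) - 1)

/-- `e` is a unipotent representative of the value of `ψ` at `A`. -/
def Lift {Z : Subgroup (SL n L)} [Z.Normal] (ψ : SL n K →* SL n L ⧸ Z) (A : SL n K)
    (e : SL n L) : Prop :=
  Unip e ∧ (QuotientGroup.mk e : SL n L ⧸ Z) = ψ A

/-- The relations of the unipotent representatives of the root elements, as matrices. -/
structure RootData (n : ℕ) (K L : Type*) [Field K] [Field L] where
  /-- the elements -/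
  e : Fin n → Fin n → K → SL n L
  unip : ∀ i j t, i ≠ j → Unip (e i j t)
  add : ∀ i j s t, i ≠ j → e i j (s + t) = e i j s * e i j t
  comm : ∀ i j k l s t, i ≠ j → k ≠ l → j ≠ k → i ≠ l → Commute (e i j s) (e k l t)
  bracket : ∀ i j k s t, i ≠ j → j ≠ k → i ≠ k →
    e i j s * e j k t = e i k (s * t) * (e j k t * e i j s)
  ne : ∀ i j t, i ≠ j → t ≠ 0 → e i j t ≠ 1
  perm : ∀ π : Equiv.Perm (Fin n), ∃ (X : SL n L) (c : Fin n → Fin n → K),
    (∀ i j, c i j ≠ 0) ∧ ∀ i j t, i ≠ j → X * e i j t * X⁻¹ = e (π i) (π j) (c i j * t)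
  weyl : ∀ i j t u, i ≠ j → t ≠ 0 →
    (e i j t * e j i (-t⁻¹) * e i j t) * e i j u = e j i (-(u * t⁻¹ * t⁻¹)) *
      (e i j t * e j i (-t⁻¹) * e i j t)

/-- Conjugation with an element of `GL n L`. -/
def conjGL (g : GL (Fin n) L) : MulAut (SL n L) where
  toFun A := ⟨(g : Matrix (Fin n) (Fin n) L) * A * ((g⁻¹ : GL (Fin n) L) : Matrix (Fin n) (Fin n) L), by
    rw [det_mul, det_mul, A.2, mul_one, ← det_mul, ← Units.val_mul, mul_inv_cancel, Units.val_one,
      det_one]⟩
  invFun A := ⟨((g⁻¹ : GL (Fin n) L) : Matrix (Fin n) (Fin n) L) * A * (g : Matrix (Fin n) (Fin n) L), by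
    rw [det_mul, det_mul, A.2, mul_one, ← det_mul, ← Units.val_mul, inv_mul_cancel, Units.val_one,
      det_one]⟩
  left_inv A := by
    apply Subtype.ext
    change ((g⁻¹ : GL (Fin n) L) : Matrix (Fin n) (Fin n) L) * ((g : Matrix (Fin n) (Fin n) L) * A *
      ((g⁻¹ : GL (Fin n) L) : Matrix (Fin n) (Fin n) L)) * (g : Matrix (Fin n) (Fin n) L) = A
    have h1 : ((g⁻¹ : GL (Fin n) L) : Matrix (Fin n) (Fin n) L) * (g : Matrix (Fin n) (Fin n) L) = 1 := by
      rw [← Units.val_mul, inv_mul_cancel, Units.val_one]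
    rw [Matrix.mul_assoc, Matrix.mul_assoc, Matrix.mul_assoc, h1, Matrix.mul_one, ← Matrix.mul_assoc,
      h1, Matrix.one_mul]
  right_inv A := by
    apply Subtype.ext
    change (g : Matrix (Fin n) (Fin n) L) * (((g⁻¹ : GL (Fin n) L) : Matrix (Fin n) (Fin n) L) * A *
      (g : Matrix (Fin n) (Fin n) L)) * ((g⁻¹ : GL (Fin n) L) : Matrix (Fin n) (Fin n) L) = A
    have h1 : (g : Matrix (Fin n) (Fin n) L) * ((g⁻¹ : GL (Fin n) L) : Matrix (Fin n) (Fin n) L) = 1 := by
      rw [← Units.val_mul, mul_inv_cancel, Units.val_one]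
    rw [Matrix.mul_assoc, Matrix.mul_assoc, Matrix.mul_assoc, h1, Matrix.mul_one, ← Matrix.mul_assoc,
      h1, Matrix.one_mul]
  map_mul' A B := by
    apply Subtype.ext
    change (g : Matrix (Fin n) (Fin n) L) * (A * B : Matrix (Fin n) (Fin n) L) *
      ((g⁻¹ : GL (Fin n) L) : Matrix (Fin n) (Fin n) L) = ((g : Matrix (Fin n) (Fin n) L) * A *
      ((g⁻¹ : GL (Fin n) L) : Matrix (Fin n) (Fin n) L)) * ((g : Matrix (Fin n) (Fin n) L) * B *
      ((g⁻¹ : GL (Fin n) L) : Matrix (Fin n) (Fin n) L))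
    have h1 : ((g⁻¹ : GL (Fin n) L) : Matrix (Fin n) (Fin n) L) * (g : Matrix (Fin n) (Fin n) L) = 1 := by
      rw [← Units.val_mul, inv_mul_cancel, Units.val_one]
    calc (g : Matrix (Fin n) (Fin n) L) * (A * B : Matrix (Fin n) (Fin n) L) *
          ((g⁻¹ : GL (Fin n) L) : Matrix (Fin n) (Fin n) L)
        = (g : Matrix (Fin n) (Fin n) L) * A * 1 * B *
          ((g⁻¹ : GL (Fin n) L) : Matrix (Fin n) (Fin n) L) := by
          simp only [Matrix.mul_one, Matrix.mul_assoc]
      _ = _ := by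
          rw [← h1]
          simp only [Matrix.mul_assoc]

theorem conjGL_coe (g : GL (Fin n) L) (A : SL n L) :
    (conjGL g A : Matrix (Fin n) (Fin n) L) = (g : Matrix (Fin n) (Fin n) L) * A *
      ((g⁻¹ : GL (Fin n) L) : Matrix (Fin n) (Fin n) L) := rfl

theorem tr_mul (A B : SL n L) : (A * B).transpose = B.transpose * A.transpose :=
  Subtype.ext (Matrix.transpose_mul A.1 B.1)

theorem tr_tr (A : SL n L) : A.transpose.transpose = A :=
  Subtype.ext (Matrix.transpose_transpose A.1)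

theorem tr_one : (1 : SL n L).transpose = 1 :=
  Subtype.ext Matrix.transpose_one

theorem tr_inv (A : SL n L) : (A⁻¹).transpose = (A.transpose)⁻¹ := by
  apply eq_inv_of_mul_eq_one_left
  rw [← tr_mul, mul_inv_cancel, tr_one]

/-- The inverse transpose. -/
def invTr : MulAut (SL n L) where
  toFun A := (A⁻¹).transpose
  invFun A := (A⁻¹).transpose
  left_inv A := by
    change (((A⁻¹).transpose)⁻¹).transpose = A
    rw [tr_inv, tr_tr, inv_inv]
  right_inv A := by
    change (((A⁻¹).transpose)⁻¹).transpose = A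
    rw [tr_inv, tr_tr, inv_inv]
  map_mul' A B := by
    rw [_root_.mul_inv_rev, tr_mul]

theorem invTr_apply (A : SL n L) : invTr A = (A⁻¹).transpose := rfl

end Pool.Agent.H62.CA
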