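import Pool.Agent.H62.CA.Defs

/-!
# Project CA, module Form2: the normal form for `n = 2`

`D : RootData 2 K L`. `N_ij(t) := e i j t - 1`, a nilpotent `2 × 2` matrix, so `N² = 0` and it is
determined up to a scalar by its kernel = image line. The `e 0 1 t` commute: so all `N_01(t)`,
`t ≠ 0`, have the same kernel line `⟨v_0⟩` (commuting nonzero nilpotent `2 × 2` matrices are
proportional), `N_01(s) N_01(t) = 0`, `N_01(s+t) = N_01(s) + N_01(t)`; same for `N_10(t)` with `⟨v_1⟩`.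
`v_0 ∦ v_1`: otherwise all `N_01(u)`, `N_10(u)` are proportional to one nilpotent matrix, so all of
`e 0 1 u`, `e 1 0 u` commute and `weyl` gives `e 0 1 u = e 1 0 (-(u t⁻¹ t⁻¹))` for all `t ≠ 0`, so
`e 1 0 (-u) = e 1 0 (-(u t⁻¹ t⁻¹))` (take also `t = 1`), so by `add`, `ne`: `t² = 1` for all `t ≠ 0`,
contradiction to `K` infinite (hypothesis `[Infinite K]`).
So in the basis `v_0, v_1` (matrix `g₀`): `N_01(t) = g₀ (σ(t) E_01) g₀⁻¹`, `N_10(t) = g₀ (ρ(t) E_10) g₀⁻¹`,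
`σ, ρ : K → L` additive, injective (`ne`). Rescale `v_0` so that `σ(1) = 1`. Write `weyl` (`i = 0`,
`j = 1`) as an identity of `2 × 2` matrices: `w := (1 + σ(t) E_01)(1 + ρ(-t⁻¹) E_10)(1 + σ(t) E_01)`
`= [[1 + σ(t) r, 2 σ(t) + σ(t)² r], [r, 1 + r σ(t)]]`, `r := ρ(-t⁻¹)`, and
`w (1 + σ(u) E_01) = (1 + ρ(-(u t⁻¹ t⁻¹)) E_10) w`, i.e. `σ(u) w E_01 = ρ(-(u t⁻¹ t⁻¹)) E_10 w`. `w E_01`
has the second column `(w_00, w_10)ᵀ` and first column zero; `E_10 w` has the second row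
`(w_00, w_01)` and first row zero. With `u = 1`: entry `(0,1)`: `σ(1) w_00 = 0`, so `w_00 = 0`:
`σ(t) ρ(-t⁻¹) = -1`, i.e. `ρ(t⁻¹) = σ(t)⁻¹` for all `t ≠ 0`; then `w_10 = r = -σ(t)⁻¹`,
`w_01 = 2 σ(t) - σ(t) = σ(t)`. Entry `(1,1)`: `σ(u) w_10 = ρ(-(u t⁻¹ t⁻¹)) w_01`, i.e.
`ρ(u t⁻¹ t⁻¹) = σ(u) σ(t)⁻²`. (*) `u = t`: consistent. `t = 1`: `ρ(u) = σ(u)`. So `σ = ρ` and
`σ(t⁻¹) = σ(t)⁻¹`, `σ(u t²) = σ(u) σ(t)²` (replace `t` by `t⁻¹` in (*)). In particular `σ(t²) = σ(t)²`.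
Multiplicativity: if `char L ≠ 2`: `σ((s+t)²) = σ(s+t)²` gives `2 σ(st) = 2 σ(s) σ(t)`. If
`char L = 2`: `σ(st)² = σ(s²t²) = σ(s²) σ(t)² = (σ(s) σ(t))²` and squaring is injective. (In fact
`σ(st)² = σ(s² t²) = σ(s²)σ(t)² = (σ(s)σ(t))²` always, so `σ(st) = ± σ(s)σ(t)`; use the first argument
if `2 ≠ 0` in `L`, the second one if `2 = 0`.)
So `σ` is a ring homomorphism, and `D.e i j t = conjGL g (xr hij (σ t))` for both ordered pairs.
-/

set_option autoImplicit false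

open Matrix

namespace Pool.Agent.H62.CA

variable {K L : Type*} [Field K] [Field L]

/-- Conjugation as a ring homomorphism. -/
def Form2_cj (g : GL (Fin 2) L) : Matrix (Fin 2) (Fin 2) L →+* Matrix (Fin 2) (Fin 2) L where
  toFun M := ((g⁻¹ : GL (Fin 2) L) : Matrix (Fin 2) (Fin 2) L) * M * (g : Matrix (Fin 2) (Fin 2) L)
  map_one' := by
    rw [Matrix.mul_one, ← Units.val_mul, inv_mul_cancel, Units.val_one]
  map_mul' A B := by
    have h1 : (g : Matrix (Fin 2) (Fin 2) L) * ((g⁻¹ : GL (Fin 2) L) : Matrix (Fin 2) (Fin 2) L) = 1 := by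
      rw [← Units.val_mul, mul_inv_cancel, Units.val_one]
    calc ((g⁻¹ : GL (Fin 2) L) : Matrix (Fin 2) (Fin 2) L) * (A * B) * (g : Matrix (Fin 2) (Fin 2) L)
        = ((g⁻¹ : GL (Fin 2) L) : Matrix (Fin 2) (Fin 2) L) * A * 1 * B *
          (g : Matrix (Fin 2) (Fin 2) L) := by
          simp only [Matrix.mul_one, Matrix.mul_assoc]
      _ = _ := by
          rw [← h1]
          simp only [Matrix.mul_assoc]
  map_zero' := by
    rw [Matrix.mul_zero, Matrix.zero_mul]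
  map_add' A B := by
    rw [Matrix.mul_add, Matrix.add_mul]

theorem Form2_cj_apply (g : GL (Fin 2) L) (M : Matrix (Fin 2) (Fin 2) L) :
    Form2_cj g M = ((g⁻¹ : GL (Fin 2) L) : Matrix (Fin 2) (Fin 2) L) * M *
      (g : Matrix (Fin 2) (Fin 2) L) := rfl

theorem Form2_cj_mul (g h : GL (Fin 2) L) (M : Matrix (Fin 2) (Fin 2) L) :
    Form2_cj (h * g) M = Form2_cj g (Form2_cj h M) := by
  rw [Form2_cj_apply, Form2_cj_apply, Form2_cj_apply, _root_.mul_inv_rev, Units.val_mul,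
    Units.val_mul]
  simp only [Matrix.mul_assoc]

theorem Form2_cj_eq {g : GL (Fin 2) L} {M M' : Matrix (Fin 2) (Fin 2) L}
    (h : M * (g : Matrix (Fin 2) (Fin 2) L) = (g : Matrix (Fin 2) (Fin 2) L) * M') :
    Form2_cj g M = M' := by
  rw [Form2_cj_apply, Matrix.mul_assoc, h, ← Matrix.mul_assoc, ← Units.val_mul, inv_mul_cancel,
    Units.val_one, Matrix.one_mul]

theorem Form2_of_cj {g : GL (Fin 2) L} {M M' : Matrix (Fin 2) (Fin 2) L}
    (h : Form2_cj g M = M') :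
    M = (g : Matrix (Fin 2) (Fin 2) L) * M' * ((g⁻¹ : GL (Fin 2) L) : Matrix (Fin 2) (Fin 2) L) := by
  have h1 : (g : Matrix (Fin 2) (Fin 2) L) * ((g⁻¹ : GL (Fin 2) L) : Matrix (Fin 2) (Fin 2) L) = 1 := by
    rw [← Units.val_mul, mul_inv_cancel, Units.val_one]
  rw [← h, Form2_cj_apply, Matrix.mul_assoc, Matrix.mul_assoc, h1, Matrix.mul_one,
    ← Matrix.mul_assoc, h1, Matrix.one_mul]

theorem Form2_cj_inj (g : GL (Fin 2) L) {M M' : Matrix (Fin 2) (Fin 2) L}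
    (h : Form2_cj g M = Form2_cj g M') : M = M' := by
  rw [Form2_of_cj h, ← Form2_of_cj rfl]

theorem Form2_det_cj (g : GL (Fin 2) L) (M : Matrix (Fin 2) (Fin 2) L) :
    (Form2_cj g M).det = M.det := by
  rw [Form2_cj_apply, det_mul, det_mul, mul_right_comm, ← det_mul, ← Units.val_mul, inv_mul_cancel,
    Units.val_one, det_one, one_mul]

/-- `M` is unipotent of determinant one. -/
def Form2_U (M : Matrix (Fin 2) (Fin 2) L) : Prop := IsNilpotent (M - 1) ∧ M.det = 1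

theorem Form2_U.cj {M : Matrix (Fin 2) (Fin 2) L} (h : Form2_U M) (g : GL (Fin 2) L) :
    Form2_U (Form2_cj g M) := by
  refine ⟨?_, (Form2_det_cj g M).trans h.2⟩
  have h1 := h.1.map (Form2_cj g)
  rwa [map_sub, map_one] at h1

theorem Form2_U.form {M : Matrix (Fin 2) (Fin 2) L} (h : Form2_U M) :
    ∃ p q r : L, M = !![1 + p, q; r, 1 - p] ∧ p ^ 2 + q * r = 0 := by
  obtain ⟨⟨k, hk⟩, hdet⟩ := h
  have h1 : (M - 1).det = 0 := by
    have h2 : (M - 1).det ^ k = 0 := by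
      rw [← det_pow, hk]
      exact det_zero
    by_contra hne
    exact pow_ne_zero k hne h2
  rw [det_fin_two] at h1 hdet
  simp only [Matrix.sub_apply, Matrix.one_apply_eq, Matrix.one_apply_ne (show (0 : Fin 2) ≠ 1 by decide),
    Matrix.one_apply_ne (show (1 : Fin 2) ≠ 0 by decide), sub_zero] at h1
  refine ⟨M 0 0 - 1, M 0 1, M 1 0, ?_, ?_⟩
  · have h3 : M 1 1 = 1 - (M 0 0 - 1) := by linear_combination hdet - h1
    conv_lhs => rw [Matrix.eta_fin_two M]
    rw [h3]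
    congr 2
    ring_nf
  · linear_combination (M 0 0 - 1) * (hdet - h1) - h1

theorem Form2_up {X : Matrix (Fin 2) (Fin 2) L} (hX : Form2_U X) {q : L} (hq : q ≠ 0)
    (hc : X * !![1, q; 0, 1] = !![1, q; 0, 1] * X) : ∃ s, X = !![1, s; 0, 1] := by
  obtain ⟨p, q', r, rfl, h⟩ := hX.form
  have h1 := congrFun (congrFun hc 0) 0
  simp [Matrix.mul_apply, Fin.sum_univ_two] at h1
  have hr : r = 0 := by
    rcases h1 with h1 | h1
    · exact absurd h1 hq
    · exact h1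
  subst hr
  have hp : p = 0 := by simpa using h
  subst hp
  exact ⟨q', by simp⟩

theorem Form2_down {X : Matrix (Fin 2) (Fin 2) L} (hX : Form2_U X) {r : L} (hr : r ≠ 0)
    (hc : X * !![1, 0; r, 1] = !![1, 0; r, 1] * X) : ∃ s, X = !![1, 0; s, 1] := by
  obtain ⟨p, q, r', rfl, h⟩ := hX.form
  have h1 := congrFun (congrFun hc 0) 0
  simp [Matrix.mul_apply, Fin.sum_univ_two] at h1
  have hq : q = 0 := by
    rcases h1 with h1 | h1
    · exact h1
    · exact absurd h1 hr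
  subst hq
  have hp : p = 0 := by simpa using h
  subst hp
  exact ⟨r', by simp⟩

/-- A nontrivial unipotent matrix is conjugate to the standard one. -/
theorem Form2_step1 {M : Matrix (Fin 2) (Fin 2) L} (hM : Form2_U M) (h1 : M ≠ 1) :
    ∃ g : GL (Fin 2) L, Form2_cj g M = !![1, 1; 0, 1] := by
  obtain ⟨p, q, r, rfl, h⟩ := hM.form
  by_cases hq : q = 0
  · subst hq
    have hp : p = 0 := by simpa using h
    subst hp
    have hr : r ≠ 0 := by
      rintro rfl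
      apply h1
      ext i j
      fin_cases i <;> fin_cases j <;> simp
    refine ⟨Matrix.GeneralLinearGroup.mkOfDetNeZero !![0, 1; r, 0] (by
      rw [det_fin_two_of]
      simpa using hr), Form2_cj_eq ?_⟩
    show !![1 + 0, 0; r, 1 - 0] * !![0, 1; r, 0] = !![0, 1; r, 0] * !![1, 1; 0, 1]
    ext i j
    fin_cases i <;> fin_cases j <;> simp [Matrix.mul_apply, Fin.sum_univ_two]
  · refine ⟨Matrix.GeneralLinearGroup.mkOfDetNeZero !![q, 0; -p, 1] (by
      rw [det_fin_two_of]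
      simpa using hq), Form2_cj_eq ?_⟩
    show !![1 + p, q; r, 1 - p] * !![q, 0; -p, 1] = !![q, 0; -p, 1] * !![1, 1; 0, 1]
    ext i j
    fin_cases i <;> fin_cases j <;> simp [Matrix.mul_apply, Fin.sum_univ_two]
    · ring
    · linear_combination h
    · ring

theorem RootData.Form2_inj {n : ℕ} (D : RootData n K L) {i j : Fin n} (hij : i ≠ j) {x y : K}
    (h : D.e i j x = D.e i j y) : x = y := by
  by_contra hne
  refine D.ne i j (x - y) hij (sub_ne_zero.2 hne) ?_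
  have h1 := D.add i j (x - y) y hij
  rw [sub_add_cancel, h] at h1
  exact (mul_eq_right.1 h1.symm)

theorem RootData.Form2_basis [Infinite K] (D : RootData 2 K L) :
    ∃ (g : GL (Fin 2) L) (σ ρ : K → L), σ 1 = 1 ∧
      (∀ t, Form2_cj g (D.e 0 1 t).1 = !![1, σ t; 0, 1]) ∧
      ∀ t, Form2_cj g (D.e 1 0 t).1 = !![1, 0; ρ t, 1] := by
  have h01 : (0 : Fin 2) ≠ 1 := by decide
  have hUa : ∀ t, Form2_U (D.e 0 1 t).1 := fun t => ⟨D.unip 0 1 t h01, (D.e 0 1 t).2⟩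
  have hUb : ∀ t, Form2_U (D.e 1 0 t).1 := fun t => ⟨D.unip 1 0 t h01.symm, (D.e 1 0 t).2⟩
  have hca : ∀ s t, (D.e 0 1 s).1 * (D.e 0 1 t).1 = (D.e 0 1 t).1 * (D.e 0 1 s).1 := by
    intro s t
    have h1 := D.add 0 1 s t h01
    rw [add_comm, D.add 0 1 t s h01] at h1
    exact (congrArg Subtype.val h1).symm
  have hcb : ∀ s t, (D.e 1 0 s).1 * (D.e 1 0 t).1 = (D.e 1 0 t).1 * (D.e 1 0 s).1 := by
    intro s t
    have h1 := D.add 1 0 s t h01.symm
    rw [add_comm, D.add 1 0 t s h01.symm] at h1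
    exact (congrArg Subtype.val h1).symm
  obtain ⟨g₁, hg₁⟩ := Form2_step1 (hUa 1) (fun h => D.ne 0 1 1 h01 one_ne_zero (Subtype.ext h))
  have hA : ∀ t, ∃ s, Form2_cj g₁ (D.e 0 1 t).1 = !![1, s; 0, 1] := by
    intro t
    refine Form2_up ((hUa t).cj g₁) one_ne_zero ?_
    rw [← hg₁, ← map_mul, ← map_mul, hca]
  choose σ hσ using hA
  have hσ1 : σ 1 = 1 := by
    have h1 := (hσ 1).symm.trans hg₁
    simpa using congrFun (congrFun h1 0) 1
  obtain ⟨p, q, r, hb, hpqr⟩ := ((hUb 1).cj g₁).form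
  have hr : r ≠ 0 := by
    rintro rfl
    have hp : p = 0 := by simpa using hpqr
    subst hp
    have hb' : Form2_cj g₁ (D.e 1 0 1).1 = !![1, q; 0, 1] := by
      rw [hb]
      simp
    have hq : q ≠ 0 := by
      rintro rfl
      refine D.ne 1 0 1 h01.symm one_ne_zero (Subtype.ext (Form2_cj_inj g₁ ?_))
      rw [hb']
      show _ = Form2_cj g₁ (1 : Matrix (Fin 2) (Fin 2) L)
      rw [map_one]
      ext i j
      fin_cases i <;> fin_cases j <;> simp
    have hB : ∀ t, ∃ s, Form2_cj g₁ (D.e 1 0 t).1 = !![1, s; 0, 1] := by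
      intro t
      refine Form2_up ((hUb t).cj g₁) hq ?_
      rw [← hb', ← map_mul, ← map_mul, hcb]
    choose ρ hρ using hB
    have hTT : ∀ x y : L, (!![1, x; 0, 1] : Matrix (Fin 2) (Fin 2) L) * !![1, y; 0, 1] =
        !![1, x + y; 0, 1] := by
      intro x y
      ext i j
      fin_cases i <;> fin_cases j <;> simp [Matrix.mul_apply, Fin.sum_univ_two]
      ring
    have hweyl : ∀ t : K, t ≠ 0 → ρ (-(1 * t⁻¹ * t⁻¹)) = 1 := by
      intro t ht
      have h1 := congrArg (fun X : SL 2 L => Form2_cj g₁ X.1) (D.weyl 0 1 t 1 h01 ht)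
      have h2 : Form2_cj g₁ ((D.e 0 1 t).1 * (D.e 1 0 (-t⁻¹)).1 * (D.e 0 1 t).1 * (D.e 0 1 1).1) =
          Form2_cj g₁ ((D.e 1 0 (-(1 * t⁻¹ * t⁻¹))).1 * ((D.e 0 1 t).1 * (D.e 1 0 (-t⁻¹)).1 *
            (D.e 0 1 t).1)) := h1
      simp only [map_mul, hσ, hρ, hTT, hσ1] at h2
      have h3 := congrFun (congrFun h2 0) 1
      simp at h3
      rw [one_mul]
      linear_combination -h3
    have hsq : ∀ t : K, t ≠ 0 → t * t = 1 := by
      intro t ht
      have h1 : ρ (-(1 * t⁻¹ * t⁻¹)) = ρ (-(1 * (1 : K)⁻¹ * (1 : K)⁻¹)) :=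
        (hweyl t ht).trans (hweyl 1 one_ne_zero).symm
      have h2 : D.e 1 0 (-(1 * t⁻¹ * t⁻¹)) = D.e 1 0 (-(1 * (1 : K)⁻¹ * (1 : K)⁻¹)) := by
        refine Subtype.ext (Form2_cj_inj g₁ ?_)
        rw [hρ, hρ, h1]
      have h3 := D.Form2_inj h01.symm h2
      have h4 : t⁻¹ * t⁻¹ = 1 := by
        simpa using h3
      field_simp at h4
      rw [← sq]
      exact h4.symm
    classical
    obtain ⟨t, ht⟩ := Infinite.exists_notMem_finset ({0, 1, -1} : Finset K)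
    simp only [Finset.mem_insert, Finset.mem_singleton, not_or] at ht
    have h1 := hsq t ht.1
    rcases mul_self_eq_one_iff.1 h1 with h2 | h2
    · exact ht.2.1 h2
    · exact ht.2.2 h2
  set U : GL (Fin 2) L := Matrix.GeneralLinearGroup.mkOfDetNeZero !![1, p / r; 0, 1] (by
      rw [det_fin_two_of]
      simp) with hU
  have hUv : (U : Matrix (Fin 2) (Fin 2) L) = !![1, p / r; 0, 1] := rfl
  have hσ' : ∀ t, Form2_cj (g₁ * U) (D.e 0 1 t).1 = !![1, σ t; 0, 1] := by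
    intro t
    rw [Form2_cj_mul, hσ]
    refine Form2_cj_eq ?_
    rw [hUv]
    ext i j
    fin_cases i <;> fin_cases j <;> simp [Matrix.mul_apply, Fin.sum_univ_two]
    ring
  have hb1 : Form2_cj (g₁ * U) (D.e 1 0 1).1 = !![1, 0; r, 1] := by
    rw [Form2_cj_mul, hb]
    refine Form2_cj_eq ?_
    rw [hUv]
    ext i j
    fin_cases i <;> fin_cases j <;> simp [Matrix.mul_apply, Fin.sum_univ_two]
    · field_simp
    · field_simp
      linear_combination hpqr
    · field_simp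
      ring
  have hB : ∀ t, ∃ s, Form2_cj (g₁ * U) (D.e 1 0 t).1 = !![1, 0; s, 1] := by
    intro t
    refine Form2_down ((hUb t).cj _) hr ?_
    rw [← hb1, ← map_mul, ← map_mul, hcb]
  choose ρ hρ using hB
  exact ⟨g₁ * U, σ, ρ, hσ1, hσ', hρ⟩

/-- The algebraic identities coming from the relation `weyl`. -/
theorem Form2_eqs {ρ ρ' : L} {s u : L}
    (h : (!![1, s; 0, 1] : Matrix (Fin 2) (Fin 2) L) * !![1, 0; ρ, 1] * !![1, s; 0, 1] *
      !![1, u; 0, 1] = !![1, 0; ρ', 1] * (!![1, s; 0, 1] * !![1, 0; ρ, 1] * !![1, s; 0, 1])) :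
    (1 + s * ρ) * u = 0 ∧ ρ * u = ρ' * ((1 + s * ρ) * s + s) := by
  have h1 := congrFun (congrFun h 0) 1
  have h2 := congrFun (congrFun h 1) 1
  simp [Matrix.mul_apply, Fin.sum_univ_two] at h1 h2
  exact ⟨mul_eq_zero.2 h1, by linear_combination h2⟩

theorem RootData.form2 [Infinite K] (D : RootData 2 K L) :
    ∃ (σ : K →+* L) (g : GL (Fin 2) L), ∀ (i j : Fin 2) (hij : i ≠ j) (t : K),
      D.e i j t = conjGL g (xr hij (σ t)) := by
  have h01 : (0 : Fin 2) ≠ 1 := by decide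
  obtain ⟨g, σ, ρ, hσ1, hσ, hρ⟩ := D.Form2_basis
  have hadd : ∀ s t, σ (s + t) = σ s + σ t := by
    intro s t
    have h1 := congrArg (fun X : SL 2 L => Form2_cj g X.1) (D.add 0 1 s t h01)
    have h2 : Form2_cj g (D.e 0 1 (s + t)).1 = Form2_cj g ((D.e 0 1 s).1 * (D.e 0 1 t).1) := h1
    rw [map_mul, hσ, hσ, hσ] at h2
    have h3 := congrFun (congrFun h2 0) 1
    simp [Matrix.mul_apply, Fin.sum_univ_two] at h3
    linear_combination h3
  have hadd' : ∀ s t, ρ (s + t) = ρ s + ρ t := by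
    intro s t
    have h1 := congrArg (fun X : SL 2 L => Form2_cj g X.1) (D.add 1 0 s t h01.symm)
    have h2 : Form2_cj g (D.e 1 0 (s + t)).1 = Form2_cj g ((D.e 1 0 s).1 * (D.e 1 0 t).1) := h1
    rw [map_mul, hρ, hρ, hρ] at h2
    have h3 := congrFun (congrFun h2 1) 0
    simp [Matrix.mul_apply, Fin.sum_univ_two] at h3
    exact h3
  have hσ0 : σ 0 = 0 := by
    have := hadd 0 0
    rw [add_zero] at this
    linear_combination -this
  have hρ0 : ρ 0 = 0 := by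
    have := hadd' 0 0
    rw [add_zero] at this
    linear_combination -this
  have hρneg : ∀ x, ρ (-x) = - ρ x := by
    intro x
    have := hadd' x (-x)
    rw [add_neg_cancel, hρ0] at this
    linear_combination -this
  have hw : ∀ t u : K, t ≠ 0 → (1 + σ t * ρ (-t⁻¹)) * σ u = 0 ∧
      ρ (-t⁻¹) * σ u = ρ (-(u * t⁻¹ * t⁻¹)) * ((1 + σ t * ρ (-t⁻¹)) * σ t + σ t) := by
    intro t u ht
    have h1 := congrArg (fun X : SL 2 L => Form2_cj g X.1) (D.weyl 0 1 t u h01 ht)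
    have h2 : Form2_cj g ((D.e 0 1 t).1 * (D.e 1 0 (-t⁻¹)).1 * (D.e 0 1 t).1 * (D.e 0 1 u).1) =
        Form2_cj g ((D.e 1 0 (-(u * t⁻¹ * t⁻¹))).1 * ((D.e 0 1 t).1 * (D.e 1 0 (-t⁻¹)).1 *
          (D.e 0 1 t).1)) := h1
    simp only [map_mul, hσ, hρ] at h2
    exact Form2_eqs h2
  have hA : ∀ t : K, t ≠ 0 → σ t * ρ t⁻¹ = 1 := by
    intro t ht
    have h1 := (hw t 1 ht).1
    rw [hσ1, hρneg] at h1
    linear_combination -h1
  have hB : ∀ t u : K, t ≠ 0 → σ u = ρ (u * t⁻¹ * t⁻¹) * σ t ^ 2 := by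
    intro t u ht
    have h1 := (hw t u ht).2
    have h2 := hA t ht
    rw [hρneg, hρneg] at h1
    linear_combination (-σ t) * h1 - (σ u + ρ (u * t⁻¹ * t⁻¹) * σ t ^ 2) * h2
  have hσρ : ∀ u, σ u = ρ u := by
    intro u
    have h1 := hB 1 u one_ne_zero
    rw [hσ1, inv_one, mul_one, mul_one, one_pow, mul_one] at h1
    exact h1
  have hC : ∀ t u : K, σ (u * t ^ 2) = σ u * σ t ^ 2 := by
    intro t u
    by_cases ht : t = 0
    · subst ht
      rw [hσ0, zero_pow two_ne_zero, mul_zero, hσ0]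
      ring
    · have h1 := hB t (u * t ^ 2) ht
      rw [← hσρ] at h1
      rw [h1]
      congr 2
      field_simp
  have hsq : ∀ t : K, σ (t ^ 2) = σ t ^ 2 := by
    intro t
    have := hC t 1
    rwa [one_mul, hσ1, one_mul] at this
  have hmul : ∀ s t : K, σ (s * t) = σ s * σ t := by
    intro s t
    by_cases h2 : (2 : L) = 0
    · have h3 : σ (s * t) ^ 2 = (σ s * σ t) ^ 2 := by
        rw [← hsq, mul_pow, hC, hsq]
        ring
      have h4 : (σ (s * t) - σ s * σ t) ^ 2 = 0 := by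
        linear_combination h3 + (σ s * σ t) * (σ s * σ t - σ (s * t)) * h2
      exact sub_eq_zero.1 (pow_eq_zero_iff two_ne_zero |>.1 h4)
    · have h3 := hsq (s + t)
      have h4 : (s + t) ^ 2 = s ^ 2 + (s * t + s * t) + t ^ 2 := by ring
      rw [h4, hadd, hadd, hadd, hadd, hsq, hsq] at h3
      have h5 : 2 * (σ (s * t) - σ s * σ t) = 0 := by linear_combination h3
      rcases mul_eq_zero.1 h5 with h6 | h6
      · exact absurd h6 h2
      · exact sub_eq_zero.1 h6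
  refine ⟨{ toFun := σ
            map_one' := hσ1
            map_mul' := hmul
            map_zero' := hσ0
            map_add' := hadd }, g, ?_⟩
  intro i j hij t
  apply Subtype.ext
  rw [conjGL_coe]
  show (D.e i j t).1 = (g : Matrix (Fin 2) (Fin 2) L) * (1 + Matrix.single i j (σ t)) *
    ((g⁻¹ : GL (Fin 2) L) : Matrix (Fin 2) (Fin 2) L)
  refine Form2_of_cj ?_
  fin_cases i <;> fin_cases j
  · exact absurd rfl hij
  · refine (hσ t).trans ?_
    ext a b
    fin_cases a <;> fin_cases b <;> simp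
  · refine (hρ t).trans ?_
    rw [← hσρ]
    ext a b
    fin_cases a <;> fin_cases b <;> simp
  · exact absurd rfl hij

end Pool.Agent.H62.CA
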