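import Pool.Agent.H62.CA.RankOne
import Pool.Agent.H62.CA.Basis

/-!
# Project CA, module Form3: the normal form for `n ≥ 3`

`type_dichotomy`. Type I (`N_jk N_ij = 0`): `N_bracket` gives `N_ij(s) N_jk(t) = N_ik(st)`;
`N_ij(s) N_kl(t) = 0` for `j ≠ k` (if `i ≠ l` this is `N_mul_eq_zero`, if `i = l` this is the type I
condition for the triple `(k, i, j)`). `exists_matrixUnits` gives the first alternative
(`xr hij (σ t)` has matrix `1 + single i j (σ t)`).
Type II (`N_ij N_jk = 0`): put `N' i j t := -(N i j t)ᵀ`. Then `N'_ij(s) N'_jk(t) = (N_jk(t) N_ij(s))ᵀ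
= -(N_ik(st))ᵀ = N'_ik(st)` and `N'_ij(s) N'_kl(t) = (N_kl(t) N_ij(s))ᵀ = 0` for `j ≠ k`, and
`exists_matrixUnits` gives `g`, `σ` for `N'`. As `N²= 0`, `(e i j t)⁻¹ = 1 - N i j t`, so
`((e i j t)⁻¹)ᵀ = 1 + N' i j t = conjGL g (xr hij (σ t))`, i.e. `e i j t = invTr (conjGL g (xr ..))
= conjGL g' (invTr (xr ..))` with `g' = (g⁻¹)ᵀ`.
-/

set_option autoImplicit false

open Matrix

namespace Pool.Agent.H62.CA

variable {n : ℕ} {K L : Type*} [Field K] [Field L]

theorem RootData.Form3_coe (D : RootData n K L) (i j : Fin n) (t : K) :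
    (D.e i j t : Matrix (Fin n) (Fin n) L) = 1 + D.N i j t := by
  unfold RootData.N
  rw [add_sub_cancel]

theorem RootData.Form3_N_zero (hn : 2 ≤ n) (D : RootData n K L) {i j : Fin n} (hij : i ≠ j) :
    D.N i j 0 = 0 := by
  have h := D.N_add hn hij 0 0
  rw [add_zero] at h
  exact left_eq_add.mp h

theorem RootData.Form3_N_neg (hn : 2 ≤ n) (D : RootData n K L) {i j : Fin n} (hij : i ≠ j) (t : K) :
    D.N i j (-t) = -D.N i j t := by
  have h := D.N_add hn hij (-t) t
  rw [neg_add_cancel, D.Form3_N_zero hn hij] at h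
  exact eq_neg_of_add_eq_zero_left h.symm

theorem RootData.Form3_ne (D : RootData n K L) {i j : Fin n} (hij : i ≠ j) {t : K} (ht : t ≠ 0) :
    D.N i j t ≠ 0 := by
  intro h
  refine D.ne i j t hij ht (Subtype.ext ?_)
  have h1 := D.Form3_coe i j t
  rw [h, add_zero] at h1
  exact h1

theorem Form3_conj (g : GL (Fin n) L) {i j : Fin n} (hij : i ≠ j) (t : L) :
    (conjGL g (xr hij t) : Matrix (Fin n) (Fin n) L) =
      1 + (g : Matrix (Fin n) (Fin n) L) * Matrix.single i j t *
        ((g⁻¹ : GL (Fin n) L) : Matrix (Fin n) (Fin n) L) := by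
  have h1 : (g : Matrix (Fin n) (Fin n) L) * ((g⁻¹ : GL (Fin n) L) : Matrix (Fin n) (Fin n) L) =
      1 := by
    rw [← Units.val_mul, mul_inv_cancel, Units.val_one]
  rw [conjGL_coe]
  have h2 : ((xr hij t : SL n L) : Matrix (Fin n) (Fin n) L) = 1 + Matrix.single i j t := rfl
  rw [h2, Matrix.mul_add, Matrix.add_mul, Matrix.mul_one, h1]

theorem Form3_invTr_coe (A : SL n L) :
    (invTr A : Matrix (Fin n) (Fin n) L) = ((A⁻¹ : SL n L) : Matrix (Fin n) (Fin n) L)ᵀ := rfl

/-- The transpose inverse of `g`. -/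
def Form3_trInv (g : GL (Fin n) L) : GL (Fin n) L where
  val := ((g⁻¹ : GL (Fin n) L) : Matrix (Fin n) (Fin n) L)ᵀ
  inv := (g : Matrix (Fin n) (Fin n) L)ᵀ
  val_inv := by
    rw [← Matrix.transpose_mul, ← Units.val_mul, mul_inv_cancel, Units.val_one,
      Matrix.transpose_one]
  inv_val := by
    rw [← Matrix.transpose_mul, ← Units.val_mul, inv_mul_cancel, Units.val_one,
      Matrix.transpose_one]

theorem Form3_invTr_conj (g : GL (Fin n) L) (A : SL n L) :
    invTr (conjGL g A) = conjGL (Form3_trInv g) (invTr A) := by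
  apply Subtype.ext
  have h1 : (conjGL g A)⁻¹ = conjGL g A⁻¹ := (map_inv (conjGL g) A).symm
  have h2 : (invTr (conjGL g A) : Matrix (Fin n) (Fin n) L) =
      ((conjGL g A⁻¹ : SL n L) : Matrix (Fin n) (Fin n) L)ᵀ := by
    rw [Form3_invTr_coe, h1]
  have h3 : ((conjGL (Form3_trInv g) (invTr A) : SL n L) : Matrix (Fin n) (Fin n) L) =
      ((g⁻¹ : GL (Fin n) L) : Matrix (Fin n) (Fin n) L)ᵀ *
        ((A⁻¹ : SL n L) : Matrix (Fin n) (Fin n) L)ᵀ * (g : Matrix (Fin n) (Fin n) L)ᵀ := rfl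
  refine h2.trans (Eq.trans ?_ h3.symm)
  rw [conjGL_coe, Matrix.transpose_mul, Matrix.transpose_mul, Matrix.mul_assoc]

theorem Form3_invTr_invTr (A : SL n L) : invTr (invTr A) = A := by
  rw [invTr_apply, invTr_apply, tr_inv, tr_tr, inv_inv]

theorem RootData.form3 (hn : 3 ≤ n) (D : RootData n K L) :
    ∃ (σ : K →+* L) (g : GL (Fin n) L),
      (∀ (i j : Fin n) (hij : i ≠ j) (t : K), D.e i j t = conjGL g (xr hij (σ t))) ∨
      (∀ (i j : Fin n) (hij : i ≠ j) (t : K), D.e i j t = conjGL g (invTr (xr hij (σ t)))) := by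
  have hn2 : 2 ≤ n := by omega
  rcases D.type_dichotomy hn2 with hI | hII
  · obtain ⟨σ, g, hg⟩ := exists_matrixUnits hn D.N
      (fun i j t hij => D.rank_le hn2 hij t)
      (fun i j s t hij => D.N_add hn2 hij s t)
      (fun i j t hij ht => D.Form3_ne hij ht)
      (fun i j k s t hij hjk hik => by
        have h := D.N_bracket hn2 hij hjk hik s t
        rw [hI i j k hij hjk hik s t, sub_zero] at h
        exact h)
      (fun i j k l s t hij hkl hjk => by
        by_cases hil : i = l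
        · subst hil
          exact hI k i j hkl hij (Ne.symm hjk) t s
        · exact D.N_mul_eq_zero hn2 hij hkl hjk hil s t)
    refine ⟨σ, g, Or.inl fun i j hij t => Subtype.ext ?_⟩
    refine (D.Form3_coe i j t).trans (Eq.trans ?_ (Form3_conj g hij (σ t)).symm)
    rw [hg i j t hij]
  · obtain ⟨σ, g, hg⟩ := exists_matrixUnits hn (fun i j (t : K) => -(D.N i j t)ᵀ)
      (fun i j t hij => by
        show Matrix.rank (-(D.N i j t)ᵀ) ≤ 1
        have h1 : -(D.N i j t)ᵀ = (D.N i j (-t))ᵀ := by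
          rw [D.Form3_N_neg hn2 hij, Matrix.transpose_neg]
        rw [h1, Matrix.rank_transpose]
        exact D.rank_le hn2 hij (-t))
      (fun i j s t hij => by
        show -(D.N i j (s + t))ᵀ = -(D.N i j s)ᵀ + -(D.N i j t)ᵀ
        rw [D.N_add hn2 hij, Matrix.transpose_add, neg_add])
      (fun i j t hij ht => by
        show -(D.N i j t)ᵀ ≠ 0
        intro h
        apply D.Form3_ne hij ht
        have h1 : (D.N i j t)ᵀ = 0 := neg_eq_zero.mp h
        exact Matrix.transpose_eq_zero.mp h1)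
      (fun i j k s t hij hjk hik => by
        show -(D.N i j s)ᵀ * -(D.N j k t)ᵀ = -(D.N i k (s * t))ᵀ
        have h := D.N_bracket hn2 hij hjk hik s t
        rw [hII i j k hij hjk hik s t, zero_sub] at h
        rw [neg_mul_neg, ← Matrix.transpose_mul, ← h, Matrix.transpose_neg, neg_neg])
      (fun i j k l s t hij hkl hjk => by
        show -(D.N i j s)ᵀ * -(D.N k l t)ᵀ = 0
        rw [neg_mul_neg, ← Matrix.transpose_mul]
        have h : D.N k l t * D.N i j s = 0 := by
          by_cases hil : i = l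
          · subst hil
            exact hII k i j hkl hij (Ne.symm hjk) t s
          · exact D.N_mul_eq_zero hn2 hkl hij (Ne.symm hil) (Ne.symm hjk) t s
        rw [h, Matrix.transpose_zero])
    refine ⟨σ, Form3_trInv g, Or.inr fun i j hij t => ?_⟩
    have h1 : invTr (D.e i j t) = conjGL g (xr hij (σ t)) := by
      apply Subtype.ext
      refine Eq.trans ?_ (Form3_conj g hij (σ t)).symm
      rw [← hg i j t hij]
      show ((D.e i j t)⁻¹ : SL n L).1ᵀ = 1 + -(D.N i j t)ᵀ
      rw [← D.e_neg hij t]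
      have h2 : (D.e i j (-t)).1 = 1 + D.N i j (-t) := D.Form3_coe i j (-t)
      rw [h2, D.Form3_N_neg hn2 hij, Matrix.transpose_add, Matrix.transpose_one,
        Matrix.transpose_neg]
    rw [← Form3_invTr_conj, ← h1, Form3_invTr_invTr]

end Pool.Agent.H62.CA
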