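import Pool.Agent.H62.CA.MakeData
import Pool.Agent.H62.CA.Form3
import Pool.Agent.H62.CA.Form2

/-!
# Project CA, module Embed: homomorphisms with central kernel are standard

From `exists_rootData` and `form2` (`n = 2`) / `form3` (`n ≥ 3`): `α := conjGL g` or
`α := invTr.trans (conjGL g)` (first `invTr`, then `conjGL g`; in `MulAut`, `α * β = β.trans α`). Both
sides of `ψ A = mk (α (SpecialLinearGroup.map σ A))` are homomorphisms in `A` which agree on the
generators `xr hij t` (`closure_xr`, `MonoidHom.eq_of_eqOn_dense` / `Subgroup.closure_induction`).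
`conjGL g` fixes the center pointwise (scalar matrices), `invTr z = z⁻¹` for `z` central.
-/

set_option autoImplicit false

open Matrix

namespace Pool.Agent.H62.CA

variable {n : ℕ} {K L : Type*} [Field K] [Field L] {Z : Subgroup (SL n L)} [Z.Normal]

theorem Embed_conjGL_center (g : GL (Fin n) L) {z : SL n L}
    (hz : z ∈ Subgroup.center (SL n L)) : conjGL g z = z := by
  obtain ⟨r, -, hr⟩ := Matrix.SpecialLinearGroup.mem_center_iff.mp hz
  apply Subtype.ext
  change (g : Matrix (Fin n) (Fin n) L) * (z : Matrix (Fin n) (Fin n) L) *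
    ((g⁻¹ : GL (Fin n) L) : Matrix (Fin n) (Fin n) L) = z
  have h1 : (g : Matrix (Fin n) (Fin n) L) * ((g⁻¹ : GL (Fin n) L) : Matrix (Fin n) (Fin n) L) = 1 := by
    rw [← Units.val_mul, mul_inv_cancel, Units.val_one]
  have h2 : (g : Matrix (Fin n) (Fin n) L) * (z : Matrix (Fin n) (Fin n) L) =
      (z : Matrix (Fin n) (Fin n) L) * (g : Matrix (Fin n) (Fin n) L) := by
    rw [← hr]
    exact ((Matrix.scalar_commute r (fun _ => Commute.all _ _) (g : Matrix (Fin n) (Fin n) L)).eq).symm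
  rw [h2, Matrix.mul_assoc, h1, Matrix.mul_one]

theorem Embed_invTr_center {z : SL n L} (hz : z ∈ Subgroup.center (SL n L)) :
    invTr z = z⁻¹ := by
  have hz' : z⁻¹ ∈ Subgroup.center (SL n L) := Subgroup.inv_mem _ hz
  obtain ⟨r, -, hr⟩ := Matrix.SpecialLinearGroup.mem_center_iff.mp hz'
  rw [invTr_apply]
  apply Subtype.ext
  change ((z⁻¹ : SL n L) : Matrix (Fin n) (Fin n) L)ᵀ = ((z⁻¹ : SL n L) : Matrix (Fin n) (Fin n) L)
  rw [← hr]
  exact (Matrix.isSymm_diagonal _)

omit [Z.Normal] in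
theorem Embed_conjGL_mem (hZ : Z ≤ Subgroup.center (SL n L)) (g : GL (Fin n) L) (z : SL n L) :
    conjGL g z ∈ Z ↔ z ∈ Z := by
  constructor
  · intro h
    have h1 : conjGL g (conjGL g z) = conjGL g z := Embed_conjGL_center g (hZ h)
    have h2 : conjGL g z = z := (conjGL g).injective h1
    rwa [h2] at h
  · intro h
    rwa [Embed_conjGL_center g (hZ h)]

omit [Z.Normal] in
theorem Embed_invTr_mem (hZ : Z ≤ Subgroup.center (SL n L)) (z : SL n L) :
    invTr z ∈ Z ↔ z ∈ Z := by
  have key : ∀ w : SL n L, w ∈ Z → invTr w ∈ Z := by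
    intro w hw
    rw [Embed_invTr_center (hZ hw)]
    exact Z.inv_mem hw
  constructor
  · intro h
    have h1 := key _ h
    have h2 : invTr (invTr z) = z := invTr.left_inv z
    rwa [h2] at h1
  · exact key z

theorem Embed_map_xr (σ : K →+* L) {i j : Fin n} (hij : i ≠ j) (t : K) :
    SpecialLinearGroup.map σ (xr hij t) = xr hij (σ t) := by
  apply Subtype.ext
  ext a b
  simp [SpecialLinearGroup.transvection_coe, Matrix.single_apply, Matrix.one_apply]
  split_ifs <;> simp

theorem Embed_ext (hn : 2 ≤ n) {G : Type*} [Group G] (f f' : SL n K →* G)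
    (h : ∀ (i j : Fin n) (hij : i ≠ j) (t : K), f (xr hij t) = f' (xr hij t)) : f = f' := by
  apply MonoidHom.eq_of_eqOn_dense (closure_xr (K := K) hn)
  rintro _ ⟨i, j, hij, t, rfl⟩
  exact h i j hij t

theorem exists_standard [Infinite K] (hn : 2 ≤ n) (hZ : Z ≤ Subgroup.center (SL n L))
    (ψ : SL n K →* SL n L ⧸ Z) (hψ : ψ.ker ≤ Subgroup.center (SL n K)) :
    ∃ (σ : K →+* L) (α : MulAut (SL n L)), (∀ z : SL n L, α z ∈ Z ↔ z ∈ Z) ∧
      ∀ A : SL n K, ψ A = QuotientGroup.mk (α (SpecialLinearGroup.map σ A)) := by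
  obtain ⟨D, hD⟩ := exists_rootData hn hZ ψ hψ
  have fin : ∀ (σ : K →+* L) (α : MulAut (SL n L)),
      (∀ (i j : Fin n) (hij : i ≠ j) (t : K), D.e i j t = α (xr hij (σ t))) →
      ∀ A : SL n K, ψ A = QuotientGroup.mk (α (SpecialLinearGroup.map σ A)) := by
    intro σ α h A
    have h1 : ψ = (QuotientGroup.mk' Z).comp
        ((α : SL n L ≃* SL n L).toMonoidHom.comp (SpecialLinearGroup.map σ)) := by
      apply Embed_ext hn
      intro i j hij t
      rw [← hD i j hij t, h i j hij t]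
      change _ = (QuotientGroup.mk (α (SpecialLinearGroup.map σ (xr hij t))) : SL n L ⧸ Z)
      rw [Embed_map_xr]
    exact DFunLike.congr_fun h1 A
  rcases Nat.lt_or_ge 2 n with hn3 | hn2
  · obtain ⟨σ, g, h | h⟩ := D.form3 hn3
    · exact ⟨σ, conjGL g, Embed_conjGL_mem hZ g, fin σ _ h⟩
    · refine ⟨σ, invTr.trans (conjGL g), ?_, fin σ _ ?_⟩
      · intro z
        change conjGL g (invTr z) ∈ Z ↔ z ∈ Z
        rw [Embed_conjGL_mem hZ, Embed_invTr_mem hZ]
      · intro i j hij t
        exact h i j hij t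
  · obtain rfl : n = 2 := le_antisymm hn2 hn
    obtain ⟨σ, g, h⟩ := D.form2
    exact ⟨σ, conjGL g, Embed_conjGL_mem hZ g, fin σ _ h⟩

end Pool.Agent.H62.CA
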