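import Mathlib

/-!
# Project CA, module FixedVec: a Kolchin type theorem

`V` finite dimensional over `L`, `a : ι → V →ₗ V` a family of invertible operators (`b` its inverses)
with `a x - 1` nilpotent, `ht : ι → ℕ` a bounded height, such that `a x` and `a y` commute up to an
operator `a z` of larger height: `a x * a y = a z * (a y * a x)` with `ht x < ht z`, `ht y < ht z`
(or they commute). Then on every nonzero subspace `W` with `a x W ⊆ W` there is a nonzero vector
fixed by all `a x`.

Proof. Downward induction on `h`: `W_h := {w ∈ W | a x w = w for all x with h ≤ ht x}` is nonzero.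
For `h > N` (the bound) `W_h = W`. Each `W_h` is invariant under all `a y`, by downward induction on
`h`: for `x` with `ht x = h`, `w ∈ W_h ⊆ W_{h+1}`: `a y w ∈ W_{h+1}` by induction, so
`a z (a y w) = a y w` (`ht z ≥ h + 1`) and `a x (a y w) = a z (a y (a x w)) = a z (a y w) = a y w`.
For the step: the operators `a x`, `ht x = h`, restricted to `W_{h+1}` commute with each other (`z`
acts trivially on `W_{h+1}`) and are unipotent; so they have a common nonzero fixed vector in
`W_{h+1}` (`exists_common_fixed`: induction on `finrank W`: if some `a x` acts nontrivially on `W`,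
replace `W` by `ker (a x - 1) ⊓ W`, which is nonzero by nilpotency, smaller, and invariant).
-/

set_option autoImplicit false

namespace Pool.Agent.H62.CA

variable {L V ι : Type*} [Field L] [AddCommGroup V] [Module L V] [FiniteDimensional L V]

/-- Commuting family of unipotent operators. -/
theorem exists_common_fixed (a : ι → V →ₗ[L] V) (hu : ∀ x, IsNilpotent (a x - 1))
    (W : Submodule L V) (hW : W ≠ ⊥) (hinv : ∀ x, ∀ w ∈ W, a x w ∈ W)
    (hcomm : ∀ x y, ∀ w ∈ W, a x (a y w) = a y (a x w)) : ∃ w ∈ W, w ≠ 0 ∧ ∀ x, a x w = w := by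
  induction' hd : Module.finrank L W using Nat.strong_induction_on with d ih generalizing W
  by_cases h : ∀ x, ∀ w ∈ W, a x w = w
  · obtain ⟨w, hw, hw0⟩ := W.exists_mem_ne_zero_of_ne_bot hW
    exact ⟨w, hw, hw0, fun x => h x w hw⟩
  push Not at h
  obtain ⟨x₀, w₀, hw₀, hne⟩ := h
  have hmem : ∀ j : ℕ, ((a x₀ - 1 : V →ₗ[L] V) ^ j) w₀ ∈ W := by
    intro j
    induction j with
    | zero => exact hw₀
    | succ j ihj =>
      rw [pow_succ', Module.End.mul_apply, LinearMap.sub_apply, Module.End.one_apply]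
      exact W.sub_mem (hinv x₀ _ ihj) ihj
  obtain ⟨k, hk⟩ := hu x₀
  have hex : ∃ j : ℕ, ((a x₀ - 1 : V →ₗ[L] V) ^ j) w₀ = 0 := ⟨k, by rw [hk]; rfl⟩
  classical
  have hj := Nat.find_spec hex
  set j := Nat.find hex with hjdef
  have hj0 : j ≠ 0 := by
    intro h0
    rw [h0, pow_zero, Module.End.one_apply] at hj
    rw [hj, map_zero] at hne
    exact hne rfl
  obtain ⟨i, hi⟩ := Nat.exists_eq_succ_of_ne_zero hj0
  have hmin : ((a x₀ - 1 : V →ₗ[L] V) ^ i) w₀ ≠ 0 := Nat.find_min hex (by omega)
  set W' : Submodule L V := W ⊓ LinearMap.ker (a x₀ - 1) with hW'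
  have hmem' : ∀ w, w ∈ W' ↔ w ∈ W ∧ a x₀ w = w := by
    intro w
    rw [hW', Submodule.mem_inf, LinearMap.mem_ker, LinearMap.sub_apply, Module.End.one_apply,
      sub_eq_zero]
  have hW'ne : W' ≠ ⊥ := by
    intro hbot
    apply hmin
    rw [← Submodule.mem_bot (R := L), ← hbot, hmem']
    refine ⟨hmem i, ?_⟩
    have h1 : (a x₀ - 1 : V →ₗ[L] V) (((a x₀ - 1 : V →ₗ[L] V) ^ i) w₀) = 0 := by
      rw [← Module.End.mul_apply, ← pow_succ', ← Nat.succ_eq_add_one, ← hi]
      exact hj
    rwa [LinearMap.sub_apply, Module.End.one_apply, sub_eq_zero] at h1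
  have hlt : W' < W := by
    refine lt_of_le_of_ne inf_le_left fun h => hne ?_
    have := (hmem' w₀).mp (h ▸ hw₀)
    exact this.2
  obtain ⟨w, hw, hw0, hfix⟩ := ih (Module.finrank L W')
    (hd ▸ Submodule.finrank_lt_finrank_of_lt hlt) W' hW'ne
    (fun x w hw => by
      rw [hmem'] at hw ⊢
      exact ⟨hinv x w hw.1, by rw [hcomm x₀ x w hw.1, hw.2]⟩)
    (fun x y w hw => hcomm x y w ((hmem' w).mp hw).1) rfl
  exact ⟨w, ((hmem' w).mp hw).1, hw0, hfix⟩

theorem exists_fixed (a : ι → V →ₗ[L] V) (hu : ∀ x, IsNilpotent (a x - 1)) (ht : ι → ℕ) (N : ℕ)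
    (hN : ∀ x, ht x ≤ N)
    (hbr : ∀ x y, a x * a y = a y * a x ∨
      ∃ z, ht x < ht z ∧ ht y < ht z ∧ a x * a y = a z * (a y * a x))
    (W : Submodule L V) (hW : W ≠ ⊥) (hinv : ∀ x, ∀ w ∈ W, a x w ∈ W) :
    ∃ w ∈ W, w ≠ 0 ∧ ∀ x, a x w = w := by
  -- the spaces `W_h`
  let F : ℕ → Submodule L V := fun h =>
    { carrier := {w | w ∈ W ∧ ∀ x, h ≤ ht x → a x w = w}
      add_mem' := fun {v w} hv hw => ⟨W.add_mem hv.1 hw.1, fun x hx => by
        rw [map_add, hv.2 x hx, hw.2 x hx]⟩
      zero_mem' := ⟨W.zero_mem, fun x _ => map_zero _⟩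
      smul_mem' := fun c w hw => ⟨W.smul_mem c hw.1, fun x hx => by rw [map_smul, hw.2 x hx]⟩ }
  have hF : ∀ h w, w ∈ F h ↔ w ∈ W ∧ ∀ x, h ≤ ht x → a x w = w := fun h w => Iff.rfl
  -- the step
  have step : ∀ h, ((∀ y, ∀ w ∈ F (h + 1), a y w ∈ F (h + 1)) ∧ F (h + 1) ≠ ⊥) →
      ((∀ y, ∀ w ∈ F h, a y w ∈ F h) ∧ F h ≠ ⊥) := by
    rintro h ⟨hi, hn⟩
    have hle : ∀ w, w ∈ F h → w ∈ F (h + 1) := fun w hw => ⟨hw.1, fun x hx => hw.2 x (by omega)⟩
    have hc : ∀ x y, h ≤ ht x → ∀ w ∈ F (h + 1), a x (a y w) = a y (a x w) := by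
      intro x y hx w hw
      rcases hbr x y with h1 | ⟨z, hz1, -, h1⟩
      · exact LinearMap.congr_fun h1 w
      · have h2 : a x (a y w) = a z (a y (a x w)) := LinearMap.congr_fun h1 w
        rw [h2]
        exact (hi y _ (hi x _ hw)).2 z (by omega)
    constructor
    · intro y w hw
      refine ⟨(hi y w (hle w hw)).1, fun x hx => ?_⟩
      rw [hc x y hx w (hle w hw), hw.2 x hx]
    · obtain ⟨w, hw, hw0, hfix⟩ := exists_common_fixed (fun x : {x // ht x = h} => a x.1)
        (fun x => hu x.1) (F (h + 1)) hn (fun x w hw => hi x.1 w hw)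
        (fun x y w hw => hc x.1 y.1 x.2.ge w hw)
      refine (Submodule.ne_bot_iff _).mpr ⟨w, ⟨hw.1, fun x hx => ?_⟩, hw0⟩
      rcases hx.eq_or_lt with h1 | h1
      · exact hfix ⟨x, h1.symm⟩
      · exact hw.2 x (by omega)
  have hall : ∀ k, ((∀ y, ∀ w ∈ F (N + 1 - k), a y w ∈ F (N + 1 - k)) ∧ F (N + 1 - k) ≠ ⊥) := by
    intro k
    induction k with
    | zero =>
      have hFN : ∀ w, w ∈ F (N + 1 - 0) ↔ w ∈ W := by
        intro w
        refine ⟨fun hw => hw.1, fun hw => ⟨hw, fun x hx => ?_⟩⟩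
        have := hN x
        omega
      refine ⟨fun y w hw => (hFN _).mpr (hinv y w ((hFN w).mp hw)), fun hbot => hW ?_⟩
      rw [eq_bot_iff]
      intro w hw
      rw [← hbot]
      exact (hFN w).mpr hw
    | succ k ih =>
      by_cases hk : k < N + 1
      · have h1 : N + 1 - k = (N + 1 - (k + 1)) + 1 := by omega
        rw [h1] at ih
        exact step _ ih
      · have h1 : N + 1 - (k + 1) = N + 1 - k := by omega
        rw [h1]
        exact ih
  obtain ⟨w, hw, hw0⟩ := (F (N + 1 - (N + 1))).exists_mem_ne_zero_of_ne_bot (hall (N + 1)).2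
  exact ⟨w, hw.1, hw0, fun x => hw.2 x (by omega)⟩

/-- The dual statement: on every nonzero invariant subspace `W` the vectors `a x w - w`, `w ∈ W`, do
not span `W`. -/
theorem span_sub_ne (a b : ι → V →ₗ[L] V) (hab : ∀ x, a x * b x = 1)
    (hu : ∀ x, IsNilpotent (a x - 1)) (ht : ι → ℕ) (N : ℕ) (hN : ∀ x, ht x ≤ N)
    (hbr : ∀ x y, a x * a y = a y * a x ∨
      ∃ z, ht x < ht z ∧ ht y < ht z ∧ a x * a y = a z * (a y * a x))
    (W : Submodule L V) (hW : W ≠ ⊥) (hinv : ∀ x, ∀ w ∈ W, a x w ∈ W) :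
    Submodule.span L {v : V | ∃ x, ∃ w ∈ W, v = a x w - w} ≠ W := by
  intro hspan
  have hba : ∀ x, b x * a x = 1 := fun x => mul_eq_one_comm.mp (hab x)
  -- `b x` preserves `W`
  have hbinv : ∀ x, ∀ w ∈ W, b x w ∈ W := by
    intro x w hw
    have hinj : Function.Injective ((a x).restrict (hinv x)) := by
      intro v w hvw
      apply Subtype.ext
      have h1 : a x v.1 = a x w.1 := congrArg Subtype.val hvw
      have h2 := congrArg (b x) h1
      rw [← Module.End.mul_apply, ← Module.End.mul_apply, hba x] at h2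
      exact h2
    obtain ⟨v, hv⟩ := (LinearMap.injective_iff_surjective.mp hinj) ⟨w, hw⟩
    have h1 : a x v.1 = w := congrArg Subtype.val hv
    rw [← h1, ← Module.End.mul_apply, hba x]
    exact v.2
  let B : ι → (W →ₗ[L] W) := fun x => (b x).restrict (hbinv x)
  have hB : ∀ x (w : W), ((B x w : W) : V) = b x w := fun x w => rfl
  let c : ι → (Module.Dual L W →ₗ[L] Module.Dual L W) := fun x => (B x).dualMap
  have hc : ∀ x f w, c x f w = f (B x w) := fun x f w => rfl
  have hcu : ∀ x, IsNilpotent (c x - 1) := by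
    intro x
    obtain ⟨k, hk⟩ := hu x
    have hcm : Commute (a x - 1) (b x) := by
      change (a x - 1) * b x = b x * (a x - 1)
      rw [sub_mul, mul_sub, hab, hba, one_mul, mul_one]
    have hb1 : b x - 1 = -((a x - 1) * b x) := by
      rw [sub_mul, hab, one_mul, neg_sub]
    have hbk : (b x - 1) ^ k = 0 := by
      rw [hb1, neg_pow, hcm.mul_pow, hk, zero_mul, mul_zero]
    refine ⟨k, ?_⟩
    have hpow : ∀ (j : ℕ) (f : Module.Dual L W) (w : W),
        ((c x - 1 : Module.Dual L W →ₗ[L] Module.Dual L W) ^ j) f w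
          = f (((B x - 1 : W →ₗ[L] W) ^ j) w) := by
      intro j
      induction j with
      | zero => intro f w; rfl
      | succ j ih =>
        intro f w
        rw [pow_succ, Module.End.mul_apply, ih, pow_succ', Module.End.mul_apply]
        change (c x f - f) (((B x - 1 : W →ₗ[L] W) ^ j) w)
          = f (B x (((B x - 1 : W →ₗ[L] W) ^ j) w) - ((B x - 1 : W →ₗ[L] W) ^ j) w)
        rw [LinearMap.sub_apply, hc, map_sub]
    have hpow' : ∀ (j : ℕ) (w : W), ((((B x - 1 : W →ₗ[L] W) ^ j) w : W) : V)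
        = ((b x - 1 : V →ₗ[L] V) ^ j) w := by
      intro j
      induction j with
      | zero => intro w; rfl
      | succ j ih =>
        intro w
        rw [pow_succ', Module.End.mul_apply, pow_succ', Module.End.mul_apply, ← ih]
        rfl
    ext f w
    rw [hpow]
    have h0 : ((B x - 1 : W →ₗ[L] W) ^ k) w = 0 := by
      apply Subtype.ext
      rw [hpow', hbk]
      rfl
    rw [h0, map_zero]
    rfl
  have hcbr : ∀ x y, c x * c y = c y * c x ∨
      ∃ z, ht x < ht z ∧ ht y < ht z ∧ c x * c y = c z * (c y * c x) := by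
    intro x y
    rcases hbr x y with h1 | ⟨z, hz1, hz2, h1⟩
    · left
      have h2 : b y * b x = b x * b y := by
        calc b y * b x = b y * b x * ((a x * a y) * (b y * b x)) := by
              rw [mul_assoc (a x), ← mul_assoc (a y), hab, one_mul, hab, mul_one]
          _ = b y * b x * ((a y * a x) * (b y * b x)) := by rw [h1]
          _ = (b y * (b x * a y * a x * b y)) * b x := by simp only [mul_assoc]
          _ = b x * b y := by
              have h3 : b y * b x * (a y * a x) = 1 := by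
                rw [← h1, mul_assoc, ← mul_assoc (b x), hba, one_mul, hba]
              have h4 : (b y * (b x * a y * a x * b y)) * b x =
                  (b y * b x * (a y * a x)) * (b y * b x) := by simp only [mul_assoc]
              have h5 : (a y * a x) * (b x * b y) = 1 := by
                rw [mul_assoc, ← mul_assoc (a x), hab, one_mul, hab]
              have h6 : b y * b x = b x * b y := by
                calc b y * b x = b y * b x * ((a y * a x) * (b x * b y)) := by rw [h5, mul_one]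
                  _ = (b y * b x * (a y * a x)) * (b x * b y) := by simp only [mul_assoc]
                  _ = b x * b y := by rw [h3, one_mul]
              rw [h4, h3, one_mul, h6]
      ext f w
      change f (B y (B x w)) = f (B x (B y w))
      congr 1
      apply Subtype.ext
      exact LinearMap.congr_fun h2 w.1
    · right
      refine ⟨z, hz1, hz2, ?_⟩
      have h2 : b y * b x = b x * b y * b z := by
        have h3 : (b y * b x) * (a x * a y) = 1 := by
          rw [mul_assoc, ← mul_assoc (b x), hba, one_mul, hba]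
        have h5 : (a z * (a y * a x)) * (b x * b y * b z) = 1 := by
          have : (a z * (a y * a x)) * (b x * b y * b z) =
              a z * (a y * (a x * b x) * b y) * b z := by simp only [mul_assoc]
          rw [this, hab, mul_one, hab, mul_one, hab]
        calc b y * b x = b y * b x * ((a z * (a y * a x)) * (b x * b y * b z)) := by
              rw [h5, mul_one]
          _ = (b y * b x) * (a x * a y) * (b x * b y * b z) := by rw [h1]; simp only [mul_assoc]
          _ = b x * b y * b z := by rw [h3, one_mul]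
      ext f w
      change f (B y (B x w)) = f (B x (B y (B z w)))
      congr 1
      apply Subtype.ext
      exact LinearMap.congr_fun h2 w.1
  have : Nontrivial W := Submodule.nontrivial_iff_ne_bot.mpr hW
  have : Nontrivial (Module.Dual L W) := inferInstance
  obtain ⟨f, -, hf0, hf⟩ := exists_fixed c hcu ht N hN hcbr ⊤ top_ne_bot (fun _ _ _ => trivial)
  apply hf0
  have hgen : ∀ v ∈ Submodule.span L {v : V | ∃ x, ∃ w ∈ W, v = a x w - w},
      ∃ hv : v ∈ W, f ⟨v, hv⟩ = 0 := by
    intro v hv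
    induction hv using Submodule.span_induction with
    | mem v hv =>
      obtain ⟨x, w, hw, rfl⟩ := hv
      refine ⟨W.sub_mem (hinv x w hw) hw, ?_⟩
      have h1 : (⟨a x w - w, W.sub_mem (hinv x w hw) hw⟩ : W) = ⟨a x w, hinv x w hw⟩ - ⟨w, hw⟩ := rfl
      rw [h1, map_sub, sub_eq_zero]
      have h2 : f ⟨a x w, hinv x w hw⟩ = c x f ⟨a x w, hinv x w hw⟩ := by rw [hf x]
      rw [h2, hc]
      congr 1
      apply Subtype.ext
      rw [hB]
      change (b x * a x) w = w
      rw [hba]
      rfl
    | zero => exact ⟨W.zero_mem, map_zero f⟩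
    | add v w _ _ hv hw =>
      obtain ⟨hv1, hv2⟩ := hv
      obtain ⟨hw1, hw2⟩ := hw
      refine ⟨W.add_mem hv1 hw1, ?_⟩
      have h1 : (⟨v + w, W.add_mem hv1 hw1⟩ : W) = ⟨v, hv1⟩ + ⟨w, hw1⟩ := rfl
      rw [h1, map_add, hv2, hw2, add_zero]
    | smul r v _ hv =>
      obtain ⟨hv1, hv2⟩ := hv
      refine ⟨W.smul_mem r hv1, ?_⟩
      have h1 : (⟨r • v, W.smul_mem r hv1⟩ : W) = r • ⟨v, hv1⟩ := rfl
      rw [h1, map_smul, hv2, smul_zero]
  ext w
  obtain ⟨hv, h⟩ := hgen w.1 (by rw [hspan]; exact w.2)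
  exact h

end Pool.Agent.H62.CA
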