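import Pool.Agent.H62.CA.Defs
import Pool.Agent.H62.CA.FixedVec

/-!
# Project CA, module Flag: the representatives of the root elements are transvections

Proof. `V := Fin n → L`, `n = m + 2`; index set `ι := {(i, j, t) | i < j}`, `a (i,j,t) :=
toLin' (e i j t)`, `b (i,j,t) := toLin' (e i j (-t))` (`add` and `e i j 0 = 1`, which follows from
`add`), `ht (i, j, t) := j - i ≤ n`. `hbr` for `x = (i,j,s)`, `y = (k,l,t)`: if `j = k`: `bracket`
with `z = (i, l, s t)`; if `i = l`: from `bracket` for `(k, i)`, `(i, j)`: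
`e k i t * e i j s = e k j (t s) * (e i j s * e k i t)` so `e i j s * e k i t =
e k j (t s)⁻¹ * (e k i t * e i j s)` and `e k j (t s)⁻¹ = e k j (-(t s))`; otherwise `comm`.
Define `W 0 := ⊤`, `W (k+1) := span {a x w - w | w ∈ W k}`. By induction `W (k+1) ≤ W k`, `W k` is
invariant under all `a x` (`a x (a y w - w) = (a x - 1)(a y w - w) + (a y w - w)`), and
`finrank (W k) ≤ n - k` (`span_sub_ne`, `Submodule.finrank_lt_finrank_of_lt`). So
`finrank (W (n-1)) ≤ 1`.
Claim: for `i < j`, `(a (i,j,t) - 1) (W k) ⊆ W (k + (j - i))` for all `k`, `t`. Induction on `j - i`: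
`e i (j+1) t = c` with `e i j t * e j (j+1) 1 = c * (e j (j+1) 1 * e i j t)`; with `A`, `B` the
operators, `c - 1 = (A B - B A) (B A)⁻¹ = ((A-1)(B-1) - (B-1)(A-1)) (B A)⁻¹` and `(B A)⁻¹` maps `W k`
to `W k`. So `(e 0 (last) t - 1) V ⊆ W (n - 1)`, so the rank is at most one
(`Matrix.rank_eq_finrank_range_toLin`, or `Matrix.rank` unfolded: `finrank (range mulVecLin)`).
-/

set_option autoImplicit false

open Matrix

namespace Pool.Agent.H62.CA

variable {n : ℕ} {K L : Type*} [Field K] [Field L]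

theorem RootData.e_zero (D : RootData n K L) {i j : Fin n} (hij : i ≠ j) : D.e i j 0 = 1 := by
  have h := D.add i j 0 0 hij
  rw [add_zero] at h
  exact (mul_eq_left.mp h.symm)

theorem RootData.e_neg (D : RootData n K L) {i j : Fin n} (hij : i ≠ j) (t : K) :
    D.e i j (-t) = (D.e i j t)⁻¹ := by
  apply eq_inv_of_mul_eq_one_left
  rw [← D.add i j _ _ hij, neg_add_cancel, D.e_zero hij]

namespace Flag

variable {m : ℕ} (D : RootData (m + 2) K L)

/-- the operator of an element -/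
noncomputable def op (g : SL n L) : (Fin n → L) →ₗ[L] (Fin n → L) :=
  Matrix.toLinAlgEquiv' (g : Matrix (Fin n) (Fin n) L)

theorem op_mul (g h : SL n L) : op (g * h) = op g * op h :=
  map_mul (Matrix.toLinAlgEquiv' (R := L) (n := Fin n)) g.1 h.1

theorem op_one : op (1 : SL n L) = 1 :=
  map_one (Matrix.toLinAlgEquiv' (R := L) (n := Fin n))

/-- the index set -/
abbrev Ix (n : ℕ) (K : Type*) : Type _ := {p : Fin n × Fin n × K // p.1 < p.2.1}

/-- the family of elements -/
def el (D : RootData n K L) (x : Ix n K) : SL n L := D.e x.1.1 x.1.2.1 x.1.2.2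

/-- the family of operators -/
noncomputable def fa (D : RootData n K L) (x : Ix n K) : (Fin n → L) →ₗ[L] (Fin n → L) :=
  op (el D x)

/-- the height -/
def ht (x : Ix n K) : ℕ := x.1.2.1.val - x.1.1.val

theorem mk_eq (D : RootData n K L) {i j : Fin n} (h : i < j) (t : K) :
    fa D ⟨(i, j, t), h⟩ = op (D.e i j t) := rfl

theorem hbr (D : RootData n K L) (x y : Ix n K) : fa D x * fa D y = fa D y * fa D x ∨
      ∃ z, ht x < ht z ∧ ht y < ht z ∧ fa D x * fa D y = fa D z * (fa D y * fa D x) := by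
  obtain ⟨⟨i, j, s⟩, hij⟩ := x
  obtain ⟨⟨k, l, t⟩, hkl⟩ := y
  simp only at hij hkl
  by_cases h1 : j = k
  · subst h1
    right
    refine ⟨⟨(i, l, s * t), hij.trans hkl⟩, ?_, ?_, ?_⟩
    · show j.val - i.val < l.val - i.val
      have h1 : i.val < j.val := hij
      have h2 : j.val < l.val := hkl
      omega
    · show l.val - j.val < l.val - i.val
      have h1 : i.val < j.val := hij
      have h2 : j.val < l.val := hkl
      omega
    · rw [mk_eq, mk_eq, mk_eq, ← op_mul, ← op_mul, ← op_mul]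
      rw [D.bracket i j l s t hij.ne hkl.ne (hij.trans hkl).ne]
  · by_cases h2 : i = l
    · subst h2
      right
      refine ⟨⟨(k, j, -(t * s)), hkl.trans hij⟩, ?_, ?_, ?_⟩
      · show j.val - i.val < j.val - k.val
        have h1 : i.val < j.val := hij
        have h2 : k.val < i.val := hkl
        omega
      · show i.val - k.val < j.val - k.val
        have h1 : i.val < j.val := hij
        have h2 : k.val < i.val := hkl
        omega
      · rw [mk_eq, mk_eq, mk_eq, ← op_mul, ← op_mul, ← op_mul]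
        rw [D.e_neg (hkl.trans hij).ne, D.bracket k i j t s hkl.ne hij.ne (hkl.trans hij).ne,
          inv_mul_cancel_left]
    · left
      rw [mk_eq, mk_eq, ← op_mul, ← op_mul]
      rw [(D.comm i j k l s t hij.ne hkl.ne h1 h2).eq]

/-- the inverse index -/
def neg (x : Ix n K) : Ix n K := ⟨(x.1.1, x.1.2.1, -x.1.2.2), x.2⟩

theorem fa_neg (D : RootData n K L) (x : Ix n K) : fa D x * fa D (neg x) = 1 := by
  obtain ⟨⟨i, j, s⟩, hij⟩ := x
  show op (D.e i j s) * op (D.e i j (-s)) = 1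
  rw [← op_mul, ← D.add i j _ _ (ne_of_lt hij), add_neg_cancel, D.e_zero (ne_of_lt hij), op_one]

theorem fa_neg' (D : RootData n K L) (x : Ix n K) (w : Fin n → L) :
    fa D x (fa D (neg x) w) = w := by
  have h := congrArg (fun f => f w) (fa_neg D x)
  exact h

theorem fa_unip (D : RootData n K L) (x : Ix n K) : IsNilpotent (fa D x - 1) := by
  have h := D.unip x.1.1 x.1.2.1 x.1.2.2 (ne_of_lt x.2)
  have h1 : fa D x - 1 = Matrix.toLinAlgEquiv'
      ((el D x : Matrix (Fin n) (Fin n) L) - 1) := by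
    rw [map_sub, map_one]
    rfl
  rw [h1]
  exact h.map (Matrix.toLinAlgEquiv' (R := L) (n := Fin n))

/-- the descending sequence of subspaces -/
noncomputable def W (D : RootData n K L) : ℕ → Submodule L (Fin n → L)
  | 0 => ⊤
  | k + 1 => Submodule.span L {v | ∃ x, ∃ w ∈ W D k, v = fa D x w - w}

theorem W_gen (D : RootData n K L) {k : ℕ} (x : Ix n K) {w : Fin n → L} (hw : w ∈ W D k) :
    fa D x w - w ∈ W D (k + 1) := Submodule.subset_span ⟨x, w, hw, rfl⟩

theorem W_aux (D : RootData n K L) (k : ℕ) :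
    (∀ x, ∀ w ∈ W D k, fa D x w ∈ W D k) ∧ W D (k + 1) ≤ W D k := by
  induction k with
  | zero => exact ⟨fun _ _ _ => Submodule.mem_top, le_top⟩
  | succ k ih =>
    have h1 : ∀ x, ∀ w ∈ W D (k + 1), fa D x w ∈ W D (k + 1) := by
      intro x w hw
      have h2 : fa D x w = (fa D x w - w) + w := by abel
      rw [h2]
      exact Submodule.add_mem _ (W_gen D x (ih.2 hw)) hw
    refine ⟨h1, Submodule.span_le.2 ?_⟩
    rintro v ⟨x, w, hw, rfl⟩
    exact Submodule.sub_mem _ (h1 x w hw) hw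

theorem W_finrank (D : RootData n K L) (k : ℕ) : Module.finrank L (W D k) ≤ n - k := by
  induction k with
  | zero =>
    show Module.finrank L (⊤ : Submodule L (Fin n → L)) ≤ n
    rw [finrank_top, Module.finrank_fin_fun]
  | succ k ih =>
    by_cases h : W D k = ⊥
    · have h1 : W D (k + 1) = ⊥ := le_bot_iff.1 (h ▸ (W_aux D k).2)
      rw [h1, finrank_bot]
      exact Nat.zero_le _
    · have h1 := span_sub_ne (fa D) (fun x => fa D (neg x)) (fa_neg D) (fa_unip D) ht n
        (fun x => (Nat.sub_le _ _).trans x.1.2.1.2.le) (hbr D) (W D k) h (W_aux D k).1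
      have h2 : W D (k + 1) < W D k := lt_of_le_of_ne (W_aux D k).2 h1
      have h3 := Submodule.finrank_lt_finrank_of_lt h2
      omega

theorem W_step (D : RootData n K L) (d : ℕ) : ∀ x : Ix n K, ht x = d + 1 →
    ∀ k, ∀ w ∈ W D k, fa D x w - w ∈ W D (k + (d + 1)) := by
  induction d with
  | zero =>
    intro x _ k w hw
    exact W_gen D x hw
  | succ d ih =>
    rintro ⟨⟨i, j, t⟩, hij⟩ hd k w hw
    have hd' : j.val - i.val = d + 1 + 1 := hd
    obtain ⟨p, hp⟩ : ∃ p : Fin n, p.val = j.val - 1 := ⟨⟨j.val - 1, by omega⟩, rfl⟩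
    have hip : i < p := by
      rw [Fin.lt_def]
      omega
    have hpj : p < j := by
      rw [Fin.lt_def]
      omega
    set x1 : Ix n K := ⟨(i, p, t), hip⟩ with hx1
    set x2 : Ix n K := ⟨(p, j, 1), hpj⟩ with hx2
    have hrel : fa D x1 * fa D x2 = fa D ⟨(i, j, t), hij⟩ * (fa D x2 * fa D x1) := by
      rw [hx1, hx2, mk_eq, mk_eq, mk_eq, ← op_mul, ← op_mul, ← op_mul]
      rw [D.bracket i p j t 1 hip.ne hpj.ne (hip.trans hpj).ne, mul_one]
    set u : Fin n → L := fa D (neg x1) (fa D (neg x2) w) with hu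
    have huW : u ∈ W D k := (W_aux D k).1 _ _ ((W_aux D k).1 _ _ hw)
    have hw' : fa D x2 (fa D x1 u) = w := by
      rw [hu, fa_neg', fa_neg']
    have h1 : fa D ⟨(i, j, t), hij⟩ w = fa D x1 (fa D x2 u) := by
      have h2 := congrArg (fun f => f u) hrel
      change fa D x1 (fa D x2 u) = fa D ⟨(i, j, t), hij⟩ (fa D x2 (fa D x1 u)) at h2
      rw [hw'] at h2
      exact h2.symm
    have h2 : fa D ⟨(i, j, t), hij⟩ w - w =
        (fa D x1 (fa D x2 u - u) - (fa D x2 u - u)) -
          (fa D x2 (fa D x1 u - u) - (fa D x1 u - u)) := by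
      rw [h1]
      conv_lhs => rw [← hw']
      rw [map_sub, map_sub]
      abel
    have ht1 : ht x1 = d + 1 := by
      show p.val - i.val = d + 1
      omega
    rw [h2]
    refine Submodule.sub_mem _ ?_ ?_
    · have h3 := ih x1 ht1 (k + 1) _ (W_gen D x2 huW)
      have h4 : k + 1 + (d + 1) = k + (d + 1 + 1) := by ring
      rw [← h4]
      exact h3
    · have h3 := ih x1 ht1 k _ huW
      exact W_gen D x2 h3

end Flag

theorem RootData.rank_last_le {m : ℕ} (D : RootData (m + 2) K L) (t : K) :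
    Matrix.rank (((D.e 0 (Fin.last (m + 1)) t : SL (m + 2) L) : Matrix (Fin (m + 2)) (Fin (m + 2)) L)
      - 1) ≤ 1 := by
  have h0 : (0 : Fin (m + 2)) < Fin.last (m + 1) := by
    rw [Fin.lt_def]
    simp
  have h1 : LinearMap.range (((D.e 0 (Fin.last (m + 1)) t : SL (m + 2) L) :
      Matrix (Fin (m + 2)) (Fin (m + 2)) L) - 1).mulVecLin ≤ Flag.W D (m + 1) := by
    rintro _ ⟨w, rfl⟩
    have h2 := Flag.W_step D m ⟨(0, Fin.last (m + 1), t), h0⟩ (by
      show (Fin.last (m + 1)).val - (0 : Fin (m + 2)).val = m + 1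
      simp) 0 w Submodule.mem_top
    rw [zero_add] at h2
    have h3 : (((D.e 0 (Fin.last (m + 1)) t : SL (m + 2) L) :
        Matrix (Fin (m + 2)) (Fin (m + 2)) L) - 1).mulVecLin w =
        Flag.fa D ⟨(0, Fin.last (m + 1), t), h0⟩ w - w := by
      rw [Matrix.mulVecLin_apply, Matrix.sub_mulVec, Matrix.one_mulVec]
      rfl
    rw [h3]
    exact h2
  have h2 := Submodule.finrank_mono h1
  have h3 := Flag.W_finrank D (m + 1)
  unfold Matrix.rank
  omega

/-- By conjugation (`perm`): for `i ≠ j` there is a permutation with `π 0 = i`, `π last = j`. -/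
theorem RootData.rank_le (hn : 2 ≤ n) (D : RootData n K L) {i j : Fin n} (hij : i ≠ j) (t : K) :
    Matrix.rank ((D.e i j t : Matrix (Fin n) (Fin n) L) - 1) ≤ 1 := by
  obtain ⟨m, rfl⟩ : ∃ m, n = m + 2 := ⟨n - 2, by omega⟩
  have h0 : (0 : Fin (m + 2)) ≠ Fin.last (m + 1) := by
    rw [Ne, Fin.ext_iff]
    simp
  obtain ⟨π, hπ0, hπ1⟩ : ∃ π : Equiv.Perm (Fin (m + 2)), π 0 = i ∧ π (Fin.last (m + 1)) = j := by
    set p := Equiv.swap 0 i (Fin.last (m + 1)) with hp
    have hpi : p ≠ i := by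
      rw [hp]
      intro h
      have h2 : Equiv.swap 0 i 0 = i := Equiv.swap_apply_left _ _
      exact h0 ((Equiv.swap 0 i).injective (h2.trans h.symm))
    refine ⟨Equiv.swap p j * Equiv.swap 0 i, ?_, ?_⟩
    · rw [Equiv.Perm.mul_apply, Equiv.swap_apply_left, Equiv.swap_apply_of_ne_of_ne hpi.symm hij]
    · rw [Equiv.Perm.mul_apply, ← hp, Equiv.swap_apply_left]
  obtain ⟨X, c, hc, hX⟩ := D.perm π
  have h1 := hX 0 (Fin.last (m + 1)) (t / c 0 (Fin.last (m + 1))) h0
  rw [hπ0, hπ1, mul_div_cancel₀ _ (hc _ _)] at h1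
  have h2 : (D.e i j t : Matrix (Fin (m + 2)) (Fin (m + 2)) L) - 1 =
      (X : Matrix (Fin (m + 2)) (Fin (m + 2)) L) *
        (((D.e 0 (Fin.last (m + 1)) (t / c 0 (Fin.last (m + 1))) : SL (m + 2) L) :
          Matrix (Fin (m + 2)) (Fin (m + 2)) L) - 1) *
        ((X⁻¹ : SL (m + 2) L) : Matrix (Fin (m + 2)) (Fin (m + 2)) L) := by
    rw [← h1, Matrix.mul_sub, Matrix.sub_mul, Matrix.mul_one]
    have h3 : (X : Matrix (Fin (m + 2)) (Fin (m + 2)) L) *
        ((X⁻¹ : SL (m + 2) L) : Matrix (Fin (m + 2)) (Fin (m + 2)) L) = 1 :=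
      congrArg Subtype.val (mul_inv_cancel X)
    rw [h3]
    rfl
  rw [h2]
  exact (Matrix.rank_mul_le_left _ _).trans ((Matrix.rank_mul_le_right _ _).trans
    (D.rank_last_le _))

end Pool.Agent.H62.CA
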