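import Mathlib

/-!
# Project CA, module LemmaU

Let `K` be an infinite field, `F` algebraically closed, `f : (K,+) → GL(W)` a representation on a
finite dimensional `F`-space such that for every `s ≠ 0` the representation `t ↦ f (s² t)` is
conjugate to `f`. Then every `f t` is unipotent.

Proof. The `f t` commute. For `χ : K → F` put `W_χ := ⨅ t, (f t).maxGenEigenspace (χ t)`. Over an
algebraically closed field `⨆ χ, W_χ = ⊤` and the `W_χ` are independent
(`Module.End.iSup_iInf_maxGenEigenspace_eq_top_of_forall_mapsTo`,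
`Module.End.independent_iInf_maxGenEigenspace_of_forall_mapsTo`; mapsTo from commutation), so only
finitely many `W_χ` are `≠ ⊥` (`WellFoundedGT.finite_ne_bot_of_iSupIndep`). If `W_χ ≠ ⊥` and `g` is
as in `hs` for `s` (`g f(t) = f(s² t) g`, `g` injective), then `g` maps `W_χ` into `W_{χ'}`, where
`χ' (u) = χ (s⁻² u)`, so `W_{χ'} ≠ ⊥`. As `K \ {0}` is infinite and the set of `χ'` is finite, there
are infinitely many `s` with the same `χ'`, hence `s, s' ≠ 0` with `s² ≠ s'²` and
`χ (s⁻² u) = χ (s'⁻² u)` for all `u`, i.e. with `a = s⁻² - s'⁻² ≠ 0`: for every `u`, on `W_χ`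
`f (s⁻² u)` and `f (s'⁻² u)` have the same generalized eigenvalue `c` (nonzero, `f` is invertible:
`f u * f (-u) = 1`), so `f (a u) = f (s⁻² u) f (- s'⁻² u)` has only the generalized eigenvalue `1` on
`W_χ`: `f (a u) - 1 = (f (s⁻² u) - f (s'⁻² u)) f (- s'⁻² u)` and `f (s⁻² u) - f (s'⁻² u) =
(f (s⁻² u) - c) - (f (s'⁻² u) - c)` is a difference of commuting locally nilpotent operators. So
`W_χ` is also contained in `(f (a u)).maxGenEigenspace 1`; as `W_χ ≠ ⊥`, `χ (a u) = 1` (disjointness
of generalized eigenspaces, `Module.End.disjoint_genEigenspace` or similar). As `a ≠ 0`, `χ = 1`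
everywhere. So `⊤ = ⨆ χ, W_χ ≤ W_1`, so `(f t).maxGenEigenspace 1 = ⊤`, so `f t - 1` is nilpotent.
-/

set_option autoImplicit false

namespace Pool.Agent.H62.CA

theorem infinite_squares {K : Type*} [Field K] [Infinite K] :
    Set.Infinite {x : K | ∃ s : K, s ≠ 0 ∧ x = s * s} := by
  intro hfin
  have h1 : Set.Finite ((fun s : K => s * s) ⁻¹' {x : K | ∃ s : K, s ≠ 0 ∧ x = s * s}) := by
    refine hfin.preimage' fun b _ => ?_
    by_cases hb : ∃ s : K, s * s = b
    · obtain ⟨s, hs⟩ := hb
      refine (Set.toFinite {s, -s}).subset fun r hr => ?_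
      have : r * r = s * s := by rw [hs]; exact hr
      exact mul_self_eq_mul_self_iff.mp this
    · convert Set.finite_empty
      ext r
      simp only [Set.mem_preimage, Set.mem_singleton_iff, Set.mem_empty_iff_false, iff_false]
      exact fun h => hb ⟨r, h⟩
  have h2 : (Set.univ : Set K).Finite := by
    refine (h1.union (Set.finite_singleton 0)).subset fun s _ => ?_
    by_cases hs : s = 0
    · exact Or.inr hs
    · exact Or.inl ⟨s, hs, rfl⟩
  exact Set.infinite_univ h2

theorem isNilpotent_sub_one_of_scaled {K F W : Type*} [Field K] [Infinite K] [Field F]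
    [IsAlgClosed F] [AddCommGroup W] [Module F W] [FiniteDimensional F W]
    (f : K → Module.End F W) (h0 : f 0 = 1) (hadd : ∀ s t, f (s + t) = f s * f t)
    (hs : ∀ s : K, s ≠ 0 → ∃ g : Module.End F W, Function.Injective g ∧
      ∀ t, g * f t = f (s * s * t) * g) (t : K) : IsNilpotent (f t - 1) := by
  classical
  have hcomm : ∀ s t, Commute (f s) (f t) := fun s t => by
    change f s * f t = f t * f s
    rw [← hadd, ← hadd, add_comm]
  set M : (K → F) → Submodule F W := fun χ => ⨅ t, (f t).maxGenEigenspace (χ t) with hM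
  have hmaps : ∀ (i j : K) (φ : F), Set.MapsTo (f i) ((f j).maxGenEigenspace φ)
      ((f j).maxGenEigenspace φ) := fun i j φ =>
    Module.End.mapsTo_maxGenEigenspace_of_comm (hcomm j i) φ
  have htop : ⨆ χ, M χ = ⊤ :=
    Module.End.iSup_iInf_maxGenEigenspace_eq_top_of_forall_mapsTo f hmaps
      fun i => Module.End.iSup_maxGenEigenspace_eq_top (f i)
  have hind : iSupIndep M :=
    Module.End.independent_iInf_maxGenEigenspace_of_forall_mapsTo f hmaps
  have hfin : Set.Finite {χ | M χ ≠ ⊥} := WellFoundedGT.finite_ne_bot_of_iSupIndep hind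
  have hmem : ∀ χ w, w ∈ M χ ↔ ∀ t, ∃ k : ℕ, ((f t - χ t • (1 : Module.End F W)) ^ k) w = 0 := by
    intro χ w
    simp only [hM, Submodule.mem_iInf, Module.End.mem_maxGenEigenspace]
  -- scaling
  have hscale : ∀ χ, M χ ≠ ⊥ → ∀ s : K, s ≠ 0 → M (fun u => χ ((s * s)⁻¹ * u)) ≠ ⊥ := by
    intro χ hχ s hs0
    obtain ⟨g, hg, hgf⟩ := hs s hs0
    obtain ⟨w, hw, hw0⟩ := (M χ).exists_mem_ne_zero_of_ne_bot hχ
    refine (Submodule.ne_bot_iff _).mpr ⟨g w, ?_, fun h => hw0 (hg (by rw [h, map_zero]))⟩
    rw [hmem] at hw ⊢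
    intro u
    obtain ⟨k, hk⟩ := hw ((s * s)⁻¹ * u)
    refine ⟨k, ?_⟩
    have hsc : SemiconjBy g (f ((s * s)⁻¹ * u) - χ ((s * s)⁻¹ * u) • (1 : Module.End F W))
        (f u - χ ((s * s)⁻¹ * u) • (1 : Module.End F W)) := by
      have h1 := hgf ((s * s)⁻¹ * u)
      rw [← mul_assoc, mul_inv_cancel₀ (mul_ne_zero hs0 hs0), one_mul] at h1
      change g * _ = _ * g
      rw [mul_sub, sub_mul, h1, mul_smul_comm, smul_mul_assoc, mul_one, one_mul]
    have h2 := hsc.pow_right k
    have h3 := LinearMap.congr_fun (show _ * _ = _ * _ from h2) w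
    rw [Module.End.mul_apply, Module.End.mul_apply, hk, map_zero] at h3
    exact h3.symm
  -- all characters are trivial
  have htriv : ∀ χ, M χ ≠ ⊥ → ∀ t, χ t = 1 := by
    intro χ hχ
    obtain ⟨x, ⟨s, hs0, hx⟩, x', ⟨s', hs0', hx'⟩, hne, heq⟩ :=
      (infinite_squares (K := K)).exists_ne_map_eq_of_mapsTo
        (f := fun x => (fun u => χ (x⁻¹ * u))) (t := {χ | M χ ≠ ⊥})
        (by
          rintro x ⟨s, hs0, rfl⟩
          exact hscale χ hχ s hs0) hfin
    have hx0 : x ≠ 0 := by rw [hx]; exact mul_ne_zero hs0 hs0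
    have hx0' : x' ≠ 0 := by rw [hx']; exact mul_ne_zero hs0' hs0'
    set a : K := x⁻¹ - x'⁻¹ with ha
    have ha0 : a ≠ 0 := sub_ne_zero.mpr fun h => hne (inv_injective h)
    obtain ⟨w, hw, hw0⟩ := (M χ).exists_mem_ne_zero_of_ne_bot hχ
    have hinv : ∀ t, ∀ v ∈ M χ, f t v ∈ M χ := by
      intro t v hv
      rw [hM, Submodule.mem_iInf] at hv ⊢
      exact fun u => hmaps t u (χ u) (hv u)
    -- restriction
    have hpow : ∀ (q : Module.End F W) (hq : ∀ v ∈ M χ, q v ∈ M χ) (n : ℕ) (m : M χ),
        (((q.restrict hq) ^ n) m : W) = (q ^ n) m := by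
      intro q hq n
      induction n with
      | zero => intro m; rfl
      | succ n ih =>
        intro m
        rw [pow_succ', Module.End.mul_apply, pow_succ', Module.End.mul_apply, ← ih]
        rfl
    have hsub : ∀ (t : K) (c : F), ∀ v ∈ M χ, (f t - c • (1 : Module.End F W)) v ∈ M χ := by
      intro t c v hv
      rw [LinearMap.sub_apply, LinearMap.smul_apply, Module.End.one_apply]
      exact (M χ).sub_mem (hinv t v hv) ((M χ).smul_mem c hv)
    have hnil : ∀ t, IsNilpotent ((f t - χ t • (1 : Module.End F W)).restrict (hsub t (χ t))) := by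
      intro t
      rw [Module.End.isNilpotent_iff_of_finite]
      intro m
      obtain ⟨k, hk⟩ := (hmem χ m).mp m.2 t
      refine ⟨k, ?_⟩
      apply Subtype.ext
      rw [hpow, hk]
      rfl
    have key : ∀ u, χ (a * u) = 1 := by
      intro u
      set c : F := χ (x⁻¹ * u) with hc
      have hc' : χ (x'⁻¹ * u) = c := (congrFun heq u).symm
      have hA := hnil (x⁻¹ * u)
      have hB := hnil (x'⁻¹ * u)
      rw [← hc] at hA
      rw [hc'] at hB
      set A := (f (x⁻¹ * u) - c • (1 : Module.End F W)).restrict (hsub (x⁻¹ * u) c) with hAd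
      set B := (f (x'⁻¹ * u) - c • (1 : Module.End F W)).restrict (hsub (x'⁻¹ * u) c) with hBd
      set C := (f (-(x'⁻¹ * u))).restrict (hinv (-(x'⁻¹ * u))) with hCd
      have happ : ∀ s t v, f s (f t v) = f t (f s v) := fun s t v =>
        LinearMap.congr_fun (hcomm s t) v
      have hAB : Commute A B := by
        change A * B = B * A
        ext m
        change (f (x⁻¹ * u) - c • (1 : Module.End F W)) ((f (x'⁻¹ * u) - c • (1 : Module.End F W)) m)
          = (f (x'⁻¹ * u) - c • (1 : Module.End F W)) ((f (x⁻¹ * u) - c • (1 : Module.End F W)) m)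
        simp only [LinearMap.sub_apply, LinearMap.smul_apply, Module.End.one_apply, map_sub,
          map_smul, happ (x⁻¹ * u) (x'⁻¹ * u), smul_sub]
        abel
      have hAC : ∀ (s : K) (hs : ∀ v ∈ M χ, (f s - c • (1 : Module.End F W)) v ∈ M χ),
          Commute ((f s - c • (1 : Module.End F W)).restrict hs) C := by
        intro s hs
        change _ * C = C * _
        ext m
        change (f s - c • (1 : Module.End F W)) (f (-(x'⁻¹ * u)) m)
          = f (-(x'⁻¹ * u)) ((f s - c • (1 : Module.End F W)) m)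
        simp only [LinearMap.sub_apply, LinearMap.smul_apply, Module.End.one_apply, map_sub,
          map_smul, happ s (-(x'⁻¹ * u))]
      have hABn : IsNilpotent ((A - B) * C) := by
        refine Commute.isNilpotent_mul_right ?_ (hAB.isNilpotent_sub hA hB)
        exact (hAC _ _).sub_left (hAC _ _)
      have hfa : (A - B) * C = (f (a * u) - (1 : F) • (1 : Module.End F W)).restrict
          (hsub (a * u) 1) := by
        ext m
        change (f (x⁻¹ * u) - c • (1 : Module.End F W)) (f (-(x'⁻¹ * u)) m)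
            - (f (x'⁻¹ * u) - c • (1 : Module.End F W)) (f (-(x'⁻¹ * u)) m)
          = (f (a * u) - (1 : F) • (1 : Module.End F W)) m
        simp only [LinearMap.sub_apply, LinearMap.smul_apply, Module.End.one_apply, one_smul]
        rw [← Module.End.mul_apply (f (x⁻¹ * u)), ← hadd, ← Module.End.mul_apply (f (x'⁻¹ * u)),
          ← hadd, add_neg_cancel, h0, Module.End.one_apply, ha, sub_mul, ← sub_eq_add_neg]
        abel
      rw [hfa] at hABn
      obtain ⟨k, hk⟩ := hABn
      have hw1 : w ∈ (f (a * u)).maxGenEigenspace 1 := by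
        rw [Module.End.mem_maxGenEigenspace]
        refine ⟨k, ?_⟩
        have h1 := hpow _ (hsub (a * u) 1) k ⟨w, hw⟩
        rw [hk] at h1
        exact h1.symm
      have hw2 : w ∈ (f (a * u)).maxGenEigenspace (χ (a * u)) := by
        rw [hM, Submodule.mem_iInf] at hw
        exact hw (a * u)
      by_contra hne1
      have hdis := Module.End.disjoint_genEigenspace (f (a * u)) hne1 ⊤ ⊤
      exact hw0 ((Submodule.disjoint_def.mp hdis) w hw2 hw1)
    intro t
    have := key (a⁻¹ * t)
    rwa [← mul_assoc, mul_inv_cancel₀ ha0, one_mul] at this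
  have hle : (⊤ : Submodule F W) ≤ (f t).maxGenEigenspace 1 := by
    rw [← htop]
    refine iSup_le fun χ => ?_
    by_cases hχ : M χ = ⊥
    · rw [hχ]; exact bot_le
    · have h1 := htriv χ hχ t
      rw [← h1]
      exact iInf_le _ t
  rw [Module.End.isNilpotent_iff_of_finite]
  intro w
  obtain ⟨k, hk⟩ := (Module.End.mem_maxGenEigenspace _ _ _).mp (hle (Submodule.mem_top (x := w)))
  rw [one_smul] at hk
  exact ⟨k, hk⟩

end Pool.Agent.H62.CA
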