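import Pool.Agent.H62.CA.Defs

/-!
# Project CA, module LiftLemmas: unipotent representatives

Key lemma `eq_one_of_unip`: for `z` central (a scalar matrix `r`, `SpecialLinearGroup.mem_center_iff`),
`e` and `z e` unipotent: `(r - 1) • 1 = (r e - 1) - r (e - 1)` is a difference of commuting nilpotent
matrices, so `r - 1` is nilpotent, so `r = 1` (`n ≥ 1`).

* `Lift.unique`: `e' = z e` with `z ∈ Z` central.
* `Lift.commute`: `a b a⁻¹ = z b` with `z ∈ Z` (as `mk (a b a⁻¹) = ψ (A B A⁻¹) = ψ B = mk b`), both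
  `b` and `a b a⁻¹` are unipotent.
* `Lift.mul`: `a b - 1 = (a - 1) b + (b - 1)` is a sum of commuting nilpotents.
* `Lift.inv`, `Lift.conj`: clear.
* `Lift.bracket`: `a`, `b`, `c` with `c` commuting with `a`, `b` (`Lift.commute`). `mk (a b) =
  mk (c (b a))`, so `a b = z c b a`, i.e. `a b a⁻¹ = z (c b)`; `c b` is unipotent (commuting
  unipotents) and `a b a⁻¹` is unipotent; so `z = 1`.
-/

set_option autoImplicit false

open Matrix

namespace Pool.Agent.H62.CA

variable {n : ℕ} {K L : Type*} [Field K] [Field L] {Z : Subgroup (SL n L)} [Z.Normal]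
  {ψ : SL n K →* SL n L ⧸ Z}

theorem LiftLemmas_mul (A B : SL n L) : (A * B).1 = A.1 * B.1 := rfl

theorem LiftLemmas_one : (1 : SL n L).1 = 1 := rfl

theorem LiftLemmas_inv_mul (A : SL n L) : (A⁻¹).1 * A.1 = 1 := by
  rw [← LiftLemmas_mul, inv_mul_cancel, LiftLemmas_one]

theorem LiftLemmas_mul_inv (A : SL n L) : A.1 * (A⁻¹).1 = 1 := by
  rw [← LiftLemmas_mul, mul_inv_cancel, LiftLemmas_one]

theorem LiftLemmas_unip (e : SL n L) : Unip e ↔ IsNilpotent (e.1 - 1) := Iff.rfl

theorem eq_one_of_unip (hn : 0 < n) {z e : SL n L} (hz : z ∈ Subgroup.center (SL n L))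
    (he : Unip e) (hze : Unip (z * e)) : z = 1 := by
  obtain ⟨r, -, hr'⟩ := Matrix.SpecialLinearGroup.mem_center_iff.1 hz
  have hr : scalar (Fin n) r = z.1 := hr'
  rw [LiftLemmas_unip] at he hze
  rw [LiftLemmas_mul, ← hr] at hze
  obtain ⟨E, hE⟩ : ∃ E : Matrix (Fin n) (Fin n) L, E = e.1 := ⟨_, rfl⟩
  rw [← hE] at he hze
  have h1 : IsNilpotent (E - 1) := he
  have h2 : IsNilpotent (scalar (Fin n) r * E - 1) := hze
  have hc : Commute (scalar (Fin n) r) E := by
    rw [scalar_apply, ← smul_one_eq_diagonal]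
    exact (Commute.one_left E).smul_left r
  have hc1 : Commute (scalar (Fin n) r) (E - 1) := hc.sub_right (Commute.one_right _)
  have h4 : IsNilpotent (scalar (Fin n) r * (E - 1)) := hc1.isNilpotent_mul_left h1
  have hc2 : Commute (scalar (Fin n) r * E - 1) (scalar (Fin n) r * (E - 1)) := by
    have h5 : Commute (scalar (Fin n) r * E) (scalar (Fin n) r * (E - 1)) := by
      refine Commute.mul_left ?_ ?_
      · exact (Commute.refl _).mul_right hc1
      · exact hc.symm.mul_right ((Commute.refl E).sub_right (Commute.one_right _))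
    exact h5.sub_left (Commute.one_left _)
  have h6 : IsNilpotent ((scalar (Fin n) r * E - 1) - scalar (Fin n) r * (E - 1)) :=
    hc2.isNilpotent_sub h2 h4
  have h7 : (scalar (Fin n) r * E - 1) - scalar (Fin n) r * (E - 1) = scalar (Fin n) (r - 1) := by
    rw [map_sub, map_one, mul_sub, mul_one]
    abel
  rw [h7] at h6
  obtain ⟨k, hk⟩ := h6
  rw [← map_pow] at hk
  have h8 : (r - 1) ^ k = 0 := by
    have h9 := congrFun (congrFun hk ⟨0, hn⟩) ⟨0, hn⟩
    simpa [scalar_apply] using h9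
  have h10 : r = 1 := by
    have h11 := eq_zero_of_pow_eq_zero h8
    exact sub_eq_zero.1 h11
  apply Subtype.ext
  rw [← hr, h10, map_one, LiftLemmas_one]

theorem unip_one : Unip (1 : SL n L) := by
  rw [LiftLemmas_unip, LiftLemmas_one, sub_self]
  exact IsNilpotent.zero

theorem Unip.mul {a b : SL n L} (ha : Unip a) (hb : Unip b) (hab : Commute a b) : Unip (a * b) := by
  rw [LiftLemmas_unip] at ha hb ⊢
  rw [LiftLemmas_mul]
  have hab' : Commute a.1 b.1 := by
    have h1 := congrArg Subtype.val hab.eq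
    exact h1
  generalize a.1 = x at *
  generalize b.1 = y at *
  have h2 : x * y - 1 = (x - 1) * y + (y - 1) := by
    rw [sub_mul, one_mul]
    abel
  have hc1 : Commute (x - 1) y := hab'.sub_left (Commute.one_left _)
  have h3 : IsNilpotent ((x - 1) * y) := hc1.isNilpotent_mul_right ha
  have hc2 : Commute ((x - 1) * y) (y - 1) := by
    refine Commute.mul_left ?_ ?_
    · exact hc1.sub_right (Commute.one_right _)
    · exact (Commute.refl y).sub_right (Commute.one_right _)
  rw [h2]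
  exact hc2.isNilpotent_add h3 hb

theorem Unip.inv {a : SL n L} (ha : Unip a) : Unip a⁻¹ := by
  rw [LiftLemmas_unip] at ha ⊢
  have h1 := LiftLemmas_inv_mul a
  have h2 := LiftLemmas_mul_inv a
  generalize a.1 = x at *
  generalize (a⁻¹).1 = y at *
  have h3 : y - 1 = -(y * (x - 1)) := by
    rw [mul_sub, h1, mul_one, neg_sub]
  have hc : Commute y (x - 1) := by
    refine Commute.sub_right ?_ (Commute.one_right _)
    exact h1.trans h2.symm
  rw [h3]
  exact (hc.isNilpotent_mul_left ha).neg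

theorem Unip.conj {a : SL n L} (ha : Unip a) (X : SL n L) : Unip (X * a * X⁻¹) := by
  rw [LiftLemmas_unip] at ha ⊢
  rw [LiftLemmas_mul, LiftLemmas_mul]
  have h1 := LiftLemmas_inv_mul X
  have h2 := LiftLemmas_mul_inv X
  generalize X.1 = x at *
  generalize (X⁻¹).1 = y at *
  generalize a.1 = m at *
  obtain ⟨k, hk⟩ := ha
  have h3 : x * m * y - 1 = x * (m - 1) * y := by
    rw [mul_sub, sub_mul, mul_one, h2]
  have h4 : ∀ j : ℕ, (x * (m - 1) * y) ^ j = x * (m - 1) ^ j * y := by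
    intro j
    induction j with
    | zero => rw [pow_zero, pow_zero, mul_one, h2]
    | succ j ih =>
      rw [pow_succ, ih, pow_succ]
      calc x * (m - 1) ^ j * y * (x * (m - 1) * y)
          = x * (m - 1) ^ j * (y * x) * (m - 1) * y := by simp only [mul_assoc]
        _ = x * ((m - 1) ^ j * (m - 1)) * y := by rw [h1]; simp only [mul_assoc, mul_one]
  exact ⟨k, by rw [h3, h4, hk, mul_zero, zero_mul]⟩

theorem Lift.unique (hn : 0 < n) (hZ : Z ≤ Subgroup.center (SL n L)) {A : SL n K} {a a' : SL n L}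
    (h : Lift ψ A a) (h' : Lift ψ A a') : a = a' := by
  have h1 : a⁻¹ * a' ∈ Z := by
    rw [← QuotientGroup.eq, h.2, h'.2]
  obtain ⟨z, hz⟩ : ∃ z, z = a⁻¹ * a' := ⟨_, rfl⟩
  have hzc : z ∈ Subgroup.center (SL n L) := by
    rw [hz]
    exact hZ h1
  have h2 : a' = z * a := by
    rw [← (Subgroup.mem_center_iff.1 hzc a), hz, mul_inv_cancel_left]
  have h3 : z = 1 := eq_one_of_unip hn hzc h.1 (by rw [← h2]; exact h'.1)
  rw [h2, h3, one_mul]

theorem Lift.one : Lift ψ 1 1 := by
  exact ⟨unip_one, by rw [map_one, QuotientGroup.mk_one]⟩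

theorem Lift.inv {A : SL n K} {a : SL n L} (h : Lift ψ A a) : Lift ψ A⁻¹ a⁻¹ := by
  exact ⟨h.1.inv, by rw [map_inv, QuotientGroup.mk_inv, h.2]⟩

theorem Lift.conj {A P : SL n K} {a X : SL n L} (h : Lift ψ A a)
    (hX : (QuotientGroup.mk X : SL n L ⧸ Z) = ψ P) : Lift ψ (P * A * P⁻¹) (X * a * X⁻¹) := by
  exact ⟨h.1.conj X, by
    rw [map_mul, map_mul, map_inv, QuotientGroup.mk_mul, QuotientGroup.mk_mul,
      QuotientGroup.mk_inv, h.2, hX]⟩

theorem Lift.commute (hn : 0 < n) (hZ : Z ≤ Subgroup.center (SL n L)) {A B : SL n K} {a b : SL n L}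
    (ha : Lift ψ A a) (hb : Lift ψ B b) (hAB : Commute A B) : Commute a b := by
  have h1 := Lift.conj hb ha.2
  have h2 : A * B * A⁻¹ = B := by
    rw [hAB.eq, mul_inv_cancel_right]
  rw [h2] at h1
  have h3 := Lift.unique hn hZ h1 hb
  exact mul_inv_eq_iff_eq_mul.1 h3

theorem Lift.mul (hn : 0 < n) (hZ : Z ≤ Subgroup.center (SL n L)) {A B : SL n K} {a b : SL n L}
    (ha : Lift ψ A a) (hb : Lift ψ B b) (hAB : Commute A B) : Lift ψ (A * B) (a * b) := by
  exact ⟨ha.1.mul hb.1 (Lift.commute hn hZ ha hb hAB), by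
    rw [map_mul, QuotientGroup.mk_mul, ha.2, hb.2]⟩

theorem Lift.bracket (hn : 0 < n) (hZ : Z ≤ Subgroup.center (SL n L)) {A B C : SL n K}
    {a b c : SL n L} (ha : Lift ψ A a) (hb : Lift ψ B b) (hc : Lift ψ C c)
    (hABC : A * B = C * (B * A)) (hAC : Commute A C) (hBC : Commute B C) :
    a * b = c * (b * a) := by
  have h1 := Lift.conj hb ha.2
  have h2 : A * B * A⁻¹ = C * B := by
    rw [hABC, ← mul_assoc, mul_inv_cancel_right]
  rw [h2] at h1
  have h3 := Lift.unique hn hZ h1 (Lift.mul hn hZ hc hb hBC.symm)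
  rw [mul_inv_eq_iff_eq_mul] at h3
  rw [h3, mul_assoc]

theorem Lift.ne_one (hψ : ψ.ker ≤ Subgroup.center (SL n K)) {A : SL n K} {a : SL n L}
    (h : Lift ψ A a) (hA : A ∉ Subgroup.center (SL n K)) : a ≠ 1 := by
  rintro rfl
  apply hA
  apply hψ
  rw [MonoidHom.mem_ker, ← h.2, QuotientGroup.mk_one]

end Pool.Agent.H62.CA
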