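import Pool.Agent.H62.CA.Defs

/-!
# Project CA, module Limit: the union in coordinates

`KK :=` the direct limit of the fields `K i` along the `σ i` (`f i j h : K i →+* K j` by
`Nat.leRecOn`/`Nat.le_induction`; `Ring.DirectLimit`, field structure `Field.DirectLimit.field`; or any
other construction giving: a field `KK : Type u`, ring homomorphisms `p i : K i →+* KK` with
`(p (i+1)).comp (σ i) = p i`, every element of `KK` is in the range of some `p i`). The `p i` are
injective (fields). `ZZ := {M | ∃ i, ∃ N ∈ Z i, M = map (p i) N}`, a central (hence normal) subgroup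
(`map (σ i)` maps `Z i` into `Z (i+1)`: from `hα` with `x = 1`, `M ∈ Z i`; central: scalar matrices).
`θ : G → SL n KK ⧸ ZZ`, `θ g := mk (map (p i) M)` if `g ∈ H i` and `α i g = mk M`. Well defined (in
`M`: `Z i` maps into `ZZ`; in `i`: `hα`), a homomorphism (two elements lie in a common `H i`).
Injective: `α i g = mk M`, `map (p i) M = map (p j) N`, `N ∈ Z j`; w.l.o.g. (`hα`) `j ≤ i`, and then
`i = j` (replace `N` by its image in `Z i`); by injectivity of `p i`, `M = N ∈ Z i`, so `g = 1`.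
Surjective: the finitely many entries of `M ∈ SL n KK` come from one `K i`; the determinant of the
matrix `M' ` over `K i` maps to `1`, so it is `1` (`p i` injective); `g := (α i)⁻¹ (mk M')`.
-/

set_option autoImplicit false

open Matrix

universe u

namespace Pool.Agent.H62.CA

noncomputable def Limit_f (K : ℕ → Type u) [∀ i, Field (K i)] (σ : ∀ i, K i →+* K (i + 1))
    (i j : ℕ) (h : i ≤ j) : K i →+* K j :=
  Nat.leRecOn (C := fun k => K i →+* K k) h (fun {k} g => (σ k).comp g) (RingHom.id _)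

theorem Limit_f_self (K : ℕ → Type u) [∀ i, Field (K i)] (σ : ∀ i, K i →+* K (i + 1))
    (i : ℕ) (h : i ≤ i) : Limit_f K σ i i h = RingHom.id _ := by
  unfold Limit_f
  exact Nat.leRecOn_self _

theorem Limit_f_succ (K : ℕ → Type u) [∀ i, Field (K i)] (σ : ∀ i, K i →+* K (i + 1))
    (i j : ℕ) (h : i ≤ j) (h' : i ≤ j + 1) :
    Limit_f K σ i (j + 1) h' = (σ j).comp (Limit_f K σ i j h) := by
  unfold Limit_f
  exact Nat.leRecOn_succ h _

theorem Limit_f_comp (K : ℕ → Type u) [∀ i, Field (K i)] (σ : ∀ i, K i →+* K (i + 1))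
    (i j k : ℕ) (hij : i ≤ j) (hjk : j ≤ k) (hik : i ≤ k) (x : K i) :
    Limit_f K σ j k hjk (Limit_f K σ i j hij x) = Limit_f K σ i k hik x := by
  induction k, hjk using Nat.le_induction with
  | base => rw [Limit_f_self]; rfl
  | succ k hk ih =>
    rw [Limit_f_succ K σ j k hk, Limit_f_succ K σ i k (hij.trans hk)]
    rw [RingHom.comp_apply, RingHom.comp_apply, ih (hij.trans hk)]

theorem Limit_dirlim (K : ℕ → Type u) [∀ i, Field (K i)] (σ : ∀ i, K i →+* K (i + 1)) :
    ∃ (KK : Type u) (_ : Field KK) (p : ∀ i, K i →+* KK),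
      (∀ i, (p (i + 1)).comp (σ i) = p i) ∧ ∀ x, ∃ i y, p i y = x := by
  have hds : DirectedSystem K (fun i j h => Limit_f K σ i j h) :=
    { map_self := fun i x => by rw [Limit_f_self]; rfl
      map_map := fun i j k hij hjk x => Limit_f_comp K σ _ _ _ hij hjk _ x }
  refine ⟨Ring.DirectLimit K (fun i j h => Limit_f K σ i j h),
    Field.DirectLimit.field K (fun i j h => Limit_f K σ i j h),
    fun i => Ring.DirectLimit.of K (fun i j h => Limit_f K σ i j h) i, ?_, ?_⟩
  · intro i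
    ext x
    have h1 := Ring.DirectLimit.of_f (G := K) (f := fun i j h => Limit_f K σ i j h)
      (Nat.le_succ i) x
    rw [← h1]
    have h2 : Limit_f K σ i (i + 1) (Nat.le_succ i) x = σ i x := by
      rw [Limit_f_succ K σ i i le_rfl, Limit_f_self]
      rfl
    change Ring.DirectLimit.of K (fun i j h => Limit_f K σ i j h) (i + 1) (σ i x) = 
      Ring.DirectLimit.of K (fun i j h => Limit_f K σ i j h) (i + 1)
        (Limit_f K σ i (i + 1) (Nat.le_succ i) x)
    rw [h2]
  · intro x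
    exact Ring.DirectLimit.exists_of x

theorem exists_limit {n : ℕ} {G : Type u} [Group G] (H : ℕ → Subgroup G)
    (hH : ∀ i, H i ≤ H (i + 1)) (hG : ∀ g : G, ∃ i, g ∈ H i) (K : ℕ → Type u)
    [∀ i, Field (K i)] (Z : ∀ i, Subgroup (SL n (K i))) [∀ i, (Z i).Normal]
    (hZ : ∀ i, Z i ≤ Subgroup.center (SL n (K i))) (σ : ∀ i, K i →+* K (i + 1))
    (α : ∀ i, H i ≃* SL n (K i) ⧸ Z i)
    (hα : ∀ (i : ℕ) (x : H i) (M : SL n (K i)), α i x = QuotientGroup.mk M →
      α (i + 1) (Subgroup.inclusion (hH i) x) = QuotientGroup.mk (SpecialLinearGroup.map (σ i) M)) :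
    ∃ (KK : Type u) (_ : Field KK) (ZZ : Subgroup (SL n KK)) (_ : ZZ.Normal),
      ZZ ≤ Subgroup.center (SL n KK) ∧ Nonempty (G ≃* SL n KK ⧸ ZZ) := by
  obtain ⟨KK, hKK, p, hp, hps⟩ := Limit_dirlim K σ
  have hp' : ∀ i x, p (i + 1) (σ i x) = p i x := fun i x => by
    rw [← hp i]; rfl
  -- the maps
  set mp : ∀ i, SL n (K i) →* SL n KK := fun i => SpecialLinearGroup.map (p i) with hmp
  have hmpσ : ∀ i (M : SL n (K i)), mp (i + 1) (SpecialLinearGroup.map (σ i) M) = mp i M := by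
    intro i M
    apply Subtype.ext
    ext a b
    simp only [hmp, SpecialLinearGroup.map_apply_coe, RingHom.mapMatrix_apply, Matrix.map_apply]
    exact hp' i _
  have hmpinj : ∀ i, Function.Injective (mp i) := by
    intro i M N hMN
    apply Subtype.ext
    ext a b
    have h1 := congrArg (fun X : SL n KK => (X : Matrix (Fin n) (Fin n) KK) a b) hMN
    simp only [hmp, SpecialLinearGroup.map_apply_coe, RingHom.mapMatrix_apply,
      Matrix.map_apply] at h1
    exact (p i).injective h1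
  -- transfer
  have htr : ∀ i j (_ : i ≤ j) (g : G) (hg : g ∈ H i) (M : SL n (K i))
      (_ : α i ⟨g, hg⟩ = QuotientGroup.mk M), ∃ (hg' : g ∈ H j) (M' : SL n (K j)),
        α j ⟨g, hg'⟩ = QuotientGroup.mk M' ∧ mp j M' = mp i M := by
    intro i j hij g hg M hM
    induction j, hij using Nat.le_induction with
    | base => exact ⟨hg, M, hM, rfl⟩
    | succ j _ ih =>
      obtain ⟨hg', M', h1, h2⟩ := ih
      exact ⟨hH j hg', SpecialLinearGroup.map (σ j) M', hα j ⟨g, hg'⟩ M' h1,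
        (hmpσ j M').trans h2⟩
  have hZtr : ∀ i j (_ : i ≤ j) (N : SL n (K i)) (_ : N ∈ Z i), ∃ N' ∈ Z j, mp j N' = mp i N := by
    intro i j hij N hN
    have h1 : α i ⟨1, (H i).one_mem⟩ = QuotientGroup.mk N := by
      rw [(QuotientGroup.eq_one_iff N).mpr hN]
      exact map_one (α i)
    obtain ⟨hg', M', h2, h3⟩ := htr i j hij 1 (H i).one_mem N h1
    refine ⟨M', ?_, h3⟩
    rw [← QuotientGroup.eq_one_iff, ← h2]
    exact map_one (α j)
  have hKtr : ∀ i j (_ : i ≤ j) (y : K i), ∃ y' : K j, p j y' = p i y := by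
    intro i j hij y
    induction j, hij using Nat.le_induction with
    | base => exact ⟨y, rfl⟩
    | succ j _ ih =>
      obtain ⟨y', h1⟩ := ih
      exact ⟨σ j y', (hp' j y').trans h1⟩
  have hSLsurj : ∀ M : SL n KK, ∃ i, ∃ M' : SL n (K i), mp i M' = M := by
    intro M
    choose ii yy hyy using fun ab : Fin n × Fin n => hps ((M : Matrix (Fin n) (Fin n) KK) ab.1 ab.2)
    obtain ⟨k, hk⟩ : ∃ k, ∀ ab, ii ab ≤ k :=
      ⟨Finset.univ.sup ii, fun ab => Finset.le_sup (Finset.mem_univ ab)⟩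
    choose zz hzz using fun ab => hKtr (ii ab) k (hk ab) (yy ab)
    have h1 : (Matrix.of (fun a b => zz (a, b))).map (p k) = (M : Matrix (Fin n) (Fin n) KK) := by
      ext a b
      simp only [Matrix.map_apply, Matrix.of_apply]
      rw [hzz, hyy]
    have h2 : (Matrix.of (fun a b => zz (a, b))).det = 1 := by
      apply (p k).injective
      rw [RingHom.map_det, map_one, RingHom.mapMatrix_apply, h1, M.2]
    refine ⟨k, ⟨Matrix.of (fun a b => zz (a, b)), h2⟩, ?_⟩
    apply Subtype.ext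
    exact h1
  -- the center
  let ZZ : Subgroup (SL n KK) :=
    { carrier := {M | ∃ i, ∃ N ∈ Z i, mp i N = M}
      mul_mem' := by
        rintro _ _ ⟨i, N, hN, rfl⟩ ⟨j, N', hN', rfl⟩
        obtain ⟨N1, h1, h2⟩ := hZtr i (max i j) (le_max_left _ _) N hN
        obtain ⟨N2, h3, h4⟩ := hZtr j (max i j) (le_max_right _ _) N' hN'
        exact ⟨max i j, N1 * N2, (Z _).mul_mem h1 h3, by rw [map_mul, h2, h4]⟩
      one_mem' := ⟨0, 1, (Z 0).one_mem, map_one _⟩
      inv_mem' := by
        rintro _ ⟨i, N, hN, rfl⟩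
        exact ⟨i, N⁻¹, (Z i).inv_mem hN, map_inv _ _⟩ }
  have hZZmem : ∀ M, M ∈ ZZ ↔ ∃ i, ∃ N ∈ Z i, mp i N = M := fun M => Iff.rfl
  have hZZc : ZZ ≤ Subgroup.center (SL n KK) := by
    rintro _ ⟨i, N, hN, rfl⟩
    rw [Subgroup.mem_center_iff]
    intro A
    obtain ⟨j, A', rfl⟩ := hSLsurj A
    obtain ⟨N1, h1, h2⟩ := hZtr i (max i j) (le_max_left _ _) N hN
    -- move A' up
    have hA : ∃ A'' : SL n (K (max i j)), mp (max i j) A'' = mp j A' := by
      have := htr j (max i j) (le_max_right _ _) ((α j).symm (QuotientGroup.mk A') : G)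
        (SetLike.coe_mem _) A' (by simp)
      obtain ⟨_, M', _, h⟩ := this
      exact ⟨M', h⟩
    obtain ⟨A'', hA''⟩ := hA
    rw [← hA'', ← h2, ← map_mul, ← map_mul]
    congr 1
    exact Subgroup.mem_center_iff.mp (hZ _ h1) A''
  have hZZn : ZZ.Normal := by
    constructor
    intro N hN g
    have := Subgroup.mem_center_iff.mp (hZZc hN) g
    rw [this, mul_inv_cancel_right]
    exact hN
  -- the map
  have hex : ∀ g : G, ∃ T : SL n KK ⧸ ZZ, ∀ i (hg : g ∈ H i) (M : SL n (K i)),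
      α i ⟨g, hg⟩ = QuotientGroup.mk M → T = QuotientGroup.mk (mp i M) := by
    intro g
    obtain ⟨i, hi⟩ := hG g
    obtain ⟨M, hM⟩ := QuotientGroup.mk_surjective (α i ⟨g, hi⟩)
    refine ⟨QuotientGroup.mk (mp i M), ?_⟩
    intro j hj N hN
    obtain ⟨h1, M1, h2, h3⟩ := htr i (max i j) (le_max_left _ _) g hi M hM.symm
    obtain ⟨h4, N1, h5, h6⟩ := htr j (max i j) (le_max_right _ _) g hj N hN
    rw [← h3, ← h6]
    rw [QuotientGroup.eq, ← map_inv, ← map_mul]
    exact ⟨_, _, QuotientGroup.eq.mp (h2.symm.trans h5), rfl⟩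
  choose θ hθ using hex
  have hcommon : ∀ g h : G, ∃ k, g ∈ H k ∧ h ∈ H k := by
    have hmono : Monotone H := monotone_nat_of_le_succ hH
    intro g h
    obtain ⟨i, hi⟩ := hG g
    obtain ⟨j, hj⟩ := hG h
    exact ⟨max i j, hmono (le_max_left _ _) hi, hmono (le_max_right _ _) hj⟩
  have hmul : ∀ g h, θ (g * h) = θ g * θ h := by
    intro g h
    obtain ⟨k, hg, hh⟩ := hcommon g h
    obtain ⟨M, hM⟩ := QuotientGroup.mk_surjective (α k ⟨g, hg⟩)
    obtain ⟨N, hN⟩ := QuotientGroup.mk_surjective (α k ⟨h, hh⟩)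
    have h1 : α k ⟨g * h, (H k).mul_mem hg hh⟩ = QuotientGroup.mk (M * N) := by
      rw [QuotientGroup.mk_mul, hM, hN, ← map_mul]
      rfl
    rw [hθ _ k _ _ h1, hθ g k hg M hM.symm, hθ h k hh N hN.symm, map_mul]
    rfl
  let Θ : G →* SL n KK ⧸ ZZ := MonoidHom.mk' θ hmul
  have hΘinj : Function.Injective Θ := by
    rw [injective_iff_map_eq_one]
    intro g hg
    obtain ⟨i, hi⟩ := hG g
    obtain ⟨M, hM⟩ := QuotientGroup.mk_surjective (α i ⟨g, hi⟩)
    have h1 : θ g = QuotientGroup.mk (mp i M) := hθ g i hi M hM.symm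
    have h2 : (QuotientGroup.mk (mp i M) : SL n KK ⧸ ZZ) = 1 := h1.symm.trans hg
    rw [QuotientGroup.eq_one_iff] at h2
    obtain ⟨j, N, hN, hNM⟩ := h2
    obtain ⟨h3, M1, h4, h5⟩ := htr i (max i j) (le_max_left _ _) g hi M hM.symm
    obtain ⟨N1, h6, h7⟩ := hZtr j (max i j) (le_max_right _ _) N hN
    have h8 : M1 = N1 := hmpinj _ (by rw [h5, h7, hNM])
    rw [h8, (QuotientGroup.eq_one_iff N1).mpr h6] at h4
    have h9 : (⟨g, h3⟩ : H (max i j)) = 1 := (α _).injective (h4.trans (map_one _).symm)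
    exact congrArg Subtype.val h9
  have hΘsurj : Function.Surjective Θ := by
    intro T
    obtain ⟨M, rfl⟩ := QuotientGroup.mk_surjective T
    obtain ⟨i, M', rfl⟩ := hSLsurj M
    refine ⟨((α i).symm (QuotientGroup.mk M') : G), ?_⟩
    exact hθ _ i (SetLike.coe_mem _) M' (by simp)
  exact ⟨KK, hKK, ZZ, hZZn, hZZc, ⟨MulEquiv.ofBijective Θ ⟨hΘinj, hΘsurj⟩⟩⟩

end Pool.Agent.H62.CA
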