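import Pool.Agent.H62.CA.UnipLift

/-!
# Project CA, module MakeData: the root data of a homomorphism

Choose the unipotent representatives `e i j t` (`exists_unip_lift`; for `i = j` put `1`). All fields
of `RootData` follow from `Lift.unique` and the relations in `SLrel` via `Lift.mul`, `Lift.commute`,
`Lift.bracket`, `Lift.conj`, `Lift.ne_one` (`SpecialLinearGroup.transvection_mem_center_iff`).
`weyl`: `w := e i j t * e j i (-t⁻¹) * e i j t` represents `ψ (x_ij(t) x_ji(-t⁻¹) x_ij(t)) = ψ W`; so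
`w * e i j u * w⁻¹` and `e j i (-(u t⁻¹ t⁻¹))` are both unipotent representatives of
`ψ (W x_ij(u) W⁻¹)`.
-/

set_option autoImplicit false

open Matrix

namespace Pool.Agent.H62.CA

variable {n : ℕ} {K L : Type*} [Field K] [Field L] {Z : Subgroup (SL n L)} [Z.Normal]

theorem exists_rootData [Infinite K] (hn : 2 ≤ n) (hZ : Z ≤ Subgroup.center (SL n L))
    (ψ : SL n K →* SL n L ⧸ Z) (hψ : ψ.ker ≤ Subgroup.center (SL n K)) :
    ∃ D : RootData n K L, ∀ (i j : Fin n) (hij : i ≠ j) (t : K),
      (QuotientGroup.mk (D.e i j t) : SL n L ⧸ Z) = ψ (xr hij t) := by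
  classical
  have hn0 : 0 < n := by omega
  have hex : ∀ (i j : Fin n) (t : K), ∃ e : SL n L, ∀ hij : i ≠ j, Lift ψ (xr hij t) e := by
    intro i j t
    by_cases h : i = j
    · exact ⟨1, fun hij => absurd h hij⟩
    · obtain ⟨e, he⟩ := exists_unip_lift hn hZ ψ h t
      exact ⟨e, fun _ => he⟩
  choose e he using hex
  refine ⟨{
    e := e
    unip := fun i j t hij => (he i j t hij).1
    add := ?_
    comm := ?_
    bracket := ?_
    ne := ?_
    perm := ?_
    weyl := ?_ }, fun i j hij t => (he i j t hij).2⟩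
  · intro i j s t hij
    have h1 : Lift ψ (xr hij s * xr hij t) (e i j s * e i j t) :=
      Lift.mul hn0 hZ (he i j s hij) (he i j t hij) (xr_comm hij hij hij.symm hij s t)
    have h2 : Lift ψ (xr hij s * xr hij t) (e i j (s + t)) := by
      rw [← xr_add hij s t]
      exact he i j (s + t) hij
    exact Lift.unique hn0 hZ h2 h1
  · intro i j k l s t hij hkl hjk hil
    exact Lift.commute hn0 hZ (he i j s hij) (he k l t hkl) (xr_comm hij hkl hjk hil s t)
  · intro i j k s t hij hjk hik
    exact Lift.bracket hn0 hZ (he i j s hij) (he j k t hjk) (he i k (s * t) hik)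
      (xr_bracket hij hjk hik s t) (xr_comm hij hik hij.symm hik s (s * t))
      (xr_comm hjk hik hik.symm hjk t (s * t))
  · intro i j t hij ht
    refine Lift.ne_one hψ (he i j t hij) ?_
    intro h
    exact ht ((SpecialLinearGroup.transvection_mem_center_iff hij t).1 h)
  · intro π
    obtain ⟨P, c, hc, hP⟩ := exists_perm (K := K) π
    obtain ⟨X, hX⟩ := QuotientGroup.mk_surjective (ψ P)
    refine ⟨X, c, hc, ?_⟩
    intro i j t hij
    have h1 : Lift ψ (P * xr hij t * P⁻¹) (X * e i j t * X⁻¹) := Lift.conj (he i j t hij) hX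
    rw [hP i j hij t] at h1
    exact Lift.unique hn0 hZ h1 (he (π i) (π j) (c i j * t) (π.injective.ne hij))
  · intro i j t u hij ht
    have hW : (QuotientGroup.mk (e i j t * e j i (-t⁻¹) * e i j t) : SL n L ⧸ Z) =
        ψ (xr hij t * xr hij.symm (-t⁻¹) * xr hij t) := by
      rw [map_mul, map_mul, ← (he i j t hij).2, ← (he j i (-t⁻¹) hij.symm).2,
        QuotientGroup.mk_mul, QuotientGroup.mk_mul]
    have h1 := Lift.conj (he i j u hij) hW
    have h2 : (xr hij t * xr hij.symm (-t⁻¹) * xr hij t) * xr hij u *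
        (xr hij t * xr hij.symm (-t⁻¹) * xr hij t)⁻¹ = xr hij.symm (-(u * t⁻¹ * t⁻¹)) :=
      mul_inv_eq_iff_eq_mul.2 (xr_weyl hij t u ht)
    rw [h2] at h1
    exact mul_inv_eq_iff_eq_mul.1
      (Lift.unique hn0 hZ h1 (he j i (-(u * t⁻¹ * t⁻¹)) hij.symm))

end Pool.Agent.H62.CA
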