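import Pool.Agent.H62.CA.Flag

/-!
# Project CA, module RankOne: products of the nilpotent parts (`n ≥ 3`)

`D.N i j t := e i j t - 1`, rank `≤ 1` (`RootData.rank_le`), nilpotent.

General facts for matrices `A = v fᵀ`, `B = w gᵀ` (`Matrix.vecMulVec v f`; a matrix of rank `≤ 1` has
this form) which are nilpotent (so `f·v = 0`, `g·w = 0`):
(1) `mul_eq_zero_of_commute`: if `A B = B A` then `A B = 0`. (`A B = (f·w) v gᵀ`, `B A = (g·v) w fᵀ`. If
`f·w ≠ 0` and `A B ≠ 0` then `v ∥ w` and so `f·w = 0`.)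
(2) `e i j t` and `e k l s` commute iff `N i j t` and `N k l s` commute. So for commuting ones the
product of the `N` is zero. In particular `N i j s * N i j t = 0` and
`N i j (s + t) = N i j s + N i j t`.
(3) `bracket`: `e_ij(s) e_jk(t) = e_ik(st) e_jk(t) e_ij(s)`, and `N_ik N_jk = 0`, `N_ik N_ij = 0`:
`N_ij(s) N_jk(t) - N_jk(t) N_ij(s) = N_ik(st) ≠ 0` for `s, t ≠ 0`.
(4) exactly one of `N_ij(s) N_jk(t)`, `N_jk(t) N_ij(s)` is zero (`s, t ≠ 0`): not both zero by (3);
multiply (3) on the right with `N_ij(s) = v fᵀ`: `0 = N_ik N_ij(s) = N_ij(s) N_jk(t) N_ij(s) - 0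
= (f·w)(g·v) v fᵀ`, so `f·w = 0` or `g·v = 0`.
(5) uniformity: for fixed `s ≠ 0`, `{t | N_ij(s) N_jk(t) = 0}` and `{t | N_jk(t) N_ij(s) = 0}` are
additive subgroups of `K` with union `K` and intersection `{0}`, so one of them is `K`
(a group is not the union of two proper subgroups; if `t₁` is only in the first and `t₂` only in the
second then `t₁ + t₂` is in none). Similarly with `t` fixed. So for a given triple either
`N_ij(s) N_jk(t) = 0` for all `s, t` or `N_jk(t) N_ij(s) = 0` for all `s, t`.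
(6) `perm` carries the triple `(i,j,k)` to any other triple of distinct indices, so the same
alternative holds for all triples.
-/

set_option autoImplicit false

open Matrix

namespace Pool.Agent.H62.CA

variable {n : ℕ} {K L : Type*} [Field K] [Field L]

/-- The nilpotent part. -/
def RootData.N (D : RootData n K L) (i j : Fin n) (t : K) : Matrix (Fin n) (Fin n) L :=
  (D.e i j t : Matrix (Fin n) (Fin n) L) - 1

theorem RankOne_exists_vecMulVec {A : Matrix (Fin n) (Fin n) L} (hA : A.rank ≤ 1) :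
    ∃ v f : Fin n → L, A = vecMulVec v f := by
  unfold Matrix.rank at hA
  obtain ⟨v, hv⟩ := finrank_le_one_iff.mp hA
  have h : ∀ j, ∃ c : L, ∀ i, A i j = v.1 i * c := by
    intro j
    obtain ⟨c, hc⟩ := hv ⟨A.mulVecLin (Pi.single j 1), LinearMap.mem_range_self _ _⟩
    refine ⟨c, fun i => ?_⟩
    have h1 := congrFun (congrArg Subtype.val hc) i
    simp only [Matrix.mulVecLin_apply, Matrix.mulVec_single_one, Matrix.col_apply,
      SetLike.val_smul, Pi.smul_apply, smul_eq_mul] at h1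
    rw [← h1, mul_comm]
  choose f hf using h
  exact ⟨v.1, f, by
    ext i j
    rw [vecMulVec_apply, hf]⟩

theorem RankOne_vecMulVec_mul (v f w g : Fin n → L) :
    vecMulVec v f * vecMulVec w g = (f ⬝ᵥ w) • vecMulVec v g := by
  rw [Matrix.vecMulVec_mul_vecMulVec]
  ext i j
  simp only [vecMulVec_apply, Matrix.smul_apply, Pi.smul_apply, smul_eq_mul]
  ring

theorem RankOne_mul_or {A B : Matrix (Fin n) (Fin n) L} (hA : A.rank ≤ 1) (hB : B.rank ≤ 1)
    (h : A * B * A = 0) : A * B = 0 ∨ B * A = 0 := by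
  obtain ⟨v, f, rfl⟩ := RankOne_exists_vecMulVec hA
  obtain ⟨w, g, rfl⟩ := RankOne_exists_vecMulVec hB
  rw [RankOne_vecMulVec_mul, Matrix.smul_mul, RankOne_vecMulVec_mul, smul_smul, smul_eq_zero,
    mul_eq_zero] at h
  rcases h with (h | h) | h
  · left
    rw [RankOne_vecMulVec_mul, h, zero_smul]
  · right
    rw [RankOne_vecMulVec_mul, h, zero_smul]
  · left
    rw [h, Matrix.zero_mul]

theorem RankOne_sq_zero {A : Matrix (Fin n) (Fin n) L} (hA : A.rank ≤ 1)
    (hA' : IsNilpotent A) : A * A = 0 := by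
  obtain ⟨v, f, rfl⟩ := RankOne_exists_vecMulVec hA
  obtain ⟨m, hm⟩ := hA'
  have key : ∀ k : ℕ, (vecMulVec v f) ^ (k + 1) = ((f ⬝ᵥ v) ^ k) • vecMulVec v f := by
    intro k
    induction k with
    | zero => rw [zero_add, pow_one, pow_zero, one_smul]
    | succ k ih =>
      rw [pow_succ, ih, Matrix.smul_mul, RankOne_vecMulVec_mul, smul_smul, ← pow_succ]
  have h1 : (vecMulVec v f) ^ (m + 1) = 0 := by rw [pow_succ, hm, Matrix.zero_mul]
  rw [key, smul_eq_zero] at h1
  rcases h1 with h1 | h1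
  · rw [RankOne_vecMulVec_mul, eq_zero_of_pow_eq_zero h1, zero_smul]
  · rw [h1, Matrix.zero_mul]

theorem mul_eq_zero_of_commute {A B : Matrix (Fin n) (Fin n) L} (hA : A.rank ≤ 1) (hB : B.rank ≤ 1)
    (hA' : IsNilpotent A) (hB' : IsNilpotent B) (hAB : A * B = B * A) : A * B = 0 := by
  have h : A * B * A = 0 := by
    rw [Matrix.mul_assoc, ← hAB, ← Matrix.mul_assoc, RankOne_sq_zero hA hA', Matrix.zero_mul]
  rcases RankOne_mul_or hA hB h with h | h
  · exact h
  · rw [hAB, h]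

theorem RankOne_N_zero (D : RootData n K L) {i j : Fin n} (hij : i ≠ j) : D.N i j 0 = 0 := by
  unfold RootData.N
  rw [D.e_zero hij]
  exact sub_self (1 : Matrix (Fin n) (Fin n) L)

theorem RankOne_coe (D : RootData n K L) (i j : Fin n) (t : K) :
    (D.e i j t : Matrix (Fin n) (Fin n) L) = 1 + D.N i j t := by
  unfold RootData.N
  rw [add_sub_cancel]

theorem RankOne_N_rank (hn : 2 ≤ n) (D : RootData n K L) {i j : Fin n} (hij : i ≠ j) (t : K) :
    (D.N i j t).rank ≤ 1 := D.rank_le hn hij t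

theorem RankOne_N_nil (D : RootData n K L) {i j : Fin n} (hij : i ≠ j) (t : K) :
    IsNilpotent (D.N i j t) := D.unip i j t hij

theorem RankOne_N_ne (D : RootData n K L) {i j : Fin n} (hij : i ≠ j) {t : K} (ht : t ≠ 0) :
    D.N i j t ≠ 0 := by
  intro h
  apply D.ne i j t hij ht
  apply Subtype.ext
  have := RankOne_coe D i j t
  rw [h, add_zero] at this
  exact this

theorem RankOne_N_mul (hn : 2 ≤ n) (D : RootData n K L) {i j k l : Fin n} (hij : i ≠ j)
    (hkl : k ≠ l) (hjk : j ≠ k) (hil : i ≠ l) (s t : K) : D.N i j s * D.N k l t = 0 := by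
  apply mul_eq_zero_of_commute (RankOne_N_rank hn D hij s) (RankOne_N_rank hn D hkl t)
    (RankOne_N_nil D hij s) (RankOne_N_nil D hkl t)
  have h1 : (1 + D.N i j s) * (1 + D.N k l t) = (1 + D.N k l t) * (1 + D.N i j s) := by
    rw [← RankOne_coe, ← RankOne_coe]
    exact congrArg Subtype.val (D.comm i j k l s t hij hkl hjk hil).eq
  have h2 : D.N i j s * D.N k l t =
      (1 + D.N i j s) * (1 + D.N k l t) - 1 - D.N i j s - D.N k l t := by noncomm_ring
  have h3 : D.N k l t * D.N i j s =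
      (1 + D.N k l t) * (1 + D.N i j s) - 1 - D.N i j s - D.N k l t := by noncomm_ring
  rw [h2, h3, h1]

theorem RootData.N_add (hn : 2 ≤ n) (D : RootData n K L) {i j : Fin n} (hij : i ≠ j) (s t : K) :
    D.N i j (s + t) = D.N i j s + D.N i j t := by
  have h0 := RankOne_N_mul hn D hij hij hij.symm hij s t
  have h1 : 1 + D.N i j (s + t) = (1 + D.N i j s) * (1 + D.N i j t) := by
    rw [← RankOne_coe, ← RankOne_coe, ← RankOne_coe]
    exact congrArg Subtype.val (D.add i j s t hij)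
  rw [mul_add, mul_one, add_mul, one_mul, h0, add_zero, add_assoc] at h1
  exact add_left_cancel h1

theorem RootData.N_mul_eq_zero (hn : 2 ≤ n) (D : RootData n K L) {i j k l : Fin n} (hij : i ≠ j)
    (hkl : k ≠ l) (hjk : j ≠ k) (hil : i ≠ l) (s t : K) : D.N i j s * D.N k l t = 0 :=
  RankOne_N_mul hn D hij hkl hjk hil s t

theorem RootData.N_bracket (hn : 2 ≤ n) (D : RootData n K L) {i j k : Fin n} (hij : i ≠ j)
    (hjk : j ≠ k) (hik : i ≠ k) (s t : K) :
    D.N i j s * D.N j k t - D.N j k t * D.N i j s = D.N i k (s * t) := by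
  have h1 : (1 + D.N i j s) * (1 + D.N j k t) =
      (1 + D.N i k (s * t)) * ((1 + D.N j k t) * (1 + D.N i j s)) := by
    rw [← RankOne_coe, ← RankOne_coe, ← RankOne_coe]
    exact congrArg Subtype.val (D.bracket i j k s t hij hjk hik)
  have hca : D.N i k (s * t) * D.N i j s = 0 := RankOne_N_mul hn D hik hij hik.symm hij _ _
  have hcb : D.N i k (s * t) * D.N j k t = 0 := RankOne_N_mul hn D hik hjk hjk.symm hik _ _
  have h2 : (1 + D.N i k (s * t)) * ((1 + D.N j k t) * (1 + D.N i j s)) =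
      (1 + D.N j k t) * (1 + D.N i j s) + D.N i k (s * t) + D.N i k (s * t) * D.N j k t +
      D.N i k (s * t) * D.N i j s + D.N i k (s * t) * D.N j k t * D.N i j s := by noncomm_ring
  rw [h2, hca, hcb, Matrix.zero_mul, add_zero, add_zero, add_zero] at h1
  have h3 : D.N i j s * D.N j k t - D.N j k t * D.N i j s =
      (1 + D.N i j s) * (1 + D.N j k t) - (1 + D.N j k t) * (1 + D.N i j s) := by noncomm_ring
  rw [h3, h1, add_sub_cancel_left]

theorem RankOne_or (hn : 2 ≤ n) (D : RootData n K L) {i j k : Fin n} (hij : i ≠ j)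
    (hjk : j ≠ k) (hik : i ≠ k) (s t : K) :
    D.N j k t * D.N i j s = 0 ∨ D.N i j s * D.N j k t = 0 := by
  have h1 := D.N_bracket hn hij hjk hik s t
  have h2 : D.N i j s * D.N j k t * D.N i j s = 0 := by
    have h3 := congrArg (fun M => M * D.N i j s) h1
    simp only [sub_mul] at h3
    rw [D.N_mul_eq_zero hn hik hij hik.symm hij, Matrix.mul_assoc (D.N j k t),
      D.N_mul_eq_zero hn hij hij hij.symm hij, Matrix.mul_zero, sub_zero] at h3
    exact h3
  exact (RankOne_mul_or (RankOne_N_rank hn D hij s) (RankOne_N_rank hn D hjk t) h2).symm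

theorem RankOne_not_both (hn : 2 ≤ n) (D : RootData n K L) {i j k : Fin n} (hij : i ≠ j)
    (hjk : j ≠ k) (hik : i ≠ k) {s t : K} (hs : s ≠ 0) (ht : t ≠ 0)
    (h1 : D.N j k t * D.N i j s = 0) (h2 : D.N i j s * D.N j k t = 0) : False := by
  have h3 := D.N_bracket hn hij hjk hik s t
  rw [h1, h2, sub_zero] at h3
  exact RankOne_N_ne D hik (mul_ne_zero hs ht) h3.symm

theorem RankOne_unif (hn : 2 ≤ n) (D : RootData n K L) {i j k : Fin n} (hij : i ≠ j)
    (hjk : j ≠ k) (hik : i ≠ k) :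
    (∀ s t : K, D.N j k t * D.N i j s = 0) ∨ (∀ s t : K, D.N i j s * D.N j k t = 0) := by
  by_contra hcon
  rw [not_or] at hcon
  obtain ⟨h1, h2⟩ := hcon
  push Not at h1 h2
  obtain ⟨s1, t1, hP1⟩ := h1
  obtain ⟨s2, t2, hQ2⟩ := h2
  have hQ1 := (RankOne_or hn D hij hjk hik s1 t1).resolve_left hP1
  have hP2 := (RankOne_or hn D hij hjk hik s2 t2).resolve_right hQ2
  have hs1 : s1 ≠ 0 := by
    rintro rfl
    exact hP1 (by rw [RankOne_N_zero D hij, Matrix.mul_zero])
  have ht2 : t2 ≠ 0 := by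
    rintro rfl
    exact hQ2 (by rw [RankOne_N_zero D hjk, Matrix.mul_zero])
  rcases RankOne_or hn D hij hjk hik s1 t2 with hP | hQ
  · -- consider `(s1, t1 + t2)`
    rcases RankOne_or hn D hij hjk hik s1 (t1 + t2) with h | h
    · rw [D.N_add hn hjk, add_mul, hP, add_zero] at h
      exact hP1 h
    · rw [D.N_add hn hjk, mul_add, hQ1, zero_add] at h
      exact RankOne_not_both hn D hij hjk hik hs1 ht2 hP h
  · rcases RankOne_or hn D hij hjk hik (s1 + s2) t2 with h | h
    · rw [D.N_add hn hij, mul_add, hP2, add_zero] at h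
      exact RankOne_not_both hn D hij hjk hik hs1 ht2 h hQ
    · rw [D.N_add hn hij, add_mul, hQ, zero_add] at h
      exact hQ2 h

theorem RankOne_exists_perm {i j k i' j' k' : Fin n} (hij : i ≠ j) (hjk : j ≠ k) (hik : i ≠ k)
    (hij' : i' ≠ j') (hjk' : j' ≠ k') (hik' : i' ≠ k') :
    ∃ π : Equiv.Perm (Fin n), π i = i' ∧ π j = j' ∧ π k = k' := by
  obtain ⟨π1, hπ1⟩ : ∃ π : Equiv.Perm (Fin n), π i = i' := ⟨Equiv.swap i i', Equiv.swap_apply_left _ _⟩
  obtain ⟨π2, hπ2, hπ2'⟩ : ∃ π : Equiv.Perm (Fin n), π i' = i' ∧ π (π1 j) = j' := by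
    refine ⟨Equiv.swap (π1 j) j', ?_, Equiv.swap_apply_left _ _⟩
    apply Equiv.swap_apply_of_ne_of_ne
    · rw [← hπ1]
      exact fun h => hij (π1.injective h)
    · exact hij'
  obtain ⟨π3, hπ3, hπ3', hπ3''⟩ : ∃ π : Equiv.Perm (Fin n), π i' = i' ∧ π j' = j' ∧
      π (π2 (π1 k)) = k' := by
    refine ⟨Equiv.swap (π2 (π1 k)) k', ?_, ?_, Equiv.swap_apply_left _ _⟩
    · apply Equiv.swap_apply_of_ne_of_ne
      · intro h
        rw [← hπ2, ← hπ1] at h
        exact hik (π1.injective (π2.injective h))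
      · exact hik'
    · apply Equiv.swap_apply_of_ne_of_ne
      · intro h
        rw [← hπ2'] at h
        exact hjk (π1.injective (π2.injective h))
      · exact hjk'
  refine ⟨π3 * (π2 * π1), ?_, ?_, ?_⟩
  · rw [Equiv.Perm.mul_apply, Equiv.Perm.mul_apply, hπ1, hπ2, hπ3]
  · rw [Equiv.Perm.mul_apply, Equiv.Perm.mul_apply, hπ2', hπ3']
  · rw [Equiv.Perm.mul_apply, Equiv.Perm.mul_apply, hπ3'']

theorem RankOne_conj (D : RootData n K L) (π : Equiv.Perm (Fin n)) :
    ∃ (X Y : Matrix (Fin n) (Fin n) L) (c : Fin n → Fin n → K), Y * X = 1 ∧ X * Y = 1 ∧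
      (∀ i j, c i j ≠ 0) ∧
      ∀ i j t, i ≠ j → D.N (π i) (π j) (c i j * t) = X * D.N i j t * Y := by
  obtain ⟨X, c, hc, hX⟩ := D.perm π
  have hYX : ((X⁻¹ : SL n L) : Matrix (Fin n) (Fin n) L) * (X : Matrix (Fin n) (Fin n) L) = 1 :=
    congrArg Subtype.val (inv_mul_cancel X)
  have hXY : (X : Matrix (Fin n) (Fin n) L) * ((X⁻¹ : SL n L) : Matrix (Fin n) (Fin n) L) = 1 :=
    congrArg Subtype.val (mul_inv_cancel X)
  refine ⟨X, (X⁻¹ : SL n L), c, hYX, hXY, hc, fun i j t hij => ?_⟩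
  have h1 : (X : Matrix (Fin n) (Fin n) L) * (1 + D.N i j t) *
      ((X⁻¹ : SL n L) : Matrix (Fin n) (Fin n) L) = 1 + D.N (π i) (π j) (c i j * t) := by
    rw [← RankOne_coe, ← RankOne_coe]
    exact congrArg Subtype.val (hX i j t hij)
  rw [mul_add, mul_one, add_mul, hXY] at h1
  exact (add_left_cancel h1).symm

theorem RankOne_transfer (D : RootData n K L) {a b c d : Fin n} (π : Equiv.Perm (Fin n))
    (hab : a ≠ b) (hcd : c ≠ d) (h : ∀ s t : K, D.N a b s * D.N c d t = 0) (s t : K) :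
    D.N (π a) (π b) s * D.N (π c) (π d) t = 0 := by
  obtain ⟨X, Y, r, hYX, hXY, hr, hX⟩ := RankOne_conj D π
  have h1 : s = r a b * ((r a b)⁻¹ * s) := by rw [mul_inv_cancel_left₀ (hr a b)]
  have h2 : t = r c d * ((r c d)⁻¹ * t) := by rw [mul_inv_cancel_left₀ (hr c d)]
  rw [h1, h2, hX _ _ _ hab, hX _ _ _ hcd]
  calc X * D.N a b ((r a b)⁻¹ * s) * Y * (X * D.N c d ((r c d)⁻¹ * t) * Y)
      = X * (D.N a b ((r a b)⁻¹ * s) * (Y * X) * D.N c d ((r c d)⁻¹ * t)) * Y := by
        simp only [Matrix.mul_assoc]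
    _ = 0 := by rw [hYX, Matrix.mul_one, h, Matrix.mul_zero, Matrix.zero_mul]

theorem RootData.type_dichotomy (hn : 2 ≤ n) (D : RootData n K L) :
    (∀ (i j k : Fin n), i ≠ j → j ≠ k → i ≠ k → ∀ s t : K, D.N j k t * D.N i j s = 0) ∨
    (∀ (i j k : Fin n), i ≠ j → j ≠ k → i ≠ k → ∀ s t : K, D.N i j s * D.N j k t = 0) := by
  by_cases hex : ∃ i j k : Fin n, i ≠ j ∧ j ≠ k ∧ i ≠ k
  · obtain ⟨i, j, k, hij, hjk, hik⟩ := hex
    rcases RankOne_unif hn D hij hjk hik with h | h
    · left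
      intro i' j' k' hij' hjk' hik' s t
      obtain ⟨π, h1, h2, h3⟩ := RankOne_exists_perm hij hjk hik hij' hjk' hik'
      rw [← h1, ← h2, ← h3]
      exact RankOne_transfer D π hjk hij (fun a b => h b a) t s
    · right
      intro i' j' k' hij' hjk' hik' s t
      obtain ⟨π, h1, h2, h3⟩ := RankOne_exists_perm hij hjk hik hij' hjk' hik'
      rw [← h1, ← h2, ← h3]
      exact RankOne_transfer D π hij hjk h s t
  · left
    intro i j k hij hjk hik
    exact absurd ⟨i, j, k, hij, hjk, hik⟩ hex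

end Pool.Agent.H62.CA
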