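import Pool.Agent.H62.CA.Defs

/-!
# Project CA, module SLrel: relations between root elements of `SL n K`

All are matrix computations (`SpecialLinearGroup.transvection_coe`, `Matrix.single` algebra:
`single_mul_single_same`, `single_mul_single_of_ne`), except
* `exists_perm`: take the permutation matrix of `π` times a diagonal sign matrix
  (`diag (sign π, 1, …, 1)`, in any case an explicit monomial matrix `P i j = if i = π j then d j
  else 0` with `∏ d j = sign π`);
* `closure_xr`: `SpecialLinearGroup.diagonal_transvection_induction'` (Mathlib), and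
  `diag2n hij c hc = w(c) w(-1)`, `w(c) = x_ij(c) x_ji(-c⁻¹) x_ij(c)`.
-/

set_option autoImplicit false

open Matrix

namespace Pool.Agent.H62.CA

variable {n : ℕ} {K : Type*} [Field K]

theorem xr_zero {i j : Fin n} (hij : i ≠ j) : xr hij (0 : K) = 1 :=
  SpecialLinearGroup.transvection_coeff_zero hij

theorem xr_add {i j : Fin n} (hij : i ≠ j) (s t : K) : xr hij (s + t) = xr hij s * xr hij t :=
  SpecialLinearGroup.transvection_add hij s t

/-- matrix units -/
def SLrel_E (K : Type*) [Field K] {n : ℕ} (i j : Fin n) : Matrix (Fin n) (Fin n) K :=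
  Matrix.single i j 1

theorem SLrel_E_mul (i j k l : Fin n) :
    SLrel_E K i j * SLrel_E K k l = if j = k then SLrel_E K i l else 0 := by
  unfold SLrel_E
  split_ifs with h
  · subst h
    rw [single_mul_single_same, one_mul]
  · exact single_mul_single_of_ne _ _ _ _ h _

theorem SLrel_xr {i j : Fin n} (hij : i ≠ j) (t : K) :
    (xr hij t).1 = 1 + t • SLrel_E K i j := by
  have h : (xr hij t).1 = (1 : Matrix (Fin n) (Fin n) K) + single i j t :=
    SpecialLinearGroup.transvection_coe hij t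
  rw [h]
  unfold SLrel_E
  rw [smul_single, smul_eq_mul, mul_one]

theorem xr_comm {i j k l : Fin n} (hij : i ≠ j) (hkl : k ≠ l) (hjk : j ≠ k) (hil : i ≠ l)
    (s t : K) : Commute (xr hij s) (xr hkl t) := by
  apply Subtype.ext
  change (xr hij s).1 * (xr hkl t).1 = (xr hkl t).1 * (xr hij s).1
  rw [SLrel_xr, SLrel_xr]
  simp only [add_mul, mul_add, one_mul, mul_one, smul_mul_assoc, mul_smul_comm, SLrel_E_mul,
    if_neg hjk, if_neg hil.symm, smul_zero]
  module

theorem xr_bracket {i j k : Fin n} (hij : i ≠ j) (hjk : j ≠ k) (hik : i ≠ k) (s t : K) :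
    xr hij s * xr hjk t = xr hik (s * t) * (xr hjk t * xr hij s) := by
  apply Subtype.ext
  change (xr hij s).1 * (xr hjk t).1 = (xr hik (s * t)).1 * ((xr hjk t).1 * (xr hij s).1)
  rw [SLrel_xr, SLrel_xr, SLrel_xr]
  simp only [add_mul, mul_add, one_mul, mul_one, smul_mul_assoc, mul_smul_comm, SLrel_E_mul,
    if_neg hik.symm, if_neg hjk.symm, if_true, smul_zero, mul_zero]
  module

theorem SLrel_weyl {i j : Fin n} (hij : i ≠ j) (t : K) (ht : t ≠ 0) :
    (xr hij t * xr hij.symm (-t⁻¹) * xr hij t).1 =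
      1 - SLrel_E K i i - SLrel_E K j j + t • SLrel_E K i j - t⁻¹ • SLrel_E K j i := by
  change (xr hij t).1 * (xr hij.symm (-t⁻¹)).1 * (xr hij t).1 = _
  rw [SLrel_xr, SLrel_xr]
  simp only [add_mul, mul_add, one_mul, mul_one, smul_mul_assoc, mul_smul_comm, SLrel_E_mul,
    if_neg hij.symm, if_true, smul_zero]
  match_scalars <;> field_simp <;> ring

theorem xr_weyl {i j : Fin n} (hij : i ≠ j) (t u : K) (ht : t ≠ 0) :
    (xr hij t * xr hij.symm (-t⁻¹) * xr hij t) * xr hij u =
      xr hij.symm (-(u * t⁻¹ * t⁻¹)) * (xr hij t * xr hij.symm (-t⁻¹) * xr hij t) := by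
  apply Subtype.ext
  change (xr hij t * xr hij.symm (-t⁻¹) * xr hij t).1 * (xr hij u).1 =
    (xr hij.symm (-(u * t⁻¹ * t⁻¹))).1 * (xr hij t * xr hij.symm (-t⁻¹) * xr hij t).1
  rw [SLrel_weyl hij t ht, SLrel_xr, SLrel_xr]
  simp only [add_mul, mul_add, sub_mul, mul_sub, one_mul, mul_one, smul_mul_assoc, mul_smul_comm,
    SLrel_E_mul, if_neg hij, if_neg hij.symm, if_true, smul_zero]
  match_scalars <;> field_simp <;> ring

theorem SLrel_diag_mul {i j : Fin n} (d : Fin n → K) :
    diagonal d * SLrel_E K i j = d i • SLrel_E K i j := by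
  ext a b
  unfold SLrel_E
  rw [Matrix.diagonal_mul, Matrix.smul_apply, single_apply, smul_eq_mul]
  by_cases h : i = a ∧ j = b
  · rw [if_pos h, h.1]
  · rw [if_neg h, mul_zero, mul_zero]

theorem SLrel_mul_diag {i j : Fin n} (d : Fin n → K) :
    SLrel_E K i j * diagonal d = d j • SLrel_E K i j := by
  ext a b
  unfold SLrel_E
  rw [Matrix.mul_diagonal, Matrix.smul_apply, single_apply, smul_eq_mul]
  by_cases h : i = a ∧ j = b
  · rw [if_pos h, h.2, mul_comm]
  · rw [if_neg h, mul_zero, zero_mul]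

theorem diag_xr {i j : Fin n} (hij : i ≠ j) (s : K) (hs : s ≠ 0) (t : K) :
    SpecialLinearGroup.diag2n hij s hs * xr hij t * (SpecialLinearGroup.diag2n hij s hs)⁻¹ =
      xr hij (s * s * t) := by
  rw [mul_inv_eq_iff_eq_mul]
  apply Subtype.ext
  change (SpecialLinearGroup.diag2n hij s hs).1 * (xr hij t).1 =
    (xr hij (s * s * t)).1 * (SpecialLinearGroup.diag2n hij s hs).1
  rw [SLrel_xr, SLrel_xr, SpecialLinearGroup.diag2n_coe]
  rw [mul_add, add_mul, mul_one, one_mul, mul_smul_comm, smul_mul_assoc, SLrel_diag_mul,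
    SLrel_mul_diag, if_pos rfl, if_neg hij.symm, if_pos rfl, smul_smul, smul_smul]
  congr 2
  field_simp

/-- The monomial matrix. -/
def SLrel_P (π : Equiv.Perm (Fin n)) (d : Fin n → K) : Matrix (Fin n) (Fin n) K :=
  (π⁻¹).permMatrix K * diagonal d

theorem SLrel_P_apply (π : Equiv.Perm (Fin n)) (d : Fin n → K) (a b : Fin n) :
    SLrel_P π d a b = if a = π b then d b else 0 := by
  unfold SLrel_P
  rw [Matrix.mul_diagonal]
  by_cases h : a = π b
  · subst h
    simp [Equiv.Perm.permMatrix, PEquiv.toMatrix_apply]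
  · have h' : π.symm a ≠ b := fun h' => h (by rw [← h', Equiv.apply_symm_apply])
    simp [Equiv.Perm.permMatrix, PEquiv.toMatrix_apply, h, h']

theorem SLrel_P_mul (π : Equiv.Perm (Fin n)) (d : Fin n → K) (i j : Fin n) :
    SLrel_P π d * SLrel_E K i j = d i • SLrel_E K (π i) j := by
  ext a b
  unfold SLrel_E
  rw [Matrix.smul_apply, Matrix.mul_apply, Finset.sum_eq_single i]
  · rw [SLrel_P_apply, single_apply, single_apply, smul_eq_mul]
    by_cases h1 : a = π i <;> by_cases h2 : j = b <;> simp [h1, h2, eq_comm]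
  · intro c _ hc
    rw [single_apply, if_neg (fun h => hc h.1.symm), mul_zero]
  · intro h
    exact absurd (Finset.mem_univ _) h

theorem SLrel_mul_P (π : Equiv.Perm (Fin n)) (d : Fin n → K) (i j : Fin n) :
    SLrel_E K i (π j) * SLrel_P π d = d j • SLrel_E K i j := by
  ext a b
  unfold SLrel_E
  rw [Matrix.smul_apply, Matrix.mul_apply, Finset.sum_eq_single (π j)]
  · rw [SLrel_P_apply, single_apply, single_apply, smul_eq_mul]
    by_cases h1 : i = a <;> by_cases h2 : j = b <;> simp [h1, h2]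
  · intro c _ hc
    rw [single_apply, if_neg (fun h => hc h.2.symm), zero_mul]
  · intro h
    exact absurd (Finset.mem_univ _) h

theorem exists_perm (π : Equiv.Perm (Fin n)) : ∃ (P : SL n K) (c : Fin n → Fin n → K),
    (∀ i j, c i j ≠ 0) ∧ ∀ (i j : Fin n) (hij : i ≠ j) (t : K),
      P * xr hij t * P⁻¹ = xr (π.injective.ne hij) (c i j * t) := by
  classical
  rcases isEmpty_or_nonempty (Fin n) with hn | ⟨⟨b₀⟩⟩
  · exact ⟨1, fun _ _ => 1, fun i => (hn.false i).elim, fun i => (hn.false i).elim⟩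
  let d : Fin n → K := fun b => if b = b₀ then ((Equiv.Perm.sign π : ℤ) : K) else 1
  have hsign : ((Equiv.Perm.sign π : ℤ) : K) * ((Equiv.Perm.sign π : ℤ) : K) = 1 := by
    rw [← Int.cast_mul]
    have : ((Equiv.Perm.sign π : ℤ)) * (Equiv.Perm.sign π : ℤ) = 1 := by
      rcases Int.units_eq_one_or (Equiv.Perm.sign π) with h | h <;> simp [h]
    rw [this, Int.cast_one]
  have hd : ∀ b, d b ≠ 0 := by
    intro b
    show (if b = b₀ then ((Equiv.Perm.sign π : ℤ) : K) else 1) ≠ 0
    split_ifs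
    · intro h0
      rw [h0, mul_zero] at hsign
      exact zero_ne_one hsign
    · exact one_ne_zero
  have hdet : (SLrel_P π d).det = 1 := by
    unfold SLrel_P
    rw [Matrix.det_mul, Matrix.det_permutation, Matrix.det_diagonal, Equiv.Perm.sign_inv]
    have h1 : ∏ b, d b = ((Equiv.Perm.sign π : ℤ) : K) := by
      show ∏ b, (if b = b₀ then ((Equiv.Perm.sign π : ℤ) : K) else 1) = _
      rw [Finset.prod_ite_eq' Finset.univ b₀]
      simp
    rw [h1]
    exact hsign
  refine ⟨⟨SLrel_P π d, hdet⟩, fun i j => d i * (d j)⁻¹, fun i j =>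
    mul_ne_zero (hd i) (inv_ne_zero (hd j)), fun i j hij t => ?_⟩
  rw [mul_inv_eq_iff_eq_mul]
  apply Subtype.ext
  change SLrel_P π d * (xr hij t).1 = (xr (π.injective.ne hij) (d i * (d j)⁻¹ * t)).1 * SLrel_P π d
  rw [SLrel_xr, SLrel_xr, mul_add, add_mul, mul_one, one_mul, mul_smul_comm, smul_mul_assoc,
    SLrel_P_mul, SLrel_mul_P, smul_smul, smul_smul]
  congr 2
  field_simp [hd j]

theorem SLrel_diag2n {i j : Fin n} (hij : i ≠ j) (c : K) (hc : c ≠ 0) :
    SpecialLinearGroup.diag2n hij c hc = (xr hij c * xr hij.symm (-c⁻¹) * xr hij c) *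
      (xr hij (-1) * xr hij.symm (-(-1)⁻¹) * xr hij (-1)) := by
  apply Subtype.ext
  change _ = (xr hij c * xr hij.symm (-c⁻¹) * xr hij c).1 *
      (xr hij (-1 : K) * xr hij.symm (-(-1 : K)⁻¹) * xr hij (-1 : K)).1
  rw [SLrel_weyl hij c hc, SLrel_weyl hij (-1) (by simp), SpecialLinearGroup.diag2n_coe]
  have h1 : (diagonal (fun k ↦ if k = i then c else if k = j then c⁻¹ else 1) :
      Matrix (Fin n) (Fin n) K) = 1 + (c - 1) • SLrel_E K i i + (c⁻¹ - 1) • SLrel_E K j j := by
    ext a b
    unfold SLrel_E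
    simp only [Matrix.add_apply, Matrix.smul_apply, single_apply, Matrix.diagonal_apply,
      Matrix.one_apply, smul_eq_mul]
    by_cases hab : a = b
    · subst hab
      by_cases h1 : a = i
      · subst h1
        simp [hij.symm]
      · by_cases h2 : a = j
        · subst h2
          simp [h1, Ne.symm h1]
        · simp [h1, h2, Ne.symm h1, Ne.symm h2]
    · have h2 : ¬ (i = a ∧ i = b) := fun h => hab (h.1.symm.trans h.2)
      have h3 : ¬ (j = a ∧ j = b) := fun h => hab (h.1.symm.trans h.2)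
      simp [hab, h2, h3]
  rw [h1]
  simp only [add_mul, mul_add, sub_mul, mul_sub, one_mul, mul_one, smul_mul_assoc, mul_smul_comm,
    SLrel_E_mul, if_neg hij, if_neg hij.symm, if_true, smul_zero]
  match_scalars <;> field_simp <;> ring

theorem closure_xr (hn : 2 ≤ n) :
    Subgroup.closure {A : SL n K | ∃ (i j : Fin n) (hij : i ≠ j) (t : K), A = xr hij t} = ⊤ := by
  have : Nontrivial (Fin n) := Fin.nontrivial_iff_two_le.2 hn
  rw [eq_top_iff]
  intro A _
  have hx : ∀ (i j : Fin n) (hij : i ≠ j) (t : K), xr hij t ∈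
      Subgroup.closure {A : SL n K | ∃ (i j : Fin n) (hij : i ≠ j) (t : K), A = xr hij t} :=
    fun i j hij t => Subgroup.subset_closure ⟨i, j, hij, t, rfl⟩
  refine SpecialLinearGroup.diagonal_transvection_induction' (fun B => B ∈
    Subgroup.closure {A : SL n K | ∃ (i j : Fin n) (hij : i ≠ j) (t : K), A = xr hij t}) A
    ?_ (fun i j hij a => hx i j hij a) fun A B hA hB => mul_mem hA hB
  intro i j hij c hc
  rw [SLrel_diag2n hij c hc]
  exact mul_mem (mul_mem (mul_mem (hx _ _ _ _) (hx _ _ _ _)) (hx _ _ _ _))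
    (mul_mem (mul_mem (hx _ _ _ _) (hx _ _ _ _)) (hx _ _ _ _))

end Pool.Agent.H62.CA
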