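import Pool.Agent.H62.CA.LemmaU
import Pool.Agent.H62.CA.AdEig
import Pool.Agent.H62.CA.SLrel
import Pool.Agent.H62.CA.LiftLemmas

/-!
# Project CA, module UnipLift: root elements have unipotent representatives

Proof. `F := AlgebraicClosure L`. For `Y ∈ SL n L` let `Ad Y := adXY (Y_F) (Y_F⁻¹)` (`Y_F` = image in
matrices over `F`, `SpecialLinearGroup.map (algebraMap L F)`); multiplicative, trivial on the center
(scalar matrices), so it factors through `SL n L ⧸ Z` (define `Ad' q := Ad (Quotient.out q)` and use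
`Ad (z * Y) = Ad Y`, or `QuotientGroup.lift` to the units of `Module.End`). Apply
`isNilpotent_sub_one_of_scaled` to `f u := Ad' (ψ (xr hij u))` (`xr_add`, `diag_xr`; `g :=
Ad' (ψ (diag2n hij s hs))`, injective since invertible). So for every representative `X` of
`ψ (xr hij u)`, `Ad X - 1` is nilpotent and (`exists_scalar_of_ad`) `X_F - lam` is nilpotent for some
`lam`, `lam ≠ 0` since `X_F` is invertible.

Choose `s : K` with `s ≠ 0`, `s * s ≠ 1` (`K` infinite), `u := t / (s * s - 1)`, `H` a
representative of `ψ (diag2n hij s hs)`, `X` of `ψ (xr hij u)`, and `e := H X H⁻¹ X⁻¹`. Then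
`mk e = ψ (diag2n * xr u * diag2n⁻¹ * (xr u)⁻¹) = ψ (xr (s * s * u) * xr (-u)) = ψ (xr t)`.
Unipotent: `X' := H X H⁻¹` commutes with `X` up to a central element `z` (scalar `r`):
`X' X = z X X'` since `ψ (xr (s s u))` and `ψ (xr u)` commute; `X X' X⁻¹ = z⁻¹ X'`; over `F`,
`X' - lam` and `z⁻¹ X' - lam` (conjugate of `X' - lam` by `X`) are nilpotent, so (difference of
commuting nilpotents as in `eq_one_of_unip`) `r = 1`. So `X'`, `X` commute and
`e - 1 = (X' - X) X⁻¹ = ((X' - lam) - (X - lam)) X⁻¹` is nilpotent over `F`, hence over `L`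
(injectivity of `Matrix.map (algebraMap L F)`).
-/

set_option autoImplicit false

open Matrix

namespace Pool.Agent.H62.CA

variable {n : ℕ} {K L : Type*} [Field K] [Field L] {Z : Subgroup (SL n L)} [Z.Normal]

/-- Matrices over `L` as matrices over the algebraic closure. -/
noncomputable def UnipLift_F (n : ℕ) (L : Type*) [Field L] :
    Matrix (Fin n) (Fin n) L →+* Matrix (Fin n) (Fin n) (AlgebraicClosure L) :=
  (algebraMap L (AlgebraicClosure L)).mapMatrix

theorem UnipLift_F_injective : Function.Injective (UnipLift_F n L) := by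
  intro A B h
  ext i j
  have h1 := congrFun (congrFun h i) j
  exact (algebraMap L (AlgebraicClosure L)).injective h1

theorem UnipLift_F_scalar (r : L) : UnipLift_F n L (scalar (Fin n) r) =
    scalar (Fin n) (algebraMap L (AlgebraicClosure L) r) := by
  ext i j
  change algebraMap L (AlgebraicClosure L) ((scalar (Fin n) r) i j) = _
  rw [scalar_apply, scalar_apply, diagonal_apply, diagonal_apply]
  split_ifs
  · rfl
  · exact map_zero _

theorem UnipLift_F_mul_inv (Y : SL n L) :
    UnipLift_F n L Y.1 * UnipLift_F n L (Y⁻¹).1 = 1 := by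
  have h : Y.1 * (Y⁻¹).1 = 1 := congrArg Subtype.val (mul_inv_cancel Y)
  rw [← map_mul, h, map_one]

theorem UnipLift_F_inv_mul (Y : SL n L) :
    UnipLift_F n L (Y⁻¹).1 * UnipLift_F n L Y.1 = 1 := by
  have h : (Y⁻¹).1 * Y.1 = 1 := congrArg Subtype.val (inv_mul_cancel Y)
  rw [← map_mul, h, map_one]

theorem UnipLift_adXY_apply {F : Type*} [Field F] (X Y M : Matrix (Fin n) (Fin n) F) :
    adXY X Y M = X * (M * Y) := rfl

/-- The adjoint representation. -/
noncomputable def UnipLift_Ad (n : ℕ) (L : Type*) [Field L] : SL n L →*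
    Module.End (AlgebraicClosure L) (Matrix (Fin n) (Fin n) (AlgebraicClosure L)) where
  toFun Y := adXY (UnipLift_F n L Y.1) (UnipLift_F n L (Y⁻¹).1)
  map_one' := by
    apply LinearMap.ext
    intro M
    rw [UnipLift_adXY_apply, inv_one]
    have h : UnipLift_F n L (1 : SL n L).1 = 1 := map_one _
    rw [h, one_mul, mul_one]
    rfl
  map_mul' A B := by
    apply LinearMap.ext
    intro M
    have h1 : UnipLift_F n L (A * B).1 = UnipLift_F n L A.1 * UnipLift_F n L B.1 := by
      rw [← map_mul]
      rfl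
    have h2 : UnipLift_F n L ((A * B)⁻¹).1 =
        UnipLift_F n L (B⁻¹).1 * UnipLift_F n L (A⁻¹).1 := by
      rw [_root_.mul_inv_rev, ← map_mul]
      rfl
    rw [UnipLift_adXY_apply, Module.End.mul_apply, UnipLift_adXY_apply, UnipLift_adXY_apply, h1, h2]
    simp only [Matrix.mul_assoc]

theorem UnipLift_Ad_apply (Y : SL n L) (M : Matrix (Fin n) (Fin n) (AlgebraicClosure L)) :
    UnipLift_Ad n L Y M = UnipLift_F n L Y.1 * (M * UnipLift_F n L (Y⁻¹).1) := rfl

theorem UnipLift_center_le : Subgroup.center (SL n L) ≤ (UnipLift_Ad n L).ker := by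
  intro z hz
  rw [MonoidHom.mem_ker]
  obtain ⟨r, -, hr⟩ := Matrix.SpecialLinearGroup.mem_center_iff.1 hz
  apply LinearMap.ext
  intro M
  have h1 : UnipLift_F n L z.1 * M = M * UnipLift_F n L z.1 := by
    have h2 : z.1 = scalar (Fin n) r := hr.symm
    rw [h2, UnipLift_F_scalar]
    exact (scalar_commute (n := Fin n) (algebraMap L (AlgebraicClosure L) r) (Commute.all _) M).eq
  rw [UnipLift_Ad_apply, ← Matrix.mul_assoc, h1, Matrix.mul_assoc, UnipLift_F_mul_inv,
    Matrix.mul_one]
  rfl

/-- The adjoint representation of the quotient. -/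
noncomputable def UnipLift_AdQ (hZ : Z ≤ Subgroup.center (SL n L)) : SL n L ⧸ Z →*
    Module.End (AlgebraicClosure L) (Matrix (Fin n) (Fin n) (AlgebraicClosure L)) :=
  QuotientGroup.lift Z (UnipLift_Ad n L) (hZ.trans UnipLift_center_le)

theorem UnipLift_nilp [Infinite K] (hZ : Z ≤ Subgroup.center (SL n L))
    (ψ : SL n K →* SL n L ⧸ Z) {i j : Fin n} (hij : i ≠ j) (t : K) :
    IsNilpotent (UnipLift_AdQ hZ (ψ (xr hij t)) - 1) := by
  refine isNilpotent_sub_one_of_scaled (fun u => UnipLift_AdQ hZ (ψ (xr hij u))) ?_ ?_ ?_ t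
  · change UnipLift_AdQ hZ (ψ (xr hij 0)) = 1
    rw [xr_zero, map_one, map_one]
  · intro s u
    change UnipLift_AdQ hZ (ψ (xr hij (s + u))) = _
    rw [xr_add, map_mul, map_mul]
  · intro s hs
    set D : SL n K := SpecialLinearGroup.diag2n hij s hs with hD
    refine ⟨UnipLift_AdQ hZ (ψ D), ?_, ?_⟩
    · have h1 : UnipLift_AdQ hZ (ψ D⁻¹) * UnipLift_AdQ hZ (ψ D) = 1 := by
        rw [← map_mul, ← map_mul, inv_mul_cancel, map_one, map_one]
      intro M M' hM
      have h2 := congrArg (UnipLift_AdQ hZ (ψ D⁻¹)) hM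
      rw [← Module.End.mul_apply, ← Module.End.mul_apply, h1] at h2
      exact h2
    · intro u
      change UnipLift_AdQ hZ (ψ D) * UnipLift_AdQ hZ (ψ (xr hij u)) =
        UnipLift_AdQ hZ (ψ (xr hij (s * s * u))) * UnipLift_AdQ hZ (ψ D)
      rw [← diag_xr hij s hs u, ← map_mul, ← map_mul, ← map_mul, ← map_mul, ← hD]
      congr 2
      group

/-- Differences of commuting nilpotent matrices. -/
theorem UnipLift_scalar_zero (hn : 0 < n) {F : Type*} [Field F] {c : F}
    (h : IsNilpotent (scalar (Fin n) c)) : c = 0 := by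
  obtain ⟨k, hk⟩ := h
  rw [← map_pow] at hk
  have h1 := congrFun (congrFun hk ⟨0, hn⟩) ⟨0, hn⟩
  rw [scalar_apply, diagonal_apply_eq, Matrix.zero_apply] at h1
  by_contra hc
  exact pow_ne_zero k hc h1

theorem exists_unip_lift [Infinite K] (hn : 2 ≤ n) (hZ : Z ≤ Subgroup.center (SL n L))
    (ψ : SL n K →* SL n L ⧸ Z) {i j : Fin n} (hij : i ≠ j) (t : K) :
    ∃ e : SL n L, Lift ψ (xr hij t) e := by
  classical
  have hn0 : 0 < n := by omega
  obtain ⟨s, hs⟩ := Infinite.exists_notMem_finset ({0, 1, -1} : Finset K)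
  have hs0 : s ≠ 0 := by
    rintro rfl
    simp at hs
  have hs1 : s * s - 1 ≠ 0 := by
    intro h
    have h2 : (s - 1) * (s + 1) = 0 := by
      rw [← h]
      ring
    rcases mul_eq_zero.1 h2 with h3 | h3
    · exact hs (by simp [sub_eq_zero.1 h3])
    · exact hs (by simp [eq_neg_of_add_eq_zero_left h3])
  set u : K := t / (s * s - 1) with hu
  set D : SL n K := SpecialLinearGroup.diag2n hij s hs0 with hD
  obtain ⟨H, hH⟩ := QuotientGroup.mk_surjective (ψ D)
  obtain ⟨X, hX⟩ := QuotientGroup.mk_surjective (ψ (xr hij u))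
  -- the scalar
  have hnil := UnipLift_nilp hZ ψ hij u
  rw [← hX] at hnil
  have hnil' : IsNilpotent (adXY (UnipLift_F n L X.1) (UnipLift_F n L (X⁻¹).1) - 1) := hnil
  obtain ⟨lam, hlam⟩ := exists_scalar_of_ad hn0 (UnipLift_F_mul_inv X) hnil'
  set A := UnipLift_F n L X.1 with hA
  set A' := UnipLift_F n L (X⁻¹).1 with hA'
  have hAA' : A * A' = 1 := UnipLift_F_mul_inv X
  have hA'A : A' * A = 1 := UnipLift_F_inv_mul X
  have hsc : ∀ (c : AlgebraicClosure L) (M : Matrix (Fin n) (Fin n) (AlgebraicClosure L)),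
      scalar (Fin n) c * M = M * scalar (Fin n) c := fun c M =>
    (scalar_commute (n := Fin n) c (Commute.all _) M).eq
  have hlam0 : lam ≠ 0 := by
    rintro rfl
    rw [map_zero, sub_zero] at hlam
    have h1 : IsNilpotent (A * A') := (show Commute A A' from by
      change A * A' = A' * A
      rw [hAA', hA'A]).isNilpotent_mul_right hlam
    rw [hAA'] at h1
    have h2 := UnipLift_scalar_zero hn0 (F := AlgebraicClosure L) (c := 1) (by
      rw [map_one]
      exact h1)
    exact one_ne_zero h2
  -- conjugation preserves nilpotency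
  have hconj : ∀ (Y : SL n L) (M : Matrix (Fin n) (Fin n) (AlgebraicClosure L)), IsNilpotent M →
      IsNilpotent (UnipLift_F n L Y.1 * M * UnipLift_F n L (Y⁻¹).1) := by
    rintro Y M ⟨k, hk⟩
    refine ⟨k, ?_⟩
    have h1 : ∀ k : ℕ, (UnipLift_F n L Y.1 * M * UnipLift_F n L (Y⁻¹).1) ^ k =
        UnipLift_F n L Y.1 * M ^ k * UnipLift_F n L (Y⁻¹).1 := by
      intro k
      induction k with
      | zero => rw [pow_zero, pow_zero, mul_one, UnipLift_F_mul_inv]
      | succ k ih =>
        rw [pow_succ, ih, pow_succ]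
        calc UnipLift_F n L Y.1 * M ^ k * UnipLift_F n L (Y⁻¹).1 *
              (UnipLift_F n L Y.1 * M * UnipLift_F n L (Y⁻¹).1)
            = UnipLift_F n L Y.1 * M ^ k * (UnipLift_F n L (Y⁻¹).1 * UnipLift_F n L Y.1) * M *
              UnipLift_F n L (Y⁻¹).1 := by simp only [Matrix.mul_assoc]
          _ = _ := by
            rw [UnipLift_F_inv_mul, Matrix.mul_one]
            simp only [Matrix.mul_assoc]
    rw [h1, hk, Matrix.mul_zero, Matrix.zero_mul]
  set X' : SL n L := H * X * H⁻¹ with hX'
  have hX'q : (QuotientGroup.mk X' : SL n L ⧸ Z) = ψ (xr hij (s * s * u)) := by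
    rw [hX', QuotientGroup.mk_mul, QuotientGroup.mk_mul, QuotientGroup.mk_inv, hH, hX,
      ← diag_xr hij s hs0 u, map_mul, map_mul, map_inv, hD]
  set B := UnipLift_F n L X'.1 with hB
  have hBA : B = UnipLift_F n L H.1 * A * UnipLift_F n L (H⁻¹).1 := by
    rw [hB, hA, ← map_mul, ← map_mul]
    rfl
  have hBnil : IsNilpotent (B - scalar (Fin n) lam) := by
    have h1 := hconj H _ hlam
    have h2 : UnipLift_F n L H.1 * (A - scalar (Fin n) lam) * UnipLift_F n L (H⁻¹).1 =
        B - scalar (Fin n) lam := by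
      rw [hBA, Matrix.mul_sub, Matrix.sub_mul, ← hsc, Matrix.mul_assoc (scalar (Fin n) lam),
        UnipLift_F_mul_inv, Matrix.mul_one]
    rwa [h2] at h1
  -- `X'` and `X` commute
  have hcomm : Commute X' X := by
    set z : SL n L := X' * X * X'⁻¹ * X⁻¹ with hz
    have hzZ : z ∈ Z := by
      rw [← QuotientGroup.eq_one_iff, hz, QuotientGroup.mk_mul, QuotientGroup.mk_mul,
        QuotientGroup.mk_mul, QuotientGroup.mk_inv, QuotientGroup.mk_inv, hX'q, hX, ← map_mul,
        ← xr_add, add_comm, xr_add, map_mul]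
      group
    obtain ⟨r, -, hr⟩ := Matrix.SpecialLinearGroup.mem_center_iff.1 (hZ hzZ)
    have h1 : X' * X * X'⁻¹ = z * X := by
      rw [hz]
      group
    have h2 : B * A * UnipLift_F n L (X'⁻¹).1 =
        scalar (Fin n) (algebraMap L (AlgebraicClosure L) r) * A := by
      have h3 : UnipLift_F n L (X' * X * X'⁻¹).1 = UnipLift_F n L (z * X).1 := by rw [h1]
      have h4 : (z * X).1 = scalar (Fin n) r * X.1 := by
        rw [hr]
        rfl
      rw [h4, map_mul, UnipLift_F_scalar] at h3
      rw [← h3, hB, hA, ← map_mul, ← map_mul]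
      rfl
    have h5 := hconj X' _ hlam
    have h6 : UnipLift_F n L X'.1 * (A - scalar (Fin n) lam) * UnipLift_F n L (X'⁻¹).1 =
        scalar (Fin n) (algebraMap L (AlgebraicClosure L) r) * A - scalar (Fin n) lam := by
      rw [Matrix.mul_sub, Matrix.sub_mul, ← hsc, Matrix.mul_assoc (scalar (Fin n) lam),
        UnipLift_F_mul_inv, Matrix.mul_one, ← hB, h2]
    rw [h6] at h5
    set r' := algebraMap L (AlgebraicClosure L) r with hr'
    have h7 : IsNilpotent (scalar (Fin n) r' * (A - scalar (Fin n) lam)) := by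
      apply Commute.isNilpotent_mul_left _ hlam
      exact hsc _ _
    have h8 : IsNilpotent ((scalar (Fin n) r' * A - scalar (Fin n) lam) -
        scalar (Fin n) r' * (A - scalar (Fin n) lam)) := by
      apply Commute.isNilpotent_sub _ h5 h7
      change (scalar (Fin n) r' * A - scalar (Fin n) lam) *
        (scalar (Fin n) r' * (A - scalar (Fin n) lam)) =
        (scalar (Fin n) r' * (A - scalar (Fin n) lam)) *
        (scalar (Fin n) r' * A - scalar (Fin n) lam)
      have e1 : Commute (scalar (Fin n) r' * A) (scalar (Fin n) r' * (A - scalar (Fin n) lam)) := by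
        apply Commute.mul_left
        · exact hsc _ _
        · apply Commute.mul_right
          · exact (hsc _ _).symm
          · exact (Commute.refl A).sub_right (hsc _ _).symm
      have e2 : Commute (scalar (Fin n) lam) (scalar (Fin n) r' * (A - scalar (Fin n) lam)) :=
        hsc _ _
      exact (e1.sub_left e2).eq
    have h9 : (scalar (Fin n) r' * A - scalar (Fin n) lam) -
        scalar (Fin n) r' * (A - scalar (Fin n) lam) = scalar (Fin n) ((r' - 1) * lam) := by
      rw [map_mul, map_sub, map_one, Matrix.mul_sub, Matrix.sub_mul, Matrix.one_mul]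
      abel
    rw [h9] at h8
    have h10 := UnipLift_scalar_zero hn0 h8
    have h11 : r' = 1 := by
      rcases mul_eq_zero.1 h10 with h | h
      · exact sub_eq_zero.1 h
      · exact absurd h hlam0
    have h12 : r = 1 := (algebraMap L (AlgebraicClosure L)).injective (by rw [map_one]; exact h11)
    have h13 : z = 1 := by
      apply Subtype.ext
      rw [← hr, h12, map_one]
      rfl
    change X' * X = X * X'
    calc X' * X = z * X * X' := by rw [hz]; group
      _ = X * X' := by rw [h13, one_mul]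
  refine ⟨X' * X⁻¹, ?_, ?_⟩
  · -- unipotent
    unfold Unip
    rw [← IsNilpotent.map_iff (f := UnipLift_F n L) UnipLift_F_injective]
    have h1 : UnipLift_F n L (((X' * X⁻¹ : SL n L) : Matrix (Fin n) (Fin n) L) - 1) =
        ((B - scalar (Fin n) lam) - (A - scalar (Fin n) lam)) * A' := by
      have h2 : UnipLift_F n L ((X' * X⁻¹ : SL n L) : Matrix (Fin n) (Fin n) L) = B * A' := by
        rw [hB, hA', ← map_mul]
        rfl
      rw [map_sub, map_one, h2, sub_sub_sub_cancel_right, Matrix.sub_mul, hAA']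
    have hAB : Commute B A := by
      change B * A = A * B
      rw [hB, hA, ← map_mul, ← map_mul]
      have : X'.1 * X.1 = X.1 * X'.1 := congrArg Subtype.val hcomm.eq
      rw [this]
    have hBA' : Commute B A' := by
      change B * A' = A' * B
      calc B * A' = (A' * A) * (B * A') := by rw [hA'A, Matrix.one_mul]
        _ = A' * (B * A) * A' := by
          rw [hAB.eq]
          simp only [Matrix.mul_assoc]
        _ = A' * B * (A * A') := by simp only [Matrix.mul_assoc]
        _ = A' * B := by rw [hAA', Matrix.mul_one]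
    have hAA'c : Commute A A' := by
      change A * A' = A' * A
      rw [hAA', hA'A]
    rw [h1]
    apply Commute.isNilpotent_mul_right
    · rw [sub_sub_sub_cancel_right]
      exact hBA'.sub_left hAA'c
    · apply Commute.isNilpotent_sub _ hBnil hlam
      apply Commute.sub_left
      · apply Commute.sub_right hAB
        exact (hsc _ _).symm
      · exact hsc _ _
  · -- representative
    rw [QuotientGroup.mk_mul, QuotientGroup.mk_inv, hX'q, hX, ← map_inv, ← map_mul]
    congr 1
    have h1 : (xr hij u)⁻¹ = xr hij (-u) := by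
      apply inv_eq_of_mul_eq_one_left
      rw [← xr_add, neg_add_cancel, xr_zero]
    rw [h1, ← xr_add]
    congr 1
    have h2 : u * (s * s - 1) = t := by
      rw [hu]
      exact div_mul_cancel₀ t hs1
    rw [← h2]
    ring

end Pool.Agent.H62.CA
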